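import Pool.Agent.H834R6.CC.Defs

set_option autoImplicit false
set_option maxHeartbeats 4000000

namespace Pool.Agent.H834R6.CC

open Pool.Agent.H282R2 Set Filter Topology

namespace CMap

variable {R S : Type} [CommRing R] [CommRing S] (φ : R →+* S)

/-- componentwise -/
def vm (a : V3 R) : V3 S := (φ a.1, φ a.2.1, φ a.2.2)

theorem vsub_m (a b : V3 R) : vsub (vm φ a) (vm φ b) = vm φ (vsub a b) := by
  simp only [vsub, vm, map_sub]

theorem vadd_m (a b : V3 R) : vadd (vm φ a) (vm φ b) = vm φ (vadd a b) := by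
  simp only [vadd, vm, map_add]

theorem vsmul_m (c : R) (a : V3 R) : vsmul (φ c) (vm φ a) = vm φ (vsmul c a) := by
  simp only [vsmul, vm, map_mul]

theorem vcr_m (a b : V3 R) : vcr (vm φ a) (vm φ b) = vm φ (vcr a b) := by
  simp only [vcr, vm, map_sub, map_mul]

theorem vdot_m (a b : V3 R) : vdot (vm φ a) (vm φ b) = φ (vdot a b) := by
  simp only [vdot, vm, map_add, map_mul]

theorem vdet_m (a b c : V3 R) : vdet (vm φ a) (vm φ b) (vm φ c) = φ (vdet a b c) := by
  simp only [vdet, vcr_m, vdot_m]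

theorem vget_m (a : V3 R) (c : Fin 3) : vget (vm φ a) c = φ (vget a c) := by
  fin_cases c <;> rfl

/-- componentwise on hubs -/
def hm (h : Hub5 R) : Hub5 S := ⟨vm φ h.A, vm φ h.A', vm φ h.B, vm φ h.C, vm φ h.C'⟩

variable (h : Hub5 R)

theorem hd1_m : hd1 (hm φ h) = vm φ (hd1 h) := vsub_m φ _ _
theorem hd3_m : hd3 (hm φ h) = vm φ (hd3 h) := vsub_m φ _ _

theorem hDA_m : hDA (hm φ h) = φ (hDA h) := by
  unfold hDA
  rw [hd1_m, hd3_m]
  simp only [hm, vsub_m, vdet_m]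

theorem hDC_m : hDC (hm φ h) = φ (hDC h) := by
  unfold hDC
  rw [hd1_m, hd3_m]
  simp only [hm, vsub_m, vdet_m]

theorem hth_m : hth (hm φ h) = φ (hth h) := by
  unfold hth
  rw [hd3_m]
  simp only [hm, vsub_m, vdet_m]

theorem hsh_m : hsh (hm φ h) = φ (hsh h) := by
  unfold hsh
  rw [hd1_m]
  simp only [hm, vsub_m, vdet_m]

theorem hq_m : hq (hm φ h) = vm φ (hq h) := by
  unfold hq
  rw [hd1_m, hd3_m]
  simp only [hm, vsub_m, vcr_m]

theorem hpsi_m : hpsi (hm φ h) = vm φ (hpsi h) := by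
  unfold hpsi
  simp only [hd1_m, hd3_m, hDA_m, hDC_m, hq_m, vdot_m, vcr_m, ← map_mul, vsmul_m, vsub_m]

theorem hf1_m : hf1 (hm φ h) = vm φ (hf1 h) := by
  unfold hf1
  simp only [hDA_m, hDC_m, hq_m, hpsi_m, ← map_mul, vsmul_m, vadd_m]

theorem hf3_m : hf3 (hm φ h) = vm φ (hf3 h) := by
  unfold hf3
  simp only [hDA_m, hDC_m, hq_m, hpsi_m, ← map_mul, ← map_neg, vsmul_m, vadd_m]

theorem hrow_m (k : Fin 5) : hrow (hm φ h) k = vm φ (hrow h k) := by
  unfold hrow
  simp only [hDA_m, hDC_m, hf1_m, hf3_m, hpsi_m, hth_m, hsh_m, ← map_sub, ← map_add, ← map_neg,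
    vsmul_m]
  fin_cases k <;> rfl

variable (η : Fin 13 → V3 R)

theorem hub5_m (p : PI) : hub5 (fun x => vm φ (η x)) p = hm φ (hub5 η p) := rfl

theorem dirOf_m (p : PI) (k : Fin 5) : dirOf (fun x => vm φ (η x)) p k = vm φ (dirOf η p k) := by
  unfold dirOf
  rw [hub5_m, hd1_m, hd3_m, hq_m]
  fin_cases k <;> rfl

theorem frcOf_m (p : PI) (k : Fin 5) : frcOf (fun x => vm φ (η x)) p k = vm φ (frcOf η p k) := by
  unfold frcOf
  rw [hub5_m, hf1_m, hf3_m, hpsi_m]
  fin_cases k <;> rfl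

theorem condA_m (p : PI) (k : Fin 5) : condA (fun x => vm φ (η x)) p k = φ (condA η p k) := by
  unfold condA
  rw [dirOf_m, dirOf_m, dirOf_m, vdet_m]

theorem condB_m (p : PI) (k : Fin 5) (e : Fin 2) :
    condB (fun x => vm φ (η x)) p k e = φ (condB η p k e) := by
  unfold condB
  rw [dirOf_m, frcOf_m, vdot_m]

theorem hubMat_m (r : Fin 39) (x : Fin 13 × Fin 3) :
    hubMat (fun x => vm φ (η x)) r x = φ (hubMat η r x) := by
  unfold hubMat
  split_ifs with h1 h2
  · rw [map_one]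
  · rw [map_zero]
  · rw [map_sum]
    refine Finset.sum_congr rfl (fun k _ => ?_)
    rw [hub5_m, hrow_m, vget_m]
    split_ifs
    · rfl
    · rw [map_zero]

theorem hubMatS_m : hubMatS (fun x => vm φ (η x)) = φ.mapMatrix (hubMatS η) := by
  ext r c
  unfold hubMatS
  rw [hubMat_m]
  rfl

end CMap

open CMap in
/-- CMAP: naturality -/
theorem cond_map {R S : Type} [CommRing R] [CommRing S] (φ : R →+* S) (η : Fin 13 → V3 R) (c : CI) :
    cond (fun x => ((φ (η x).1, φ (η x).2.1, φ (η x).2.2) : V3 S)) c = φ (cond η c) := by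
  rcases c with x | x | x
  · exact condA_m φ η x.1 x.2
  · exact condB_m φ η x.1 x.2.1 x.2.2
  · have h1 : cond (fun x => ((φ (η x).1, φ (η x).2.1, φ (η x).2.2) : V3 S)) (.inr (.inr x)) =
        (hubMatS (fun x => vm φ (η x))).det := rfl
    have h2 : cond η (.inr (.inr x)) = (hubMatS η).det := rfl
    rw [h1, h2, hubMatS_m, RingHom.map_det]

end Pool.Agent.H834R6.CC
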