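import Pool.Agent.H834R6.CC.Eta
import Pool.Agent.H834R6.CC.CMap

/-! CGEN: genericity of the polynomial conditions. -/

set_option autoImplicit false
set_option maxHeartbeats 4000000

namespace Pool.Agent.H834R6.CC

open Pool.Agent.H282R2 Set Filter Topology

namespace CGen

open Polynomial

/-- the hubs as polynomials -/
noncomputable def etaP (η0 : Fin 13 → V3 ℝ) (x : Fin 13) : V3 (Polynomial ℝ) :=
  (C (η0 x).1 + X * C ((etaR x).1 - (η0 x).1), C (η0 x).2.1 + X * C ((etaR x).2.1 - (η0 x).2.1),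
    C (η0 x).2.2 + X * C ((etaR x).2.2 - (η0 x).2.2))

theorem eval_cond (η0 : Fin 13 → V3 ℝ) (t : ℝ) (c : CI) :
    (cond (etaP η0) c).eval t = cond (etaT η0 t) c := by
  have h := cond_map (Polynomial.evalRingHom t) (etaP η0) c
  rw [Polynomial.coe_evalRingHom] at h
  rw [← h]
  congr 1
  funext x
  simp [etaP, etaT, vadd, vsmul, vsub]

theorem etaT_one (η0 : Fin 13 → V3 ℝ) : etaT η0 1 = etaR := by
  funext x
  simp [etaT, vadd, vsmul, vsub]

theorem cond_etaR (c : CI) : cond etaR c = ((cond etaZ c : ℤ) : ℝ) := by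
  exact cond_map (Int.castRingHom ℝ) etaZ c

end CGen

theorem cond_generic (hZ : ∀ c, cond etaZ c ≠ 0) (η0 : Fin 13 → V3 ℝ) (δ : ℝ) (hδ : 0 < δ) :
    ∃ t : ℝ, 0 < t ∧ t < δ ∧ ∀ c, cond (etaT η0 t) c ≠ 0 := by
  have hne : ∀ c, cond (CGen.etaP η0) c ≠ 0 := by
    intro c h
    have h1 := CGen.eval_cond η0 1 c
    rw [h, CGen.etaT_one, CGen.cond_etaR, Polynomial.eval_zero] at h1
    exact hZ c (by exact_mod_cast h1.symm)
  have hfin : (⋃ c : CI, {t : ℝ | (cond (CGen.etaP η0) c).IsRoot t}).Finite :=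
    Set.finite_iUnion fun c => Polynomial.finite_setOfPred_isRoot (hne c)
  have hinf : (Set.Ioo (0 : ℝ) δ).Infinite := Set.Ioo_infinite hδ
  obtain ⟨t, ht, hnt⟩ := hinf.exists_notMem_finite hfin
  refine ⟨t, ht.1, ht.2, fun c hc => hnt ?_⟩
  refine Set.mem_iUnion.2 ⟨c, ?_⟩
  change (cond (CGen.etaP η0) c).eval t = 0
  rw [CGen.eval_cond, hc]

end Pool.Agent.H834R6.CC
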