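import Pool.Agent.H834R6.CC.Defs

/-!
# Clusters

Linear algebra: a pattern becomes infinitesimally rigid with one-sided contacts when every chain is
replaced by a cluster of five nearby chains.
-/

set_option autoImplicit false
set_option maxHeartbeats 4000000

namespace Pool.Agent.H834R6.CC

open Pool.Agent.H282R2 Set Filter Topology

/-- the five factors of a cluster -/
noncomputable def yv (K : ℝ) : Fin 5 → ℝ := ![0, 1, -1, K, -K]

namespace Cluster

theorem ptOn_add (V W : T3) (l : Fin 3) (θ : ℝ) : ptOn (V + W) l θ = ptOn V l θ + ptOn W l θ := by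
  unfold ptOn
  simp only [Pi.add_apply]
  module

theorem ptOn_smul (c : ℝ) (V : T3) (l : Fin 3) (θ : ℝ) : ptOn (c • V) l θ = c • ptOn V l θ := by
  unfold ptOn
  simp only [Pi.smul_apply]
  module

variable {P S : Type}

/-- `af` as a linear map -/
noncomputable def afl (X : P → T3) (c : Con P) : T3 →ₗ[ℝ] ℝ where
  toFun := af X c
  map_add' V W := by
    unfold af
    rw [ptOn_add, inner_add_right]
  map_smul' r V := by
    unfold af
    rw [ptOn_smul, inner_smul_right, RingHom.id_apply, smul_eq_mul]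

/-- `bf` as a linear map -/
noncomputable def bfl (X : P → T3) (c : Con P) : T3 →ₗ[ℝ] ℝ where
  toFun := bf X c
  map_add' V W := by
    unfold bf
    rw [ptOn_add, inner_add_right]
  map_smul' r V := by
    unfold bf
    rw [ptOn_smul, inner_smul_right, RingHom.id_apply, smul_eq_mul]

theorem af_sub (X : P → T3) (c : Con P) (V W : T3) : af X c (V - W) = af X c V - af X c W :=
  map_sub (afl X c) V W

theorem bfl_ne (X : P → T3) (c : Con P) (h : nv X c ≠ 0) : bfl X c ≠ 0 := by
  intro h0
  have h1 : bf X c (fun _ => nv X c) = 0 := by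
    show bfl X c (fun _ => nv X c) = 0
    rw [h0, LinearMap.zero_apply]
  unfold bf ptOn at h1
  rw [← add_smul, sub_add_cancel, one_smul, real_inner_self_eq_norm_sq] at h1
  exact h (norm_eq_zero.1 (pow_eq_zero_iff (two_ne_zero)|>.1 h1))

theorem LP_sub (T V W : T3) (hV : LP T V) (hW : LP T W) : LP T (V - W) := by
  intro l
  have h1 : lk (V - W) l = lk V l - lk W l := by
    unfold lk
    simp only [Pi.sub_apply]
    abel
  rw [h1, inner_sub_right, hV l, hW l, sub_zero]

/-- a nonempty open set contains a point outside of finitely many hyperplanes -/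
theorem avoid {κ : Type} [Finite κ] (f : κ → (T3 →ₗ[ℝ] ℝ)) (hf : ∀ a, f a ≠ 0) (U : Set T3)
    (hU : IsOpen U) (hne : U.Nonempty) : ∃ w ∈ U, ∀ a, f a w ≠ 0 := by
  have hd : Dense (⋂ a : κ, {w : T3 | f a w ≠ 0}) := by
    apply dense_iInter_of_isOpen
    · intro a
      have hc : Continuous (f a) := (f a).continuous_of_finiteDimensional
      exact isOpen_ne_fun hc continuous_const
    · intro a
      have h1 : interior ((LinearMap.ker (f a) : Submodule ℝ T3) : Set T3) = ∅ := by
        by_contra h2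
        have h3 := Submodule.eq_top_of_nonempty_interior' (LinearMap.ker (f a))
          (Set.nonempty_iff_ne_empty.2 h2)
        exact hf a (LinearMap.ker_eq_top.1 h3)
      have h2 := interior_eq_empty_iff_dense_compl.1 h1
      exact h2
  obtain ⟨w, hw1, hw2⟩ := hd.inter_open_nonempty U hU hne
  exact ⟨w, hw1, fun a => Set.mem_iInter.1 hw2 a⟩

end Cluster

open Cluster

theorem cluster {P S : Type} [Fintype P] [Fintype S] [DecidableEq P] (X : P → T3) (s : S → Con P)
    (h : PatOk X s) :
    ∃ (w : P → T3) (K : ℝ), ∀ V : P × Fin 5 → T3, (∀ x, LP (X x.1) (V x)) →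
      (∀ a : S, ∀ x y : Fin 5,
        0 ≤ (yv K x * af X (s a) (w (s a).i) - yv K y * bf X (s a) (w (s a).j)) *
          (af X (s a) (V ((s a).i, x)) - bf X (s a) (V ((s a).j, y)))) →
      ∃ ω τ : E3, ∀ x k, V x k = cr ω (X x.1 k) + τ := by
  classical
  -- the directions
  have hw : ∀ p, ∃ w : T3, (∀ a, (s a).i = p → 0 < (s a).σ * af X (s a) w) ∧
      ∀ a : {a : S // (s a).j = p}, bf X (s a.1) w ≠ 0 := by
    intro p
    obtain ⟨w0, hw0⟩ := h.dir p
    obtain ⟨w, hw1, hw2⟩ := avoid (fun a : {a : S // (s a).j = p} => bfl X (s a.1))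
      (fun a => bfl_ne X _ (h.ok a.1).nz)
      {w : T3 | ∀ a, (s a).i = p → 0 < (s a).σ * af X (s a) w} (by
        have he : {w : T3 | ∀ a, (s a).i = p → 0 < (s a).σ * af X (s a) w} =
            ⋂ a : S, {w : T3 | (s a).i = p → 0 < (s a).σ * af X (s a) w} := by
          ext w
          simp only [Set.mem_setOf_eq, Set.mem_iInter]
        rw [he]
        apply isOpen_iInter_of_finite
        intro a
        by_cases ha : (s a).i = p
        · simp only [ha, forall_const]
          have hc : Continuous (afl X (s a)) := (afl X (s a)).continuous_of_finiteDimensional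
          exact isOpen_lt continuous_const (continuous_const.mul hc)
        · have : {w : T3 | (s a).i = p → 0 < (s a).σ * af X (s a) w} = Set.univ := by
            ext w
            simp [ha]
          rw [this]
          exact isOpen_univ) ⟨w0, hw0⟩
    exact ⟨w, hw1, hw2⟩
  choose w hwa hwb using hw
  have hα : ∀ a, 0 < (s a).σ * af X (s a) (w (s a).i) := fun a => hwa _ a rfl
  have hβ : ∀ a, bf X (s a) (w (s a).j) ≠ 0 := fun a => hwb _ ⟨a, rfl⟩
  set K : ℝ := 1 + ∑ a, |bf X (s a) (w (s a).j)| / |af X (s a) (w (s a).i)| with hK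
  have hα0 : ∀ a, af X (s a) (w (s a).i) ≠ 0 := by
    intro a h0
    have := hα a
    rw [h0, mul_zero] at this
    exact lt_irrefl _ this
  have hKa : ∀ a, |bf X (s a) (w (s a).j)| < K * |af X (s a) (w (s a).i)| := by
    intro a
    have h1 : |bf X (s a) (w (s a).j)| / |af X (s a) (w (s a).i)| ≤
        ∑ a, |bf X (s a) (w (s a).j)| / |af X (s a) (w (s a).i)| :=
      Finset.single_le_sum (f := fun a => |bf X (s a) (w (s a).j)| / |af X (s a) (w (s a).i)|)
        (fun b _ => by positivity) (Finset.mem_univ a)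
    have h2 : 0 < |af X (s a) (w (s a).i)| := abs_pos.2 (hα0 a)
    have h3 : |bf X (s a) (w (s a).j)| / |af X (s a) (w (s a).i)| < K := by
      rw [hK]; linarith
    exact (div_lt_iff₀ h2).1 h3
  refine ⟨w, K, fun V hV hc => ?_⟩
  have y0 : yv K 0 = 0 := rfl
  have y1 : yv K 1 = 1 := rfl
  have y2 : yv K 2 = -1 := rfl
  have y3 : yv K 3 = K := rfl
  have y4 : yv K 4 = -K := rfl
  have hKpos : 0 < K := by
    rw [hK]
    have : 0 ≤ ∑ a, |bf X (s a) (w (s a).j)| / |af X (s a) (w (s a).i)| :=
      Finset.sum_nonneg fun a _ => by positivity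
    linarith
  -- sign lemmas
  have sp : ∀ q σ z : ℝ, 0 < q * σ → 0 ≤ q * z → 0 ≤ σ * z := by
    intro q σ z h1 h2
    have hq : q ≠ 0 := by
      rintro rfl
      simp at h1
    have hq2 : 0 < q ^ 2 := by positivity
    have h3 : 0 ≤ (σ * z) * q ^ 2 := by
      have := mul_nonneg h1.le h2
      nlinarith
    exact nonneg_of_mul_nonneg_left h3 hq2
  have sn : ∀ q σ z : ℝ, 0 < -q * σ → 0 ≤ q * z → σ * z ≤ 0 := by
    intro q σ z h1 h2
    have := sp (-q) σ (-z) h1 (by linarith)
    linarith
  have sgK1 : ∀ a, 0 < (K * af X (s a) (w (s a).i) - bf X (s a) (w (s a).j)) * (s a).σ := by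
    intro a
    have h1 := hKa a
    have h2 := hα a
    have h3 := abs_le.1 (le_refl |bf X (s a) (w (s a).j)|)
    rcases lt_or_gt_of_ne (hα0 a) with h4 | h4
    · have h5 : (s a).σ < 0 := by
        by_contra hcon
        nlinarith [not_lt.1 hcon]
      rw [abs_of_neg h4] at h1
      have h6 : K * af X (s a) (w (s a).i) - bf X (s a) (w (s a).j) < 0 := by linarith [h3.1]
      exact mul_pos_of_neg_of_neg h6 h5
    · have h5 : 0 < (s a).σ := by
        by_contra hcon
        nlinarith [not_lt.1 hcon]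
      rw [abs_of_pos h4] at h1
      have h6 : 0 < K * af X (s a) (w (s a).i) - bf X (s a) (w (s a).j) := by linarith [h3.2]
      exact mul_pos h6 h5
  have sgK2 : ∀ a, 0 < -(-K * af X (s a) (w (s a).i) - bf X (s a) (w (s a).j)) * (s a).σ := by
    intro a
    have h1 := hKa a
    have h2 := hα a
    have h3 := abs_le.1 (le_refl |bf X (s a) (w (s a).j)|)
    rcases lt_or_gt_of_ne (hα0 a) with h4 | h4
    · have h5 : (s a).σ < 0 := by
        by_contra hcon
        nlinarith [not_lt.1 hcon]
      rw [abs_of_neg h4] at h1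
      have h6 : -(-K * af X (s a) (w (s a).i) - bf X (s a) (w (s a).j)) < 0 := by linarith [h3.2]
      exact mul_pos_of_neg_of_neg h6 h5
    · have h5 : 0 < (s a).σ := by
        by_contra hcon
        nlinarith [not_lt.1 hcon]
      rw [abs_of_pos h4] at h1
      have h6 : 0 < -(-K * af X (s a) (w (s a).i) - bf X (s a) (w (s a).j)) := by linarith [h3.1]
      exact mul_pos h6 h5
  -- squeezing with the dependencies
  have squeeze : ∀ x x' : Fin 5,
      (∀ a, 0 ≤ (s a).σ * (af X (s a) (V ((s a).i, x)) - bf X (s a) (V ((s a).j, 0)))) →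
      (∀ a, (s a).σ * (af X (s a) (V ((s a).i, x')) - bf X (s a) (V ((s a).j, 0))) ≤ 0) →
      ∀ a, af X (s a) (V ((s a).i, x)) = bf X (s a) (V ((s a).j, 0)) ∧
        af X (s a) (V ((s a).i, x')) = bf X (s a) (V ((s a).j, 0)) := by
    intro x x' h1 h2 a
    have h3 := h.dep (s a).i (V ((s a).i, x)) (hV _)
    have h4 := h.dep (s a).i (V ((s a).i, x')) (hV _)
    have h5 : ∑ b, (if (s b).i = (s a).i then (s b).σ * (af X (s b) (V ((s b).i, x))
        - af X (s b) (V ((s b).i, x'))) else 0) = 0 := by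
      have h6 : ∑ b, (if (s b).i = (s a).i then (s b).σ * (af X (s b) (V ((s b).i, x))
        - af X (s b) (V ((s b).i, x'))) else 0) =
        ∑ b, (if (s b).i = (s a).i then (s b).σ * af X (s b) (V ((s a).i, x)) else 0) -
        ∑ b, (if (s b).i = (s a).i then (s b).σ * af X (s b) (V ((s a).i, x')) else 0) := by
        rw [← Finset.sum_sub_distrib]
        refine Finset.sum_congr rfl fun b _ => ?_
        by_cases hb : (s b).i = (s a).i
        · rw [if_pos hb, if_pos hb, if_pos hb, hb]
          ring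
        · rw [if_neg hb, if_neg hb, if_neg hb, sub_zero]
      rw [h6, h3, h4, sub_zero]
    have h6 := (Finset.sum_eq_zero_iff_of_nonneg (fun b _ => by
      by_cases hb : (s b).i = (s a).i
      · rw [if_pos hb]
        have e1 := h1 b
        have e2 := h2 b
        nlinarith
      · rw [if_neg hb])).1 h5 a (Finset.mem_univ a)
    rw [if_pos rfl] at h6
    have hσ := (h.ok a).sz
    have e1 := h1 a
    have e2 := h2 a
    have e3 : (s a).σ * (af X (s a) (V ((s a).i, x)) - bf X (s a) (V ((s a).j, 0))) = 0 := by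
      nlinarith
    have e4 : (s a).σ * (af X (s a) (V ((s a).i, x')) - bf X (s a) (V ((s a).j, 0))) = 0 := by
      nlinarith
    exact ⟨sub_eq_zero.1 ((mul_eq_zero.1 e3).resolve_left hσ),
      sub_eq_zero.1 ((mul_eq_zero.1 e4).resolve_left hσ)⟩
  have c12 := squeeze 1 2 (fun a => by
      have h1 := hc a 1 0
      rw [y1, y0, zero_mul, sub_zero, one_mul] at h1
      exact sp _ _ _ (by have := hα a; linarith) h1) (fun a => by
      have h1 := hc a 2 0
      rw [y2, y0, zero_mul, sub_zero] at h1
      exact sn _ _ _ (by have := hα a; nlinarith) h1)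
  have c34 := squeeze 3 4 (fun a => by
      have h1 := hc a 3 0
      rw [y3, y0, zero_mul, sub_zero] at h1
      exact sp _ _ _ (by have := mul_pos hKpos (hα a); nlinarith) h1) (fun a => by
      have h1 := hc a 4 0
      rw [y4, y0, zero_mul, sub_zero] at h1
      exact sn _ _ _ (by have := mul_pos hKpos (hα a); nlinarith) h1)
  -- equality of two motions of the same chain
  have eqm : ∀ x x' : Fin 5, (∀ a, af X (s a) (V ((s a).i, x)) = af X (s a) (V ((s a).i, x'))) →
      ∀ p, V (p, x) = V (p, x') := by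
    intro x x' h1 p
    rw [← sub_eq_zero]
    refine h.det p _ (LP_sub _ _ _ (hV (p, x)) (hV (p, x'))) (fun a ha => ?_)
    rw [af_sub, sub_eq_zero]
    have := h1 a
    rw [ha] at this
    exact this
  have e12 := eqm 1 2 (fun a => by rw [(c12 a).1, (c12 a).2])
  have e13 := eqm 1 3 (fun a => by rw [(c12 a).1, (c34 a).1])
  have e14 := eqm 1 4 (fun a => by rw [(c12 a).1, (c34 a).2])
  -- the main equalities
  have hu : ∀ a, af X (s a) (V ((s a).i, 1)) = bf X (s a) (V ((s a).j, 1)) := by
    intro a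
    have h1 := hc a 3 1
    have h2 := hc a 4 1
    rw [y3, y1, one_mul, ← e13] at h1
    rw [y4, y1, one_mul, ← e14] at h2
    have h3 := sp _ _ _ (sgK1 a) h1
    have h4 := sn _ _ _ (sgK2 a) h2
    have h5 : (s a).σ * (af X (s a) (V ((s a).i, 1)) - bf X (s a) (V ((s a).j, 1))) = 0 :=
      le_antisymm h4 h3
    exact sub_eq_zero.1 ((mul_eq_zero.1 h5).resolve_left (h.ok a).sz)
  have h0 : ∀ a, af X (s a) (V ((s a).i, 0)) = bf X (s a) (V ((s a).j, 1)) := by
    intro a
    have h1 := hc a 0 1
    have h2 := hc a 0 2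
    rw [y0, y1, one_mul, zero_mul, zero_sub] at h1
    rw [y0, y2, zero_mul, zero_sub, ← e12] at h2
    have h5 : bf X (s a) (w (s a).j) * (af X (s a) (V ((s a).i, 0)) -
      bf X (s a) (V ((s a).j, 1))) = 0 := by linarith
    exact sub_eq_zero.1 ((mul_eq_zero.1 h5).resolve_left (hβ a))
  have e10 := eqm 1 0 (fun a => by rw [h0 a, hu a])
  obtain ⟨ω, τ, hωτ⟩ := h.rigid (fun p => V (p, 1)) (fun p => hV (p, 1)) hu
  refine ⟨ω, τ, ?_⟩
  rintro ⟨p, x⟩ k
  have hx : V (p, x) = V (p, 1) := by
    fin_cases x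
    · exact (e10 p).symm
    · rfl
    · exact (e12 p).symm
    · exact (e13 p).symm
    · exact (e14 p).symm
  rw [hx]
  exact hωτ p k

end Pool.Agent.H834R6.CC
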