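import Pool.Agent.H834R6.CC.Defs

/-! The continuity argument (task CONT). -/

set_option autoImplicit false
set_option maxHeartbeats 4000000

namespace Pool.Agent.H834R6.CC

open Pool.Agent.H282R2 Set Filter Topology

namespace Cont

theorem norm_cr_rot {a0 b0 a b : E3} (h0 : cr a0 b0 ≠ 0) (h : cr a b ≠ 0) (u v : E3) :
    ‖cr (rot a0 b0 a b u) (rot a0 b0 a b v)‖ = ‖cr u v‖ := by
  have h1 := norm_cr_sq (rot a0 b0 a b u) (rot a0 b0 a b v)
  rw [norm_rot h0 h, norm_rot h0 h, inner_rot h0 h, ← norm_cr_sq] at h1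
  exact (sq_eq_sq₀ (norm_nonneg _) (norm_nonneg _)).1 h1

theorem rot_first {a0 b0 a b : E3} (h : cr a b ≠ 0) :
    rot a0 b0 a b a = (‖a‖ * ‖a0‖⁻¹) • a0 := by
  have ha : ‖a‖ ≠ 0 := norm_ne_zero_iff.2 (ne_zero_of_cr h)
  have h1 : (inner ℝ (fr1 a b) a : ℝ) = ‖a‖ := by
    rw [fr1, inner_smul_left, RCLike.conj_to_real, real_inner_self_eq_norm_sq]
    field_simp
  have h2 : (inner ℝ (fr2 a b) a : ℝ) = 0 := by
    have : a = ‖a‖ • fr1 a b := by rw [fr1, smul_smul, mul_inv_cancel₀ ha, one_smul]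
    rw [this, inner_smul_right]
    have h21 : (inner ℝ (fr2 (‖a‖ • fr1 a b) b) (fr1 a b) : ℝ) = 0 := by
      rw [← this, real_inner_comm]; exact inner_cr_right _ _
    rw [h21, mul_zero]
  have h3 : (inner ℝ (fr3 a b) a : ℝ) = 0 := by
    rw [fr3, inner_smul_left, real_inner_comm, inner_cr_left]; simp
  rw [rot, h1, h2, h3, zero_smul, zero_smul, add_zero, add_zero, fr1, smul_smul]

/-- the segments of the rotated configuration meet only if the original ones do -/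
theorem seg {a0 b0 a b : E3} (h0 : cr a0 b0 ≠ 0) (h : cr a b ≠ 0) (c d p p' q q' : E3)
    (hd : Disjoint (segment ℝ p p') (segment ℝ q q')) :
    Disjoint (segment ℝ (rot a0 b0 a b (p - c) + d) (rot a0 b0 a b (p' - c) + d))
      (segment ℝ (rot a0 b0 a b (q - c) + d) (rot a0 b0 a b (q' - c) + d)) := by
  rw [Set.disjoint_left]
  intro z hz1 hz2
  rw [segment_eq_image'] at hz1 hz2
  obtain ⟨σ, hσ, e1⟩ := hz1
  obtain ⟨τ, hτ, e2⟩ := hz2
  have key : ∀ (u u' : E3) (s : ℝ), rot a0 b0 a b (u - c) + d +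
      s • (rot a0 b0 a b (u' - c) + d - (rot a0 b0 a b (u - c) + d)) =
      rot a0 b0 a b ((u + s • (u' - u)) - c) + d := by
    intro u u' s
    rw [add_sub_add_right_eq_sub, ← rot_sub, ← rot_smul, add_right_comm, ← rot_add]
    congr 2
    module
  have e3 : rot a0 b0 a b ((p + σ • (p' - p)) - c) = rot a0 b0 a b ((q + τ • (q' - q)) - c) := by
    have e5 := e1.trans e2.symm
    simp only [key] at e5
    exact add_right_cancel e5
  have e4 : p + σ • (p' - p) = q + τ • (q' - q) := by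
    have n1 := norm_rot h0 h (((p + σ • (p' - p)) - c) - ((q + τ • (q' - q)) - c))
    rw [rot_sub, e3, sub_self, norm_zero] at n1
    have n2 := norm_eq_zero.1 n1.symm
    have n3 := sub_eq_zero.1 n2
    exact sub_left_injective n3
  have m1 : p + σ • (p' - p) ∈ segment ℝ p p' := by
    rw [segment_eq_image']; exact ⟨σ, hσ, rfl⟩
  have m2 : p + σ • (p' - p) ∈ segment ℝ q q' := by
    rw [e4, segment_eq_image']; exact ⟨τ, hτ, rfl⟩
  exact Set.disjoint_left.1 hd m1 m2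

theorem not_sameRay {u v : E3} (h : cr u (u + v) ≠ 0) : ¬ SameRay ℝ u v := by
  rw [cr_add_2, cr_self, zero_add] at h
  intro hs
  rcases hs with h1 | h1 | ⟨r1, r2, h1, h2, h3⟩
  · apply h
    rw [h1]
    apply ext3 <;> simp
  · apply h
    rw [h1]
    apply ext3 <;> simp
  · apply h
    have e : cr u (r2 • v) = 0 := by rw [← h3, cr_smul_2, cr_self, smul_zero]
    rw [cr_smul_2] at e
    exact (smul_eq_zero.1 e).resolve_left h2.ne'

end Cont

/-- CONT: the continuity argument -/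
theorem cont_trap {ι S : Type} [Finite ι] [Finite S] (X Y : ι → T3) (s : S → Con ι) (i0 : ι)
    (ρ ρ' c0 : ℝ) (hρ : ρ' < ρ) (hc0 : 0 < c0)
    (hs : ∀ a, (s a).i ≠ (s a).j ∧ (s a).σ ≠ 0)
    (near : ∀ i k, ‖Y i k - X i k‖ ≤ ρ')
    (sgn : ∀ a, 0 < (s a).σ * cx Y (s a))
    (core : ∀ Z : ι → T3, (∀ i l, ‖lk (Z i) l‖ = ‖lk (Y i) l‖) → Z i0 1 = Y i0 1 →
      Z i0 2 = Y i0 2 → dt (Y i0 2 - Y i0 1) (Y i0 3 - Y i0 1) (Z i0 3 - Y i0 1) = 0 →
      (∀ i k, ‖Z i k - X i k‖ ≤ ρ) → (∀ a, 0 ≤ (s a).σ * cx Z (s a)) →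
      ∀ i k, ‖Z i k - X i k‖ ≤ ρ')
    (cross : ∀ Z : ι → T3, (∀ i k, ‖Z i k - X i k‖ ≤ ρ) → ∀ a, cx Z (s a) = 0 →
      ¬ Disjoint (sg (Z (s a).i) (s a).l) (sg (Z (s a).j) (s a).m))
    (base : ∀ Z : ι → T3, (∀ i k, ‖Z i k - X i k‖ ≤ ρ) →
      c0 ≤ ‖cr (Z i0 2 - Z i0 1) (Z i0 3 - Z i0 1)‖) : Trap Y := by
  intro γ hγ hγ0 hγL hγD
  obtain ⟨a0, ha0⟩ : ∃ a0 : E3, a0 = Y i0 2 - Y i0 1 := ⟨_, rfl⟩
  obtain ⟨b0, hb0⟩ : ∃ b0 : E3, b0 = Y i0 3 - Y i0 1 := ⟨_, rfl⟩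
  have h0 : cr a0 b0 ≠ 0 := by
    have h1 := base Y (fun i k => (near i k).trans hρ.le)
    rw [ha0, hb0]
    exact norm_pos_iff.1 (hc0.trans_le h1)
  have na0 : ‖a0‖ ≠ 0 := norm_ne_zero_iff.2 (ne_zero_of_cr h0)
  -- the motion on the unit interval
  obtain ⟨Q, hQdef⟩ : ∃ Q : unitInterval → ι → T3,
    Q = fun (t : unitInterval) (i : ι) (k : Fin 4) => γ (t : ℝ) i k := ⟨_, rfl⟩
  have hQt : ∀ (t : unitInterval) (i : ι) (k : Fin 4), Q t i k = γ t i k := fun t i k => by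
    rw [hQdef]
  have hQ' : ∀ t : unitInterval, Q t = γ t := fun t => funext fun i => funext fun k => hQt t i k
  have hQc : ∀ i k, Continuous fun t => Q t i k := by
    intro i k
    have h1 := continuousOn_iff_continuous_domRestrict.1 (hγ i k)
    rw [hQdef]
    exact h1
  have hQL : ∀ t i l, ‖lk (Q t i) l‖ = ‖lk (Y i) l‖ := fun t i l => by
    rw [hQ']; exact hγL t t.2 i l
  have hQD : ∀ t, ∀ i j, i ≠ j → ∀ l m, Disjoint (sg (Q t i) l) (sg (Q t j) m) := fun t => by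
    rw [hQ']; exact hγD t t.2
  have hQ0 : Q 0 = Y := by
    rw [hQ']; exact hγ0
  obtain ⟨va, hva⟩ : ∃ va : unitInterval → E3, va = fun t => Q t i0 2 - Q t i0 1 := ⟨_, rfl⟩
  obtain ⟨vb, hvb⟩ : ∃ vb : unitInterval → E3, vb = fun t => Q t i0 3 - Q t i0 1 := ⟨_, rfl⟩
  obtain ⟨x, hx⟩ : ∃ x : unitInterval → ι → T3,
    x = fun t i k => rot a0 b0 (va t) (vb t) (Q t i k - Q t i0 1) + Y i0 1 := ⟨_, rfl⟩
  have hxt : ∀ t i k, x t i k = rot a0 b0 (va t) (vb t) (Q t i k - Q t i0 1) + Y i0 1 :=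
    fun t i k => by rw [hx]
  have hxs : ∀ t i k j m, x t i k - x t j m = rot a0 b0 (va t) (vb t) (Q t i k - Q t j m) := by
    intro t i k j m
    rw [hxt, hxt, add_sub_add_right_eq_sub, ← rot_sub]
    congr 1
    abel
  have hxl : ∀ t i l, lk (x t i) l = rot a0 b0 (va t) (vb t) (lk (Q t i) l) := by
    intro t i l
    rw [lk, lk, hxs]
  have cva : Continuous va := by
    rw [hva]; exact (hQc _ _).sub (hQc _ _)
  have cvb : Continuous vb := by
    rw [hvb]; exact (hQc _ _).sub (hQc _ _)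
  have hcr : Continuous fun t => cr (va t) (vb t) := Continuous.cr cva cvb
  have nva : ∀ t, ‖va t‖ = ‖a0‖ := by
    intro t
    have h1 := hQL t i0 1
    rw [hva, ha0]
    exact h1
  -- facts about the normalised configuration
  have xa : ∀ t, x t i0 1 = Y i0 1 := fun t => by rw [hxt, sub_self, rot_zero, zero_add]
  have xb : ∀ t, cr (va t) (vb t) ≠ 0 → x t i0 2 = Y i0 2 := by
    intro t ht
    have e : Q t i0 2 - Q t i0 1 = va t := by rw [hva]
    rw [hxt, e, Cont.rot_first ht, nva, mul_inv_cancel₀ na0, one_smul, ha0, sub_add_cancel]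
  have xc : ∀ t, cr (va t) (vb t) ≠ 0 →
      dt (Y i0 2 - Y i0 1) (Y i0 3 - Y i0 1) (x t i0 3 - Y i0 1) = 0 := by
    intro t ht
    have e : Q t i0 3 - Q t i0 1 = vb t := by rw [hvb]
    rw [hxt, e, add_sub_cancel_right, ← ha0, ← hb0]
    exact dt_rot_gauge h0 ht
  have xL : ∀ t, cr (va t) (vb t) ≠ 0 → ∀ i l, ‖lk (x t i) l‖ = ‖lk (Y i) l‖ := by
    intro t ht i l
    rw [hxl, norm_rot h0 ht, hQL]
  have xV : ∀ t, cr (va t) (vb t) ≠ 0 → ∀ c, cx (x t) c = cx (Q t) c := by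
    intro t ht c
    rw [cx, cx, hxs, hxl, hxl, dt_rot h0 ht]
  -- a normalised configuration that is close and has the right signs is very close
  have key1 : ∀ t, cr (va t) (vb t) ≠ 0 → (∀ i k, ‖x t i k - X i k‖ ≤ ρ) →
      (∀ a, 0 ≤ (s a).σ * cx (Q t) (s a)) → ∀ i k, ‖x t i k - X i k‖ ≤ ρ' := by
    intro t ht hz hd
    refine core (x t) (xL t ht) (xa t) (xb t ht) (xc t ht) hz fun a => ?_
    rw [xV t ht]
    exact hd a
  have key2 : ∀ t, cr (va t) (vb t) ≠ 0 → (∀ i k, ‖x t i k - X i k‖ ≤ ρ) →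
      c0 ≤ ‖cr (va t) (vb t)‖ := by
    intro t ht hz
    have h1 := base (x t) hz
    rw [hxs, hxs, Cont.norm_cr_rot h0 ht] at h1
    rw [hva, hvb]
    exact h1
  have key3 : ∀ t, cr (va t) (vb t) ≠ 0 → (∀ i k, ‖x t i k - X i k‖ ≤ ρ) →
      ∀ a, (s a).σ * cx (Q t) (s a) ≠ 0 := by
    intro t ht hz a hk
    have hv := (mul_eq_zero.1 hk).resolve_left (hs a).2
    rw [← xV t ht] at hv
    refine cross (x t) hz a hv ?_
    have h1 := hQD t _ _ (hs a).1 (s a).l (s a).m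
    unfold sg at h1 ⊢
    rw [hxt, hxt, hxt, hxt]
    exact Cont.seg h0 ht _ _ _ _ _ _ h1
  -- continuity
  have hxc : ∀ t, cr (va t) (vb t) ≠ 0 → ∀ i k, ContinuousAt (fun t => x t i k) t := by
    intro t ht i k
    have hu : Continuous fun t => Q t i k - Q t i0 1 := (hQc i k).sub (hQc i0 1)
    have c1 := continuousAt_comp_rot a0 b0 cva.continuousAt cvb.continuousAt hu.continuousAt ht
    rw [hx]
    exact c1.add (continuousAt_const (y := Y i0 1))
  have hdk : ∀ a, Continuous fun t => (s a).σ * cx (Q t) (s a) := by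
    intro a
    unfold cx lk
    exact continuous_const.mul (Continuous.dt ((hQc _ _).sub (hQc _ _))
      ((hQc _ _).sub (hQc _ _)) ((hQc _ _).sub (hQc _ _)))
  obtain ⟨W, hW⟩ : ∃ W : Set unitInterval, W = {t | c0 ≤ ‖cr (va t) (vb t)‖ ∧
    (∀ i k, ‖x t i k - X i k‖ ≤ ρ') ∧
    ∀ a, 0 < (s a).σ * cx (Q t) (s a)} := ⟨_, rfl⟩
  have hne : ∀ t, c0 ≤ ‖cr (va t) (vb t)‖ → cr (va t) (vb t) ≠ 0 :=
    fun t ht => norm_pos_iff.1 (hc0.trans_le ht)
  have hclosed : IsClosed W := by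
    have hF : IsClosed {t | c0 ≤ ‖cr (va t) (vb t)‖} := isClosed_le continuous_const hcr.norm
    have hG : ∀ q : ι × Fin 4, IsClosed ({t | c0 ≤ ‖cr (va t) (vb t)‖} ∩
        (fun t => ‖x t q.1 q.2 - X q.1 q.2‖) ⁻¹' Set.Iic ρ') := by
      intro q
      refine ContinuousOn.preimage_isClosed_of_isClosed ?_ hF isClosed_Iic
      intro t ht
      exact ((hxc t (hne t ht) q.1 q.2).sub
        (continuousAt_const (y := X q.1 q.2))).norm.continuousWithinAt
    have hG' : IsClosed (⋂ q : ι × Fin 4, ({t | c0 ≤ ‖cr (va t) (vb t)‖} ∩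
        (fun t => ‖x t q.1 q.2 - X q.1 q.2‖) ⁻¹' Set.Iic ρ')) :=
      isClosed_iInter fun q => hG q
    have hH : IsClosed (⋂ a : S, {t | 0 ≤ (s a).σ * cx (Q t) (s a)}) :=
      isClosed_iInter fun a => isClosed_le continuous_const (hdk a)
    have : W = (⋂ q : ι × Fin 4, ({t | c0 ≤ ‖cr (va t) (vb t)‖} ∩
        (fun t => ‖x t q.1 q.2 - X q.1 q.2‖) ⁻¹' Set.Iic ρ')) ∩
        (⋂ a : S, {t | 0 ≤ (s a).σ * cx (Q t) (s a)}) := by
      ext t
      rw [hW]
      constructor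
      · rintro ⟨a1, a2, a3⟩
        refine ⟨?_, ?_⟩
        · rw [Set.mem_iInter]
          intro q
          exact ⟨a1, a2 q.1 q.2⟩
        · rw [Set.mem_iInter]
          intro a
          exact (a3 a).le
      · rintro ⟨a2, a3⟩
        rw [Set.mem_iInter] at a2 a3
        have a1 : c0 ≤ ‖cr (va t) (vb t)‖ := (a2 (i0, 0)).1
        have a2' : ∀ i k, ‖x t i k - X i k‖ ≤ ρ' := fun i k => (a2 (i, k)).2
        refine ⟨a1, a2', fun a => lt_of_le_of_ne (a3 a) (Ne.symm ?_)⟩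
        exact key3 t (hne t a1) (fun i k => (a2' i k).trans hρ.le) a
    rw [this]
    exact hG'.inter hH
  have hopen : IsOpen W := by
    rw [isOpen_iff_mem_nhds]
    intro t ht
    rw [hW] at ht
    obtain ⟨a1, a2, a3⟩ := ht
    have b1 : ∀ᶠ r in 𝓝 t, cr (va r) (vb r) ≠ 0 :=
      hcr.continuousAt.eventually_ne (hne t a1)
    have b2 : ∀ᶠ r in 𝓝 t, ∀ q : ι × Fin 4, ‖x r q.1 q.2 - X q.1 q.2‖ < ρ := by
      rw [eventually_all]
      intro q
      have c1 := ((hxc t (hne t a1) q.1 q.2).sub (continuousAt_const (y := X q.1 q.2))).norm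
      exact c1.eventually_lt_const ((a2 q.1 q.2).trans_lt hρ)
    have b3 : ∀ᶠ r in 𝓝 t, ∀ a, 0 < (s a).σ * cx (Q r) (s a) := by
      rw [eventually_all]
      intro a
      exact (hdk a).continuousAt.eventually_const_lt (a3 a)
    filter_upwards [b1, b2, b3] with r c1 c2 c3
    have c2' : ∀ i k, ‖x r i k - X i k‖ ≤ ρ := fun i k => (c2 (i, k)).le
    rw [hW]
    exact ⟨key2 r c1 c2', key1 r c1 c2' (fun a => (c3 a).le), c3⟩
  have h0W : (0 : unitInterval) ∈ W := by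
    rw [hW]
    have e1 : va 0 = a0 := by
      rw [hva, ha0]
      simp only
      rw [hQ0]
    have e2 : vb 0 = b0 := by
      rw [hvb, hb0]
      simp only
      rw [hQ0]
    have hb : cr (va 0) (vb 0) ≠ 0 := by rw [e1, e2]; exact h0
    have e3 : ∀ i k, x 0 i k = Y i k := by
      intro i k
      rw [hxt, e1, e2, rot_self h0, hQ0, sub_add_cancel]
    have e4 : ∀ i k, ‖x 0 i k - X i k‖ ≤ ρ' := fun i k => by rw [e3 i k]; exact near i k
    refine ⟨key2 0 hb (fun i k => (e4 i k).trans hρ.le), e4, fun a => ?_⟩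
    rw [hQ0]
    exact sgn a
  have huniv : W = Set.univ := IsClopen.eq_univ ⟨hclosed, hopen⟩ ⟨0, h0W⟩
  have h1 : (1 : unitInterval) ∈ W := by rw [huniv]; exact Set.mem_univ _
  rw [hW] at h1
  have hn := hne _ h1.1
  refine ⟨i0, ?_⟩
  have e1 : va 1 = lk (γ 1 i0) 1 := by
    rw [hva, lk]
    simp only
    rw [hQt, hQt]
    rfl
  have e2 : vb 1 = lk (γ 1 i0) 1 + lk (γ 1 i0) 2 := by
    rw [hvb, lk, lk]
    simp only
    rw [hQt, hQt]
    have f1 : (2 : Fin 3).succ = 3 := rfl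
    have f2 : (2 : Fin 3).castSucc = 2 := rfl
    have f3 : (1 : Fin 3).succ = 2 := rfl
    have f4 : (1 : Fin 3).castSucc = 1 := rfl
    have f5 : ((1 : unitInterval) : ℝ) = 1 := rfl
    rw [f1, f2, f3, f4, f5]
    abel
  rw [e1, e2] at hn
  exact Cont.not_sameRay hn

end Pool.Agent.H834R6.CC
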