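import Pool.Agent.H834R6.CC.Defs

/-!
Cutting chains: the compactness argument for the core (CORE).
-/

set_option autoImplicit false
set_option maxHeartbeats 4000000

namespace Pool.Agent.H834R6.CC

open Pool.Agent.H282R2 Set Filter Topology

namespace Core

theorem dt_diff (a b c a' b' c' : E3) :
    dt a b c - dt a' b' c' = dt (a - a') b c + dt a' (b - b') c + dt a' b' (c - c') := by
  simp [dt]; ring

theorem lk_sub (A B : T3) (l : Fin 3) : lk (A - B) l = lk A l - lk B l := by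
  simp only [lk, Pi.sub_apply]; abel

theorem lk_smul (r : ℝ) (A : T3) (l : Fin 3) : lk (r • A) l = r • lk A l := by
  simp only [lk, Pi.smul_apply, smul_sub]

variable {ι S : Type}

/-- the polarised derivative of `cx` -/
noncomputable def g (P Q U : ι → T3) (c : Con ι) : ℝ :=
  dt (lk (U c.i) c.l) (lk (P c.j) c.m) (P c.i c.l.castSucc - P c.j c.m.castSucc) +
  dt (lk (Q c.i) c.l) (lk (U c.j) c.m) (P c.i c.l.castSucc - P c.j c.m.castSucc) +
  dt (lk (Q c.i) c.l) (lk (Q c.j) c.m) (U c.i c.l.castSucc - U c.j c.m.castSucc)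

theorem cx_sub (P Q : ι → T3) (c : Con ι) : cx P c - cx Q c = g P Q (P - Q) c := by
  unfold cx g
  rw [dt_diff]
  simp only [Pi.sub_apply, lk_sub]
  congr 2
  abel

theorem g_smul (r : ℝ) (P Q U : ι → T3) (c : Con ι) : g P Q (r • U) c = r * g P Q U c := by
  unfold g
  simp only [Pi.smul_apply, lk_smul, dt_smul_1, dt_smul_2, ← smul_sub, dt_smul_3]
  ring

theorem g_zero (P Q : ι → T3) (c : Con ι) : g P Q 0 c = 0 := by
  have := g_smul 0 P Q 0 c
  simpa using this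

theorem continuous_g [Fintype ι] (c : Con ι) :
    Continuous fun p : (ι → T3) × (ι → T3) × (ι → T3) => g p.1 p.2.1 p.2.2 c := by
  unfold g lk dt
  fun_prop

theorem touch_sub (X : ι → T3) (c : Con ι) (hc : c.Ok X) :
    X c.i c.l.castSucc - X c.j c.m.castSucc = c.θ' • lk (X c.j) c.m - c.θ • lk (X c.i) c.l := by
  have h := hc.touch
  unfold ptOn at h
  unfold lk
  have : X c.i c.l.castSucc - X c.j c.m.castSucc =
      ((1 - c.θ) • X c.i c.l.castSucc + c.θ • X c.i c.l.succ) -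
      ((1 - c.θ') • X c.j c.m.castSucc + c.θ' • X c.j c.m.succ) +
      (c.θ' • (X c.j c.m.succ - X c.j c.m.castSucc) -
        c.θ • (X c.i c.l.succ - X c.i c.l.castSucc)) := by
    module
  rw [this, h]
  simp

theorem cx_zero (X : ι → T3) (c : Con ι) (hc : c.Ok X) : cx X c = 0 := by
  unfold cx
  rw [touch_sub X c hc]
  simp [dt]; ring

theorem g_self (X V : ι → T3) (c : Con ι) (hc : c.Ok X) :
    g X X V c = af X c (V c.i) - bf X c (V c.j) := by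
  unfold g af bf
  rw [touch_sub X c hc]
  unfold nv ptOn
  simp only [inner3, lk, dt]
  simp
  ring

attribute [local irreducible] g

theorem g_tendsto [Fintype ι] (c : Con ι) {P Q U : ℕ → ι → T3} {p q u : ι → T3}
    (hP : Tendsto P atTop (𝓝 p)) (hQ : Tendsto Q atTop (𝓝 q)) (hU : Tendsto U atTop (𝓝 u)) :
    Tendsto (fun n => g (P n) (Q n) (U n) c) atTop (𝓝 (g p q u c)) := by
  have h1 := (continuous_g c).tendsto (p, q, u)
  have h2 := hP.prodMk_nhds (hQ.prodMk_nhds hU)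
  have h3 := h1.comp h2
  simp only [Function.comp_def] at h3
  exact h3

/-- a rotation that fixes `a` and moves `b` within the plane of `a, b` is trivial -/
theorem gauge (ω τ x1 x2 x3 : E3) (h1 : cr ω x1 + τ = 0) (h2 : cr ω x2 + τ = 0)
    (h3 : dt (x2 - x1) (x3 - x1) (cr ω x3 + τ) = 0) (hd : cr (x2 - x1) (x3 - x1) ≠ 0) :
    ω = 0 ∧ τ = 0 := by
  have ha : x2 - x1 ≠ 0 := ne_zero_of_cr hd
  set a := x2 - x1 with hadef
  set b := x3 - x1 with hbdef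
  have hωa : cr ω a = 0 := by
    have : cr ω a = (cr ω x2 + τ) - (cr ω x1 + τ) := by
      rw [hadef]; apply ext3 <;> simp <;> ring
    rw [this, h1, h2]; simp
  have hωb : cr ω x3 + τ = cr ω b := by
    have : cr ω x3 + τ = (cr ω x1 + τ) + cr ω b := by
      rw [hbdef]; apply ext3 <;> simp <;> ring
    rw [this, h1]; simp
  have hna : ‖a‖ ^ 2 ≠ 0 := by
    have : ‖a‖ ≠ 0 := norm_ne_zero_iff.2 ha
    positivity
  have hω : ω = ((inner ℝ a ω : ℝ) / ‖a‖ ^ 2) • a := by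
    have h5 : ‖a‖ ^ 2 • ω = (inner ℝ a ω : ℝ) • a + cr a (cr ω a) := by
      rw [norm_sq3, inner3]
      apply ext3 <;> simp <;> ring
    rw [hωa] at h5
    have h6 : cr a 0 = 0 := by apply ext3 <;> simp
    rw [h6, add_zero] at h5
    rw [div_eq_inv_mul, mul_smul, ← h5, smul_smul, inv_mul_cancel₀ hna, one_smul]
  set r := (inner ℝ a ω : ℝ) / ‖a‖ ^ 2 with hr
  have h7 : dt a b (cr ω b) = r * ‖cr a b‖ ^ 2 := by
    have h9 : cr ω b = r • cr a b := by rw [hω, cr_smul_1]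
    rw [h9, dt_smul_3, norm_sq3]
    unfold dt
    simp only [cr_zero, cr_one, cr_two]
    ring
  rw [hωb, h7] at h3
  have h8 : ‖cr a b‖ ^ 2 ≠ 0 := by
    have : ‖cr a b‖ ≠ 0 := norm_ne_zero_iff.2 hd
    positivity
  have hr0 : r = 0 := by
    rcases mul_eq_zero.1 h3 with h | h
    · exact h
    · exact absurd h h8
  have hω0 : ω = 0 := by rw [hω, hr0, zero_smul]
  refine ⟨hω0, ?_⟩
  rw [hω0] at h1
  have : cr 0 x1 = 0 := by apply ext3 <;> simp
  rw [this, zero_add] at h1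
  exact h1

theorem limit_zero [Fintype ι] (X : ι → T3) (s : S → Con ι) (i0 : ι)
    (hs : ∀ a, (s a).Ok X) (hdeg : cr (X i0 2 - X i0 1) (X i0 3 - X i0 1) ≠ 0)
    (rigid : ∀ V : ι → T3, (∀ i, LP (X i) (V i)) →
      (∀ a, 0 ≤ (s a).σ * (af X (s a) (V (s a).i) - bf X (s a) (V (s a).j))) →
      ∃ ω τ : E3, ∀ i k, V i k = cr ω (X i k) + τ)
    (Y Z : ℕ → ι → T3) (t : ℕ → ℝ) (ht : ∀ n, 0 < t n) (hY : Tendsto Y atTop (𝓝 X))
    (hZ : Tendsto Z atTop (𝓝 X)) (V : ι → T3)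
    (hV : Tendsto (fun n => (t n)⁻¹ • (Z n - Y n)) atTop (𝓝 V))
    (hU : Tendsto (fun n => (t n)⁻¹ • (Y n - X)) atTop (𝓝 0))
    (c1 : ∀ n i l, ‖lk (Z n i) l‖ = ‖lk (Y n i) l‖) (c2 : ∀ n, Z n i0 1 = Y n i0 1)
    (c3 : ∀ n, Z n i0 2 = Y n i0 2)
    (c4 : ∀ n, dt (Y n i0 2 - Y n i0 1) (Y n i0 3 - Y n i0 1) (Z n i0 3 - Y n i0 1) = 0)
    (c5 : ∀ n a, 0 ≤ (s a).σ * cx (Z n) (s a)) : V = 0 := by
  have hev : ∀ {F : (ι → T3) × (ι → T3) × (ι → T3) → ℝ}, Continuous F →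
      Tendsto (fun n => F (Z n, Y n, (t n)⁻¹ • (Z n - Y n))) atTop (𝓝 (F (X, X, V))) := by
    intro F hF
    exact (hF.tendsto (X, X, V)).comp (hZ.prodMk_nhds (hY.prodMk_nhds hV))
  -- lengths
  have hLP : ∀ i, LP (X i) (V i) := by
    intro i l
    have hF : Continuous fun p : (ι → T3) × (ι → T3) × (ι → T3) =>
        (inner ℝ (lk (p.1 i) l + lk (p.2.1 i) l) (lk (p.2.2 i) l) : ℝ) := by
      unfold lk
      fun_prop
    have h1 := hev hF
    have h2 : (fun n => (fun p : (ι → T3) × (ι → T3) × (ι → T3) =>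
        (inner ℝ (lk (p.1 i) l + lk (p.2.1 i) l) (lk (p.2.2 i) l) : ℝ))
          (Z n, Y n, (t n)⁻¹ • (Z n - Y n))) = fun _ => (0 : ℝ) := by
      funext n
      have h3 : lk (((t n)⁻¹ • (Z n - Y n)) i) l = (t n)⁻¹ • (lk (Z n i) l - lk (Y n i) l) := by
        rw [Pi.smul_apply, lk_smul, Pi.sub_apply, lk_sub]
      show (inner ℝ (lk (Z n i) l + lk (Y n i) l) (lk (((t n)⁻¹ • (Z n - Y n)) i) l) : ℝ) = 0
      rw [h3, inner_smul_right]
      have h4 : (inner ℝ (lk (Z n i) l + lk (Y n i) l) (lk (Z n i) l - lk (Y n i) l) : ℝ) = 0 := by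
        rw [real_inner_add_sub_eq_zero_iff]
        exact c1 n i l
      rw [h4, mul_zero]
    rw [h2] at h1
    have h5 := tendsto_nhds_unique h1 tendsto_const_nhds
    have h6 : (inner ℝ (lk (X i) l + lk (X i) l) (lk (V i) l) : ℝ) = 0 := h5
    rw [inner_add_left] at h6
    linarith
  -- contacts
  have hC : ∀ a, 0 ≤ (s a).σ * (af X (s a) (V (s a).i) - bf X (s a) (V (s a).j)) := by
    intro a
    have h1 : Tendsto (fun n => g (Z n) (Y n) ((t n)⁻¹ • (Z n - Y n)) (s a)) atTop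
        (𝓝 (g X X V (s a))) := g_tendsto (s a) hZ hY hV
    have h2 : Tendsto (fun n => g (Y n) X ((t n)⁻¹ • (Y n - X)) (s a)) atTop
        (𝓝 (g X X 0 (s a))) := g_tendsto (s a) hY tendsto_const_nhds hU
    have h3 : Tendsto (fun n => (t n)⁻¹ * cx (Z n) (s a)) atTop
        (𝓝 (af X (s a) (V (s a).i) - bf X (s a) (V (s a).j))) := by
      have h4 := h1.add h2
      rw [g_zero, add_zero, g_self X V (s a) (hs a)] at h4
      refine h4.congr (fun n => ?_)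
      rw [g_smul, g_smul, ← cx_sub, ← cx_sub, cx_zero X (s a) (hs a)]
      ring
    have h5 := h3.const_mul (s a).σ
    refine ge_of_tendsto h5 (Eventually.of_forall (fun n => ?_))
    have h6 : (s a).σ * ((t n)⁻¹ * cx (Z n) (s a)) = (t n)⁻¹ * ((s a).σ * cx (Z n) (s a)) := by
      ring
    rw [h6]
    exact mul_nonneg (inv_nonneg.2 (ht n).le) (c5 n a)
  obtain ⟨ω, τ, hωτ⟩ := rigid V hLP hC
  -- gauge
  have hV1 : V i0 1 = 0 := by
    have h1 : Tendsto (fun n => ((t n)⁻¹ • (Z n - Y n)) i0 1) atTop (𝓝 (V i0 1)) :=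
      (continuous_apply_apply i0 (1 : Fin 4)).continuousAt.tendsto.comp hV
    have h2 : (fun n => ((t n)⁻¹ • (Z n - Y n)) i0 1) = fun _ => (0 : E3) := by
      funext n
      simp [c2 n]
    rw [h2] at h1
    exact tendsto_nhds_unique h1 tendsto_const_nhds
  have hV2 : V i0 2 = 0 := by
    have h1 : Tendsto (fun n => ((t n)⁻¹ • (Z n - Y n)) i0 2) atTop (𝓝 (V i0 2)) :=
      (continuous_apply_apply i0 (2 : Fin 4)).continuousAt.tendsto.comp hV
    have h2 : (fun n => ((t n)⁻¹ • (Z n - Y n)) i0 2) = fun _ => (0 : E3) := by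
      funext n
      simp [c3 n]
    rw [h2] at h1
    exact tendsto_nhds_unique h1 tendsto_const_nhds
  have hV3 : dt (X i0 2 - X i0 1) (X i0 3 - X i0 1) (V i0 3) = 0 := by
    have hF : Continuous fun p : (ι → T3) × (ι → T3) × (ι → T3) =>
        dt (p.2.1 i0 2 - p.2.1 i0 1) (p.2.1 i0 3 - p.2.1 i0 1) (p.2.2 i0 3) := by
      unfold dt
      fun_prop
    have h1 := hev hF
    have h2 : (fun n => (fun p : (ι → T3) × (ι → T3) × (ι → T3) =>
        dt (p.2.1 i0 2 - p.2.1 i0 1) (p.2.1 i0 3 - p.2.1 i0 1) (p.2.2 i0 3))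
          (Z n, Y n, (t n)⁻¹ • (Z n - Y n))) = fun _ => (0 : ℝ) := by
      funext n
      show dt (Y n i0 2 - Y n i0 1) (Y n i0 3 - Y n i0 1) (((t n)⁻¹ • (Z n - Y n)) i0 3) = 0
      have h3 : ((t n)⁻¹ • (Z n - Y n)) i0 3 = (t n)⁻¹ • (Z n i0 3 - Y n i0 3) := rfl
      have h4 : Z n i0 3 - Y n i0 3 = (Z n i0 3 - Y n i0 1) - (Y n i0 3 - Y n i0 1) := by abel
      rw [h3, dt_smul_3, h4, dt_sub_3, c4 n, dt_self_23]
      simp
    rw [h2] at h1
    exact tendsto_nhds_unique h1 tendsto_const_nhds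
  have hg := gauge ω τ (X i0 1) (X i0 2) (X i0 3) (by rw [← hωτ, hV1]) (by rw [← hωτ, hV2])
    (by rw [← hωτ]; exact hV3) hdeg
  funext i k
  rw [hωτ i k, hg.1, hg.2]
  have : cr 0 (X i k) = 0 := by apply ext3 <;> simp
  rw [this]
  simp

end Core

/-- CORE -/
theorem core_near {ι S : Type} [Finite ι] [Finite S] (X : ι → T3) (s : S → Con ι) (i0 : ι)
    (hs : ∀ a, (s a).Ok X) (hdeg : cr (X i0 2 - X i0 1) (X i0 3 - X i0 1) ≠ 0)
    (rigid : ∀ V : ι → T3, (∀ i, LP (X i) (V i)) →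
      (∀ a, 0 ≤ (s a).σ * (af X (s a) (V (s a).i) - bf X (s a) (V (s a).j))) →
      ∃ ω τ : E3, ∀ i k, V i k = cr ω (X i k) + τ) :
    ∃ ρ0 > 0, ∀ ρ, 0 < ρ → ρ ≤ ρ0 → ∃ δ > 0, ∀ Y : ι → T3, (∀ i k, ‖Y i k - X i k‖ ≤ δ) →
      ∀ Z : ι → T3, (∀ i l, ‖lk (Z i) l‖ = ‖lk (Y i) l‖) → Z i0 1 = Y i0 1 → Z i0 2 = Y i0 2 →
      dt (Y i0 2 - Y i0 1) (Y i0 3 - Y i0 1) (Z i0 3 - Y i0 1) = 0 →
      (∀ i k, ‖Z i k - X i k‖ ≤ ρ) → (∀ a, 0 ≤ (s a).σ * cx Z (s a)) →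
      ∀ i k, ‖Z i k - X i k‖ ≤ ρ / 2 := by
  classical
  have : Fintype ι := Fintype.ofFinite ι
  -- the key claim
  have key : ∃ m : ℕ, ∀ Y Z : ι → T3, ‖Y - X‖ ≤ 1 / ((m : ℝ) + 1) → ‖Z - X‖ ≤ 1 / ((m : ℝ) + 1) →
      (∀ i l, ‖lk (Z i) l‖ = ‖lk (Y i) l‖) → Z i0 1 = Y i0 1 → Z i0 2 = Y i0 2 →
      dt (Y i0 2 - Y i0 1) (Y i0 3 - Y i0 1) (Z i0 3 - Y i0 1) = 0 →
      (∀ a, 0 ≤ (s a).σ * cx Z (s a)) → ‖Z - Y‖ ≤ ((m : ℝ) + 1) * ‖Y - X‖ := by
    by_contra hcon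
    push Not at hcon
    choose Y Z hY hZ c1 c2 c3 c4 c5 hlt using hcon
    have hone : Tendsto (fun m : ℕ => 1 / ((m : ℝ) + 1)) atTop (𝓝 0) :=
      tendsto_one_div_add_atTop_nhds_zero_nat
    have hYt : Tendsto Y atTop (𝓝 X) := by
      rw [tendsto_iff_norm_sub_tendsto_zero]
      exact squeeze_zero (fun n => norm_nonneg _) hY hone
    have hZt : Tendsto Z atTop (𝓝 X) := by
      rw [tendsto_iff_norm_sub_tendsto_zero]
      exact squeeze_zero (fun n => norm_nonneg _) hZ hone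
    set t : ℕ → ℝ := fun n => ‖Z n - Y n‖ with htdef
    have ht : ∀ n, 0 < t n := by
      intro n
      have : 0 ≤ ((n : ℝ) + 1) * ‖Y n - X‖ := by positivity
      exact lt_of_le_of_lt this (hlt n)
    have hUt : Tendsto (fun n => (t n)⁻¹ • (Y n - X)) atTop (𝓝 0) := by
      rw [tendsto_zero_iff_norm_tendsto_zero]
      refine squeeze_zero (fun n => norm_nonneg _) (fun n => ?_) hone
      rw [norm_smul, norm_inv, Real.norm_of_nonneg (ht n).le]
      have h1 : (0 : ℝ) < (n : ℝ) + 1 := by positivity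
      rw [inv_mul_le_iff₀ (ht n), mul_one_div, le_div_iff₀ h1]
      have := hlt n
      rw [mul_comm] at this
      exact this.le
    have hsph : ∀ n, (t n)⁻¹ • (Z n - Y n) ∈ Metric.sphere (0 : ι → T3) 1 := by
      intro n
      rw [mem_sphere_zero_iff_norm, norm_smul, norm_inv, Real.norm_of_nonneg (ht n).le]
      exact inv_mul_cancel₀ (ht n).ne'
    obtain ⟨V, hVs, φ, hφ, hVt⟩ := (isCompact_sphere (0 : ι → T3) 1).tendsto_subseq hsph
    have hV0 : V = 0 := by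
      refine Core.limit_zero X s i0 hs hdeg rigid (Y ∘ φ) (Z ∘ φ) (t ∘ φ) (fun n => ht _)
        (hYt.comp hφ.tendsto_atTop) (hZt.comp hφ.tendsto_atTop) V hVt
        (hUt.comp hφ.tendsto_atTop) (fun n => c1 _) (fun n => c2 _) (fun n => c3 _)
        (fun n => c4 _) (fun n => c5 _)
    rw [hV0, mem_sphere_zero_iff_norm, norm_zero] at hVs
    exact zero_ne_one hVs
  obtain ⟨m, hm⟩ := key
  have hm1 : (0 : ℝ) < (m : ℝ) + 1 := by positivity
  have conv : ∀ (W : ι → T3) (r : ℝ), 0 ≤ r → ((∀ i k, ‖W i k - X i k‖ ≤ r) ↔ ‖W - X‖ ≤ r) := by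
    intro W r hr
    constructor
    · intro h
      rw [pi_norm_le_iff_of_nonneg hr]
      intro i
      rw [pi_norm_le_iff_of_nonneg hr]
      intro k
      exact h i k
    · intro h i k
      exact le_trans (norm_le_pi_norm ((W - X) i) k) (le_trans (norm_le_pi_norm (W - X) i) h)
  refine ⟨1 / ((m : ℝ) + 1), by positivity, ?_⟩
  intro ρ hρ hρ0
  refine ⟨min (1 / ((m : ℝ) + 1)) (ρ / (2 * ((m : ℝ) + 2))), by positivity, ?_⟩
  intro Y hY Z c1 c2 c3 c4 hZ c5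
  have hY' : ‖Y - X‖ ≤ min (1 / ((m : ℝ) + 1)) (ρ / (2 * ((m : ℝ) + 2))) :=
    (conv Y _ (by positivity)).1 hY
  have hZ' : ‖Z - X‖ ≤ ρ := (conv Z _ hρ.le).1 hZ
  have h1 := hm Y Z (hY'.trans (min_le_left _ _)) (hZ'.trans hρ0) c1 c2 c3 c4 c5
  have h2 : ‖Z - X‖ ≤ ‖Z - Y‖ + ‖Y - X‖ := by
    have : Z - X = (Z - Y) + (Y - X) := by abel
    rw [this]
    exact norm_add_le _ _
  have h3 : ‖Y - X‖ ≤ ρ / (2 * ((m : ℝ) + 2)) := hY'.trans (min_le_right _ _)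
  have h4 : ‖Z - X‖ ≤ ρ / 2 := by
    have h5 : ‖Z - X‖ ≤ ((m : ℝ) + 2) * ‖Y - X‖ := by linarith
    have h6 : ((m : ℝ) + 2) * ‖Y - X‖ ≤ ((m : ℝ) + 2) * (ρ / (2 * ((m : ℝ) + 2))) := by gcongr
    have h7 : ((m : ℝ) + 2) * (ρ / (2 * ((m : ℝ) + 2))) = ρ / 2 := by
      field_simp
    linarith
  exact (conv Z _ (by positivity)).2 h4

end Pool.Agent.H834R6.CC
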