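import Pool.Agent.H834R6.CC.Defs

set_option autoImplicit false

namespace Pool.Agent.H834R6.CC

namespace Count

theorem pair_inj {r β j β' j' : ℕ} (hj : j < r) (hj' : j' < r) (h : r * β + j = r * β' + j') :
    β = β' ∧ j = j' := by
  have h1 : (r * β + j) / r = β := by
    rw [Nat.mul_add_div (by omega), Nat.div_eq_of_lt hj, add_zero]
  have h2 : (r * β' + j') / r = β' := by
    rw [Nat.mul_add_div (by omega), Nat.div_eq_of_lt hj', add_zero]
  have h3 : β = β' := by rw [← h1, h, h2]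
  subst h3
  exact ⟨rfl, by omega⟩

/-- few elements have a given residue -/
theorem res (m M a : ℕ) (S : Finset ℕ) (hS : S ⊆ Finset.range m) :
    (S.filter (fun x => x % M = a)).card ≤ m / M + 1 := by
  rw [← Finset.card_range (m / M + 1)]
  refine Finset.card_le_card_of_injOn (fun x => x / M) ?_ ?_
  · intro x hx
    have h1 := (Finset.mem_filter.1 hx).1
    have h2 := Finset.mem_range.1 (hS h1)
    simp only [Finset.coe_range, Set.mem_Iio]
    exact Nat.lt_succ_of_le (Nat.div_le_div_right h2.le)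
  · intro x hx y hy hxy
    have h1 := (Finset.mem_filter.1 hx).2
    have h2 := (Finset.mem_filter.1 hy).2
    simp only at hxy
    rw [← Nat.div_add_mod x M, ← Nat.div_add_mod y M, hxy, h1, h2]

theorem surv (m r : ℕ) (C : Finset ℕ) (hr : 4 ≤ r) :
    m * (r - 3) ≤ ∑ j ∈ Finset.range (r - 3), ((Finset.range m).filter
      (fun β => r * β + j + 1 ∉ C ∧ r * β + j + 2 ∉ C)).card + 2 * C.card := by
  classical
  set P : Finset (ℕ × ℕ) := Finset.range m ×ˢ Finset.range (r - 3) with hP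
  have h1 : P.card = m * (r - 3) := by
    rw [hP, Finset.card_product, Finset.card_range, Finset.card_range]
  have h2 : (P.filter (fun p => r * p.1 + p.2 + 1 ∉ C ∧ r * p.1 + p.2 + 2 ∉ C)).card =
      ∑ j ∈ Finset.range (r - 3), ((Finset.range m).filter
      (fun β => r * β + j + 1 ∉ C ∧ r * β + j + 2 ∉ C)).card := by
    simp only [Finset.card_filter]
    rw [hP, Finset.sum_product_right]
  have h3 : ∀ c : ℕ, (P.filter (fun p => r * p.1 + p.2 + c ∈ C)).card ≤ C.card := by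
    intro c
    refine Finset.card_le_card_of_injOn (fun p => r * p.1 + p.2 + c) ?_ ?_
    · intro p hp
      exact (Finset.mem_filter.1 hp).2
    · rintro ⟨β, j⟩ hp ⟨β', j'⟩ hp' h
      have h4 := (Finset.mem_filter.1 hp).1
      have h5 := (Finset.mem_filter.1 hp').1
      simp only [hP, Finset.mem_product, Finset.mem_range] at h4 h5
      simp only at h
      have h6 := pair_inj (r := r) (β := β) (j := j) (β' := β') (j' := j') (by omega) (by omega)
        (by omega)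
      rw [h6.1, h6.2]
  have h4 : P ⊆ (P.filter (fun p => r * p.1 + p.2 + 1 ∉ C ∧ r * p.1 + p.2 + 2 ∉ C)) ∪
      ((P.filter (fun p => r * p.1 + p.2 + 1 ∈ C)) ∪ (P.filter (fun p => r * p.1 + p.2 + 2 ∈ C))) := by
    intro p hp
    simp only [Finset.mem_union, Finset.mem_filter]
    tauto
  have h5 := Finset.card_le_card h4
  have h6 := Finset.card_union_le (P.filter (fun p => r * p.1 + p.2 + 1 ∉ C ∧ r * p.1 + p.2 + 2 ∉ C))
    ((P.filter (fun p => r * p.1 + p.2 + 1 ∈ C)) ∪ (P.filter (fun p => r * p.1 + p.2 + 2 ∈ C)))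
  have h7 := Finset.card_union_le (P.filter (fun p => r * p.1 + p.2 + 1 ∈ C))
    (P.filter (fun p => r * p.1 + p.2 + 2 ∈ C))
  have h8 := h3 1
  have h9 := h3 2
  rw [h1] at h5
  rw [h2] at h6
  omega

end Count

/-- COUNT -/
theorem count (ε : ℝ) (hε : 0 < ε) (r Q h : ℕ) (hr : 4 ≤ r) (hr' : 3 ≤ ε * r) (hQ : 1 ≤ Q)
    (hh : ((Q : ℝ) - 1) ^ h ≤ (ε / 4) * (Q : ℝ) ^ h) :
    ∃ N : ℕ, ∀ n, N ≤ n → ∀ C : Finset ℕ, C ⊆ Finset.Ioo 0 n → (C.card : ℝ) ≤ (1 / 2 - ε) * n →
      ∃ j < r - 3, (Q - 1) ^ h < (((Finset.range ((n + 1) / r)).filter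
        (fun β => r * β + j + 1 ∉ C ∧ r * β + j + 2 ∉ C)).image (fun β => β % (Q ^ h))).card := by
  set A : ℕ := (Q - 1) ^ h with hA
  set M : ℕ := Q ^ h with hM
  have hM0 : 0 < M := Nat.pow_pos (by omega)
  have hAM : (A : ℝ) ≤ ε / 4 * M := by
    rw [hA, hM]
    push_cast
    rw [Nat.cast_sub hQ]
    simpa using hh
  set K : ℕ := ⌈4 * ((A : ℝ) + 1) / (3 * ε)⌉₊ + 1 with hK
  have hKgt : 4 * ((A : ℝ) + 1) / (3 * ε) < K := by
    rw [hK]
    push_cast
    have := Nat.le_ceil (4 * ((A : ℝ) + 1) / (3 * ε))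
    linarith
  refine ⟨r * K, fun n hn C hC hcard => ?_⟩
  by_contra hcon
  push Not at hcon
  set m : ℕ := (n + 1) / r with hm
  have hr0 : 0 < r := by omega
  have hmK : K ≤ m := by
    rw [hm, Nat.le_div_iff_mul_le hr0, mul_comm]
    omega
  have hn1 : 1 ≤ n := by
    have : 1 ≤ K := by omega
    nlinarith
  have hnm : n < r * (m + 1) := by
    have := Nat.lt_mul_div_succ (n + 1) hr0
    rw [← hm] at this
    omega
  have h1 : ∀ j ∈ Finset.range (r - 3), ((Finset.range m).filter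
      (fun β => r * β + j + 1 ∉ C ∧ r * β + j + 2 ∉ C)).card ≤ (m / M + 1) * A := by
    intro j hj
    have h2 := Finset.card_le_mul_card_image (f := fun β => β % M) ((Finset.range m).filter
      (fun β => r * β + j + 1 ∉ C ∧ r * β + j + 2 ∉ C)) (m / M + 1)
      (fun a _ => Count.res m M a _ (Finset.filter_subset _ _))
    exact h2.trans (Nat.mul_le_mul_left _ (hcon j (Finset.mem_range.1 hj)))
  have h2 := Count.surv m r C hr
  have h3 := Finset.sum_le_sum h1
  rw [Finset.sum_const, Finset.card_range, smul_eq_mul] at h3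
  have h4 : m * (r - 3) ≤ (r - 3) * ((m / M + 1) * A) + 2 * C.card := by omega
  -- real version
  have h5 : (m : ℝ) * ((r : ℝ) - 3) ≤ ((r : ℝ) - 3) * ((((m / M : ℕ) : ℝ) + 1) * A) + 2 * C.card := by
    have h6 : (((r - 3 : ℕ)) : ℝ) = (r : ℝ) - 3 := by
      rw [Nat.cast_sub (by omega)]
      norm_num
    have h7 : ((m * (r - 3) : ℕ) : ℝ) ≤ (((r - 3) * ((m / M + 1) * A) + 2 * C.card : ℕ) : ℝ) := by
      exact_mod_cast h4
    push_cast at h7
    rw [h6] at h7
    exact h7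
  have h8 : (((m / M : ℕ)) : ℝ) * A ≤ ε / 4 * m := by
    have h9 : (((m / M : ℕ)) : ℝ) * M ≤ m := by
      exact_mod_cast Nat.div_mul_le_self m M
    calc (((m / M : ℕ)) : ℝ) * A ≤ (((m / M : ℕ)) : ℝ) * (ε / 4 * M) :=
          mul_le_mul_of_nonneg_left hAM (Nat.cast_nonneg _)
      _ = ε / 4 * ((((m / M : ℕ)) : ℝ) * M) := by ring
      _ ≤ ε / 4 * m := mul_le_mul_of_nonneg_left h9 (by positivity)
  have hr4 : (4 : ℝ) ≤ r := by exact_mod_cast hr
  have hn1' : (1 : ℝ) ≤ n := by exact_mod_cast hn1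
  have hnm' : (n : ℝ) ≤ r * (m + 1) := by exact_mod_cast hnm.le
  have hC0 : (0 : ℝ) ≤ C.card := Nat.cast_nonneg _
  have hε2 : 0 ≤ 1 / 2 - ε := by
    by_contra hneg
    push Not at hneg
    nlinarith
  have h10 : 2 * (C.card : ℝ) ≤ (1 - 2 * ε) * (r * (m + 1)) := by
    have h11 : (1 / 2 - ε) * n ≤ (1 / 2 - ε) * (r * (m + 1)) := mul_le_mul_of_nonneg_left hnm' hε2
    linarith
  have hA0 : (0 : ℝ) ≤ A := Nat.cast_nonneg _
  have hm0 : (0 : ℝ) ≤ m := Nat.cast_nonneg _
  have h12 : ((r : ℝ) - 3) * ((((m / M : ℕ) : ℝ) + 1) * A) ≤ r * (ε / 4 * m + A) := by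
    have h13 : (((m / M : ℕ) : ℝ) + 1) * A ≤ ε / 4 * m + A := by linarith
    have h14 : 0 ≤ (((m / M : ℕ) : ℝ) + 1) * A := by positivity
    nlinarith
  have h15 : (m : ℝ) * (3 / 4 * (ε * r)) ≤ r * (A + 1) := by
    nlinarith [mul_nonneg hm0 (sub_nonneg.2 hr')]
  have hmK' : (K : ℝ) ≤ m := by exact_mod_cast hmK
  have h16 : 4 * ((A : ℝ) + 1) < m * (3 * ε) := by
    rw [div_lt_iff₀ (by positivity)] at hKgt
    have := mul_le_mul_of_nonneg_right hmK' (by positivity : 0 ≤ 3 * ε)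
    linarith
  have hrpos : (0 : ℝ) < r := by linarith
  nlinarith

end Pool.Agent.H834R6.CC
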