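import Pool.Agent.H834R6.CC.Defs

/-! Task CROSS (helper265). -/

set_option autoImplicit false
set_option maxHeartbeats 4000000

namespace Pool.Agent.H834R6.CC

open Pool.Agent.H282R2 Set Filter Topology

namespace CrossAux

/-- Two coplanar segments whose Cramer parameters are in `[0, 1]` meet. -/
theorem meet (p q A B R : E3) (hR : q - p = R) (h0 : dt A B R = 0)
    (b1 : 0 ≤ dt R B (cr A B)) (b2 : dt R B (cr A B) ≤ ‖cr A B‖ ^ 2)
    (b3 : 0 ≤ -dt A R (cr A B)) (b4 : -dt A R (cr A B) ≤ ‖cr A B‖ ^ 2)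
    (hN : 0 < ‖cr A B‖ ^ 2) :
    ¬ Disjoint (segment ℝ p (p + A)) (segment ℝ q (q + B)) := by
  have hc := cramer A B R
  rw [h0, zero_smul, add_zero] at hc
  set N := cr A B with hNd
  set σ := dt R B N / ‖N‖ ^ 2 with hσ
  set τ := -dt A R N / ‖N‖ ^ 2 with hτ
  have hR'' : R = σ • A - τ • B := by
    have : R = (‖N‖ ^ 2)⁻¹ • (‖N‖ ^ 2 • R) := by
      rw [smul_smul, inv_mul_cancel₀ hN.ne', one_smul]
    rw [this, hc, smul_add, smul_smul, smul_smul, hσ, hτ, neg_div, neg_smul, sub_neg_eq_add]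
    congr 2
    · rw [div_eq_inv_mul]
    · rw [div_eq_inv_mul]
  have hσ0 : 0 ≤ σ := div_nonneg b1 hN.le
  have hσ1 : σ ≤ 1 := (div_le_one hN).2 b2
  have hτ0 : 0 ≤ τ := div_nonneg b3 hN.le
  have hτ1 : τ ≤ 1 := (div_le_one hN).2 b4
  intro hdis
  rw [Set.disjoint_left] at hdis
  refine hdis (a := p + σ • A) ?_ ?_
  · rw [segment_eq_image']
    exact ⟨σ, ⟨hσ0, hσ1⟩, by simp⟩
  · rw [segment_eq_image']
    refine ⟨τ, ⟨hτ0, hτ1⟩, ?_⟩
    have : q = p + (σ • A - τ • B) := by rw [← hR'', ← hR]; abel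
    simp only [add_sub_cancel_left]
    rw [this]
    abel

/-- the open condition -/
def Cnd {ι : Type} (c : Con ι) (Z : ι → T3) : Prop :=
  (0 < dt (Z c.j c.m.castSucc - Z c.i c.l.castSucc) (lk (Z c.j) c.m)
      (cr (lk (Z c.i) c.l) (lk (Z c.j) c.m)) ∧
    dt (Z c.j c.m.castSucc - Z c.i c.l.castSucc) (lk (Z c.j) c.m)
      (cr (lk (Z c.i) c.l) (lk (Z c.j) c.m)) < ‖cr (lk (Z c.i) c.l) (lk (Z c.j) c.m)‖ ^ 2) ∧
  (0 < -dt (lk (Z c.i) c.l) (Z c.j c.m.castSucc - Z c.i c.l.castSucc)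
      (cr (lk (Z c.i) c.l) (lk (Z c.j) c.m)) ∧
    -dt (lk (Z c.i) c.l) (Z c.j c.m.castSucc - Z c.i c.l.castSucc)
      (cr (lk (Z c.i) c.l) (lk (Z c.j) c.m)) < ‖cr (lk (Z c.i) c.l) (lk (Z c.j) c.m)‖ ^ 2)

theorem cont_pt {ι : Type} (i : ι) (k : Fin 4) : Continuous fun Z : ι → T3 => Z i k :=
  (continuous_apply k).comp (continuous_apply i)

theorem cont_lk {ι : Type} (i : ι) (l : Fin 3) : Continuous fun Z : ι → T3 => lk (Z i) l :=
  (cont_pt i l.succ).sub (cont_pt i l.castSucc)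

theorem cnd_open {ι : Type} (c : Con ι) : IsOpen {Z : ι → T3 | Cnd c Z} := by
  have hR : Continuous fun Z : ι → T3 => Z c.j c.m.castSucc - Z c.i c.l.castSucc :=
    (cont_pt _ _).sub (cont_pt _ _)
  have hN : Continuous fun Z : ι → T3 => cr (lk (Z c.i) c.l) (lk (Z c.j) c.m) :=
    Continuous.cr (cont_lk _ _) (cont_lk _ _)
  have h1 : Continuous fun Z : ι → T3 => dt (Z c.j c.m.castSucc - Z c.i c.l.castSucc)
      (lk (Z c.j) c.m) (cr (lk (Z c.i) c.l) (lk (Z c.j) c.m)) :=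
    Continuous.dt hR (cont_lk _ _) hN
  have h2 : Continuous fun Z : ι → T3 => -dt (lk (Z c.i) c.l)
      (Z c.j c.m.castSucc - Z c.i c.l.castSucc) (cr (lk (Z c.i) c.l) (lk (Z c.j) c.m)) :=
    (Continuous.dt (cont_lk _ _) hR hN).neg
  have h3 : Continuous fun Z : ι → T3 => ‖cr (lk (Z c.i) c.l) (lk (Z c.j) c.m)‖ ^ 2 :=
    hN.norm.pow 2
  exact ((isOpen_lt continuous_const h1).inter (isOpen_lt h1 h3)).inter
    ((isOpen_lt continuous_const h2).inter (isOpen_lt h2 h3))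

theorem cnd_X {ι : Type} (X : ι → T3) (c : Con ι) (h : c.Ok X) : Cnd c X := by
  have hnz : 0 < ‖cr (lk (X c.i) c.l) (lk (X c.j) c.m)‖ ^ 2 := by
    have : ‖cr (lk (X c.i) c.l) (lk (X c.j) c.m)‖ ≠ 0 := norm_ne_zero_iff.2 h.nz
    positivity
  have ht := h.touch
  have hR : X c.j c.m.castSucc - X c.i c.l.castSucc =
      c.θ • lk (X c.i) c.l + (-c.θ') • lk (X c.j) c.m := by
    unfold ptOn at ht
    have e1 : (1 - c.θ) • X c.i c.l.castSucc + c.θ • X c.i c.l.succ =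
        X c.i c.l.castSucc + c.θ • lk (X c.i) c.l := by
      unfold lk; module
    have e2 : (1 - c.θ') • X c.j c.m.castSucc + c.θ' • X c.j c.m.succ =
        X c.j c.m.castSucc + c.θ' • lk (X c.j) c.m := by
      unfold lk; module
    rw [e1, e2] at ht
    have : X c.j c.m.castSucc - X c.i c.l.castSucc =
        (X c.j c.m.castSucc + c.θ' • lk (X c.j) c.m) - X c.i c.l.castSucc -
          c.θ' • lk (X c.j) c.m := by abel
    rw [this, ← ht]
    module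
  have hABN : dt (lk (X c.i) c.l) (lk (X c.j) c.m) (cr (lk (X c.i) c.l) (lk (X c.j) c.m)) =
      ‖cr (lk (X c.i) c.l) (lk (X c.j) c.m)‖ ^ 2 := by
    rw [norm_sq3]; simp only [dt, cr_zero, cr_one, cr_two]; ring
  have hz1 : ∀ u v : E3, dt u u v = 0 := by intro u v; simp only [dt]; ring
  have f1 : dt (X c.j c.m.castSucc - X c.i c.l.castSucc) (lk (X c.j) c.m)
      (cr (lk (X c.i) c.l) (lk (X c.j) c.m)) =
      c.θ * ‖cr (lk (X c.i) c.l) (lk (X c.j) c.m)‖ ^ 2 := by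
    rw [hR, dt_add_1, dt_smul_1, dt_smul_1, hz1, hABN]; ring
  have f2 : -dt (lk (X c.i) c.l) (X c.j c.m.castSucc - X c.i c.l.castSucc)
      (cr (lk (X c.i) c.l) (lk (X c.j) c.m)) =
      c.θ' * ‖cr (lk (X c.i) c.l) (lk (X c.j) c.m)‖ ^ 2 := by
    rw [hR, dt_add_2, dt_smul_2, dt_smul_2, hz1, hABN]; ring
  unfold Cnd
  rw [f1, f2]
  refine ⟨⟨mul_pos h.h1 hnz, ?_⟩, mul_pos h.h3 hnz, ?_⟩
  · exact mul_lt_of_lt_one_left hnz h.h2
  · exact mul_lt_of_lt_one_left hnz h.h4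

end CrossAux

open CrossAux in
/-- CROSS -/
theorem cross_near {ι S : Type} [Finite ι] [Finite S] (X : ι → T3) (s : S → Con ι)
    (hs : ∀ a, (s a).Ok X) :
    ∃ ρ0 > 0, ∀ Z : ι → T3, (∀ i k, ‖Z i k - X i k‖ ≤ ρ0) → ∀ a, cx Z (s a) = 0 →
      ¬ Disjoint (sg (Z (s a).i) (s a).l) (sg (Z (s a).j) (s a).m) := by
  haveI := Fintype.ofFinite ι
  have hev : ∀ᶠ Z in 𝓝 X, ∀ a, Cnd (s a) Z := by
    rw [eventually_all]
    intro a
    exact (cnd_open (s a)).mem_nhds (cnd_X X (s a) (hs a))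
  obtain ⟨ε, hε, hball⟩ := Metric.eventually_nhds_iff.1 hev
  refine ⟨ε / 2, by positivity, fun Z hZ a hcx => ?_⟩
  have hd : dist Z X < ε := by
    have : dist Z X ≤ ε / 2 := by
      rw [dist_pi_le_iff (by positivity)]
      intro i
      rw [dist_pi_le_iff (by positivity)]
      intro k
      rw [dist_eq_norm]
      exact hZ i k
    linarith
  obtain ⟨⟨c1, c2⟩, c3, c4⟩ := hball hd a
  have h0 : dt (lk (Z (s a).i) (s a).l) (lk (Z (s a).j) (s a).m)
      (Z (s a).j (s a).m.castSucc - Z (s a).i (s a).l.castSucc) = 0 := by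
    unfold cx at hcx
    have : Z (s a).j (s a).m.castSucc - Z (s a).i (s a).l.castSucc =
        (-1 : ℝ) • (Z (s a).i (s a).l.castSucc - Z (s a).j (s a).m.castSucc) := by
      rw [neg_one_smul, neg_sub]
    rw [this, dt_smul_3, hcx, mul_zero]
  have hm := meet (Z (s a).i (s a).l.castSucc) (Z (s a).j (s a).m.castSucc)
    (lk (Z (s a).i) (s a).l) (lk (Z (s a).j) (s a).m) _ rfl h0 c1.le c2.le c3.le c4.le
    (lt_trans c1 c2)
  have e1 : Z (s a).i (s a).l.castSucc + lk (Z (s a).i) (s a).l = Z (s a).i (s a).l.succ := by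
    unfold lk; abel
  have e2 : Z (s a).j (s a).m.castSucc + lk (Z (s a).j) (s a).m = Z (s a).j (s a).m.succ := by
    unfold lk; abel
  rw [e1, e2] at hm
  exact hm

end Pool.Agent.H834R6.CC
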