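import Pool.Agent.H282R2.Vec

/-!
# Cutting chains: definitions

Chains in space, their pieces after cutting at vertices, and traps formed by three-link chains.
-/

set_option autoImplicit false
set_option maxHeartbeats 4000000

namespace Pool.Agent.H834R6.CC

open Pool.Agent.H282R2 Set Filter Topology

/-! ## chains and pieces -/

/-- `v 0, …, v n` are the vertices of a non-self-intersecting chain with `n` links -/
structure IsChain (n : ℕ) (v : ℕ → E3) : Prop where
  pos : ∀ i, i < n → v i ≠ v (i + 1)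
  far : ∀ i j, i + 1 < j → j < n →
    Disjoint (segment ℝ (v i) (v (i + 1))) (segment ℝ (v j) (v (j + 1)))
  near : ∀ i, i + 1 < n →
    segment ℝ (v i) (v (i + 1)) ∩ segment ℝ (v (i + 1)) (v (i + 2)) = {v (i + 1)}

/-- The segments `[s i, e i]`, `i < n`, are the links of the pieces of an `n`-link chain that was cut
at the interior vertices in `C`: consecutive links share a joint unless the chain was cut there, every
piece is non-self-intersecting, and different pieces are disjoint. -/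
structure IsPieces (n : ℕ) (C : Finset ℕ) (s e : ℕ → E3) : Prop where
  joint : ∀ i, i + 1 < n → i + 1 ∉ C → e i = s (i + 1)
  near : ∀ i, i + 1 < n → i + 1 ∉ C →
    segment ℝ (s i) (e i) ∩ segment ℝ (s (i + 1)) (e (i + 1)) = {e i}
  cut : ∀ i, i + 1 < n → i + 1 ∈ C →
    Disjoint (segment ℝ (s i) (e i)) (segment ℝ (s (i + 1)) (e (i + 1)))
  far : ∀ i j, i + 1 < j → j < n →
    Disjoint (segment ℝ (s i) (e i)) (segment ℝ (s j) (e j))

/-- After cutting the `n`-link chain `v` at the vertices in `C`, the pieces can be separated and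
straightened: for every `d > 0` there is a motion of the pieces (it starts at the given position,
preserves all lengths, and at all later times the pieces are non-self-intersecting and pairwise
disjoint) that ends in a position where every piece is straight and points of different pieces have
distance at least `d`. -/
def Unlockable (n : ℕ) (C : Finset ℕ) (v : ℕ → E3) : Prop :=
  ∀ d : ℝ, 0 < d → ∃ s e : ℝ → ℕ → E3,
    (∀ i, i < n → ContinuousOn (fun t => s t i) (Icc 0 1)) ∧
    (∀ i, i < n → ContinuousOn (fun t => e t i) (Icc 0 1)) ∧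
    (∀ i, i < n → s 0 i = v i ∧ e 0 i = v (i + 1)) ∧
    (∀ t ∈ Icc (0 : ℝ) 1, ∀ i, i < n → dist (s t i) (e t i) = dist (v i) (v (i + 1))) ∧
    (∀ t ∈ Ioc (0 : ℝ) 1, IsPieces n C (s t) (e t)) ∧
    (∀ i, i + 1 < n → i + 1 ∉ C → SameRay ℝ (e 1 i - s 1 i) (e 1 (i + 1) - s 1 (i + 1))) ∧
    (∀ i j k, i < k → k ≤ j → j < n → k ∈ C →
      ∀ x ∈ segment ℝ (s 1 i) (e 1 i), ∀ y ∈ segment ℝ (s 1 j) (e 1 j), d ≤ dist x y)

/-- the numbers `k` such that every `n`-link chain can be cut at some `k` of its interior vertices so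
that the pieces can be separated and straightened -/
def CutNumbers (n : ℕ) : Set ℕ :=
  {k | ∀ v : ℕ → E3, IsChain n v → ∃ C : Finset ℕ, C ⊆ Finset.Ioo 0 n ∧ C.card = k ∧
    Unlockable n C v}

/-- the least number of cuts -/
noncomputable def f (n : ℕ) : ℕ := sInf (CutNumbers n)

/-! ## three-link chains -/

/-- the four vertices of a three-link chain -/
abbrev T3 : Type := Fin 4 → E3

/-- link vector -/
noncomputable def lk (T : T3) (l : Fin 3) : E3 := T l.succ - T l.castSucc

/-- the point with parameter `θ` of a link -/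
noncomputable def ptOn (T : T3) (l : Fin 3) (θ : ℝ) : E3 := (1 - θ) • T l.castSucc + θ • T l.succ

/-- link as a set -/
def sg (T : T3) (l : Fin 3) : Set E3 := segment ℝ (T l.castSucc) (T l.succ)

/-- `V` is an infinitesimal motion of `T` that preserves the three lengths -/
def LP (T V : T3) : Prop := ∀ l : Fin 3, (inner ℝ (lk T l) (lk V l) : ℝ) = 0

/-- The family `X` of three-link chains is trapped: in every motion of the family some chain has its
last two links not aligned at time `1`. -/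
def Trap {ι : Type} (X : ι → T3) : Prop :=
  ∀ γ : ℝ → ι → T3, (∀ i k, ContinuousOn (fun t => γ t i k) (Icc 0 1)) → γ 0 = X →
    (∀ t ∈ Icc (0 : ℝ) 1, ∀ i l, ‖lk (γ t i) l‖ = ‖lk (X i) l‖) →
    (∀ t ∈ Icc (0 : ℝ) 1, ∀ i j, i ≠ j → ∀ l m, Disjoint (sg (γ t i) l) (sg (γ t j) m)) →
    ∃ i, ¬ SameRay ℝ (lk (γ 1 i) 1) (lk (γ 1 i) 2)

/-! ## contacts -/

/-- a contact between link `l` of chain `i` (at parameter `θ`) and link `m` of chain `j` (at
parameter `θ'`), with a real coefficient `σ` -/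
structure Con (ι : Type) where
  i : ι
  l : Fin 3
  θ : ℝ
  j : ι
  m : Fin 3
  θ' : ℝ
  σ : ℝ

/-- normal vector of a contact -/
noncomputable def nv {ι : Type} (X : ι → T3) (c : Con ι) : E3 :=
  cr (lk (X c.i) c.l) (lk (X c.j) c.m)

/-- signed volume of the two links of a contact -/
noncomputable def cx {ι : Type} (X : ι → T3) (c : Con ι) : ℝ :=
  dt (lk (X c.i) c.l) (lk (X c.j) c.m) (X c.i c.l.castSucc - X c.j c.m.castSucc)

/-- the first chain's part of the derivative of `cx` -/
noncomputable def af {ι : Type} (X : ι → T3) (c : Con ι) (V : T3) : ℝ :=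
  inner ℝ (nv X c) (ptOn V c.l c.θ)

/-- the second chain's part of the derivative of `cx` -/
noncomputable def bf {ι : Type} (X : ι → T3) (c : Con ι) (V : T3) : ℝ :=
  inner ℝ (nv X c) (ptOn V c.m c.θ')

/-- a contact at which the two links touch, transversally and at interior points -/
structure Con.Ok {ι : Type} (X : ι → T3) (c : Con ι) : Prop where
  ne : c.i ≠ c.j
  h1 : 0 < c.θ
  h2 : c.θ < 1
  h3 : 0 < c.θ'
  h4 : c.θ' < 1
  touch : ptOn (X c.i) c.l c.θ = ptOn (X c.j) c.m c.θ'
  nz : nv X c ≠ 0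
  sz : c.σ ≠ 0

/-- A pattern: finitely many three-link chains `X p` and contacts `s a` such that
(`dep`) for each `p` the contacts of `p` carry a nowhere zero equilibrium stress,
(`det`) the contacts of `p` determine `p`,
(`dir`) some displacement of `p` has the signs of the stress,
(`rigid`) the family is infinitesimally rigid if all contacts are maintained. -/
structure PatOk {P S : Type} [Fintype S] [DecidableEq P] (X : P → T3) (s : S → Con P) : Prop where
  ok : ∀ a, (s a).Ok X
  dep : ∀ p V, LP (X p) V → ∑ a, (if (s a).i = p then (s a).σ * af X (s a) V else 0) = 0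
  det : ∀ p V, LP (X p) V → (∀ a, (s a).i = p → af X (s a) V = 0) → V = 0
  dir : ∀ p, ∃ w : T3, ∀ a, (s a).i = p → 0 < (s a).σ * af X (s a) w
  rigid : ∀ u : P → T3, (∀ p, LP (X p) (u p)) →
    (∀ a, af X (s a) (u (s a).i) = bf X (s a) (u (s a).j)) →
    ∃ ω τ : E3, ∀ p k, u p k = cr ω (X p k) + τ

/-! ## five hubs -/

/-- vectors over a ring, for computations -/
abbrev V3 (R : Type) : Type := R × R × R

section ring
variable {R : Type} [CommRing R]

def vsub (a b : V3 R) : V3 R := (a.1 - b.1, a.2.1 - b.2.1, a.2.2 - b.2.2)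
def vadd (a b : V3 R) : V3 R := (a.1 + b.1, a.2.1 + b.2.1, a.2.2 + b.2.2)
def vsmul (c : R) (a : V3 R) : V3 R := (c * a.1, c * a.2.1, c * a.2.2)
def vcr (a b : V3 R) : V3 R :=
  (a.2.1 * b.2.2 - a.2.2 * b.2.1, a.2.2 * b.1 - a.1 * b.2.2, a.1 * b.2.1 - a.2.1 * b.1)
def vdot (a b : V3 R) : R := a.1 * b.1 + a.2.1 * b.2.1 + a.2.2 * b.2.2
def vdet (a b c : V3 R) : R := vdot a (vcr b c)

/-- five points: the chain runs through `A, A'` on the first link, `B` on the second and `C, C'` on
the third -/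
structure Hub5 (R : Type) where
  A : V3 R
  A' : V3 R
  B : V3 R
  C : V3 R
  C' : V3 R

variable (h : Hub5 R)

def hd1 : V3 R := vsub h.A' h.A
def hd3 : V3 R := vsub h.C' h.C
def hDA : R := vdet (hd1 h) (hd3 h) (vsub h.B h.A)
def hDC : R := vdet (hd1 h) (hd3 h) (vsub h.C h.B)
def hth : R := vdet (vsub h.A h.C) (hd3 h) (vsub h.B h.C)
def hsh : R := vdet (vsub h.C h.A) (hd1 h) (vsub h.B h.A)
/-- direction of the second link -/
def hq : V3 R := vcr (vcr (hd1 h) (vsub h.B h.A)) (vcr (hd3 h) (vsub h.B h.C))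
def hpsi : V3 R :=
  vsub (vsmul (hDA h * vdot (hq h) (hd1 h)) (vcr (hd3 h) (hq h)))
    (vsmul (hDC h * vdot (hq h) (hd3 h)) (vcr (hq h) (hd1 h)))
def hf1 : V3 R := vadd (vsmul (hDA h * hDA h * hDC h) (hq h)) (hpsi h)
def hf3 : V3 R := vadd (vsmul (-(hDA h * hDC h * hDC h)) (hq h)) (hpsi h)

/-- the coefficients of the linearised length of the second link, for the five hubs -/
def hrow : Fin 5 → V3 R := ![
  vsmul (hDC h - hth h) (hf1 h), vsmul (hth h) (hf1 h), vsmul (-(hDA h + hDC h)) (hpsi h),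
  vsmul (hDA h - hsh h) (hf3 h), vsmul (hsh h) (hf3 h)]

end ring

/-! ## the hub system: 13 hubs, 81 chains -/

/-- indices of the chains -/
abbrev PI : Type := Fin 3 × Fin 3 × Fin 3 × Fin 3

/-- the five slots of a chain -/
def slotLink : Fin 5 → Fin 3 := ![0, 0, 1, 2, 2]

/-- the hub in a slot: `A i = i`, `A' j = 3 + j`, `B = 6`, `C k = 7 + k`, `C' l = 10 + l` -/
def hubIx (p : PI) : Fin 5 → Fin 13 :=
  ![⟨p.1, by omega⟩, ⟨3 + p.2.1, by omega⟩, 6, ⟨7 + p.2.2.1, by omega⟩, ⟨10 + p.2.2.2, by omega⟩]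

/-- one of the two other indices -/
def oth (i : Fin 3) (e : Fin 2) : Fin 3 := i + 1 + ⟨e, by omega⟩

/-- the diagonal chains, used as references at the hub `B` -/
def diag (m : Fin 3) : PI := (m, m, m, m)

/-- the references of a chain at the hub `B` -/
def refB (p : PI) (e : Fin 2) : PI :=
  if p = diag p.1 then diag (oth p.1 e) else diag ⟨e, by omega⟩

/-- the partners of the chain `p` in the five slots -/
def partner (p : PI) (k : Fin 5) (e : Fin 2) : PI :=
  match k with
  | 0 => (p.1, oth p.2.1 e, 0, 0)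
  | 1 => (oth p.1 e, p.2.1, 0, 0)
  | 2 => refB p e
  | 3 => (0, 0, p.2.2.1, oth p.2.2.2 e)
  | 4 => (0, 0, oth p.2.2.1 e, p.2.2.2)

/-- the five hubs of a chain -/
def hub5 {R : Type} (η : Fin 13 → V3 R) (p : PI) : Hub5 R where
  A := η (hubIx p 0)
  A' := η (hubIx p 1)
  B := η (hubIx p 2)
  C := η (hubIx p 3)
  C' := η (hubIx p 4)

section conds
variable {R : Type} [CommRing R] (η : Fin 13 → V3 R)

/-- direction (not normalised) of the link of `p` in slot `k` -/
def dirOf (p : PI) (k : Fin 5) : V3 R :=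
  ![hd1 (hub5 η p), hd1 (hub5 η p), hq (hub5 η p), hd3 (hub5 η p), hd3 (hub5 η p)] k

/-- force (up to a factor) on the chain `p` in slot `k` -/
def frcOf (p : PI) (k : Fin 5) : V3 R :=
  ![hf1 (hub5 η p), hf1 (hub5 η p), hpsi (hub5 η p), hf3 (hub5 η p), hf3 (hub5 η p)] k

/-- general position of a chain and its two partners in a slot -/
def condA (p : PI) (k : Fin 5) : R :=
  vdet (dirOf η p k) (dirOf η (partner p k 0) k) (dirOf η (partner p k 1) k)

/-- the force is not perpendicular to the partner's direction -/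
def condB (p : PI) (k : Fin 5) (e : Fin 2) : R :=
  vdot (frcOf η p k) (dirOf η (partner p k e) k)

/-- the 33 chains whose equations are used -/
def selL : List (ℕ × ℕ × ℕ × ℕ) := [
  (0, 0, 0, 0), (0, 0, 0, 1), (0, 0, 0, 2), (0, 0, 1, 0), (0, 0, 1, 1), (0, 0, 1, 2),
  (0, 0, 2, 0), (0, 0, 2, 1), (0, 0, 2, 2), (0, 1, 0, 0), (0, 1, 0, 1), (0, 1, 0, 2),
  (0, 1, 1, 0), (0, 1, 1, 1), (0, 1, 1, 2), (0, 1, 2, 0), (0, 1, 2, 1), (0, 1, 2, 2),
  (0, 2, 0, 0), (0, 2, 0, 1), (0, 2, 0, 2), (0, 2, 1, 0), (0, 2, 1, 1), (0, 2, 1, 2),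
  (1, 0, 0, 0), (1, 0, 0, 1), (1, 0, 0, 2), (1, 1, 0, 0), (1, 1, 0, 1), (1, 2, 0, 0),
  (2, 0, 0, 0), (2, 0, 0, 1), (2, 1, 0, 0)]

def sel (m : ℕ) : PI :=
  let x := selL.getD m (0, 0, 0, 0)
  (Fin.ofNat 3 x.1, Fin.ofNat 3 x.2.1, Fin.ofNat 3 x.2.2.1, Fin.ofNat 3 x.2.2.2)

/-- the six gauge rows: hub and coordinate -/
def gaugeL : List (ℕ × ℕ) := [(0, 0), (0, 1), (0, 2), (3, 1), (3, 2), (7, 2)]

def vget (a : V3 R) (c : Fin 3) : R := ![a.1, a.2.1, a.2.2] c

/-- the matrix of the linear system for the displacements of the hubs: rows `0, …, 5` fix the gauge,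
the others are the equations of the chains `sel 0, …, sel 32` -/
def hubMat : Matrix (Fin 39) (Fin 13 × Fin 3) R := fun r x =>
  if (r : ℕ) < 6 then
    if ((x.1 : ℕ), (x.2 : ℕ)) = gaugeL.getD r (0, 0) then 1 else 0
  else
    ∑ k : Fin 5, if hubIx (sel (r - 6)) k = x.1 then vget (hrow (hub5 η (sel (r - 6))) k) x.2 else 0

/-- the square matrix -/
def hubMatS : Matrix (Fin 39) (Fin 39) R := fun r c =>
  hubMat η r (⟨c / 3, by omega⟩, ⟨c % 3, by omega⟩)

end conds

/-- the index type of all polynomial conditions -/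
abbrev CI : Type := (PI × Fin 5) ⊕ (PI × Fin 5 × Fin 2) ⊕ Unit

/-- all polynomial conditions -/
def cond {R : Type} [CommRing R] (η : Fin 13 → V3 R) : CI → R
  | .inl x => condA η x.1 x.2
  | .inr (.inl x) => condB η x.1 x.2.1 x.2.2
  | .inr (.inr _) => (hubMatS η).det

/-- a numerical instance -/
def etaZ : Fin 13 → V3 ℤ := ![(-3, 1, 2), (3, 2, 1), (-2, -1, 2), (-1, -1, 2), (-3, 2, 0), (-1, 0, 2),
  (3, 0, 0), (3, -3, -1), (-2, 3, -1), (-1, 3, -1), (-1, 3, 2), (2, 1, -2), (-2, 1, 2)]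

/-! ## the geometric chain through five hubs -/

noncomputable def toE (v : V3 ℝ) : E3 := !₂[v.1, v.2.1, v.2.2]

/-- the two joints and the two ends: `b = A + (th / DC) d1`, `c = C + (sh / DA) d3`,
`a = b + (3/2) (A - b)`, `d = c + (3/2) (C' - c)` -/
noncomputable def hb (h : Hub5 ℝ) : E3 := toE h.A + (hth h / hDC h) • toE (hd1 h)
noncomputable def hc (h : Hub5 ℝ) : E3 := toE h.C + (hsh h / hDA h) • toE (hd3 h)
noncomputable def hT (h : Hub5 ℝ) : T3 :=
  ![hb h + (3 / 2 : ℝ) • (toE h.A - hb h), hb h, hc h, hc h + (3 / 2 : ℝ) • (toE h.C' - hc h)]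

/-- the parameters of the hubs on their links -/
noncomputable def hθ (h : Hub5 ℝ) : Fin 5 → ℝ :=
  ![1 / 3, 1 - (2 / 3) * ((hth h / hDC h - 1) / (hth h / hDC h)), hDA h / (hDA h + hDC h),
    (2 / 3) * ((hsh h / hDA h) / (hsh h / hDA h - 1)), 2 / 3]

/-- the hubs as points -/
noncomputable def hpt (h : Hub5 ℝ) : Fin 5 → E3 :=
  ![toE h.A, toE h.A', toE h.B, toE h.C, toE h.C']

/-- the open conditions: the chain is not degenerate and the hubs are interior points of the links -/
structure HubOk (h : Hub5 ℝ) : Prop where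
  a : hDA h ≠ 0
  c : hDC h ≠ 0
  b1 : 0 < hDA h / (hDA h + hDC h)
  b2 : hDA h / (hDA h + hDC h) < 1
  t : 1 < hth h / hDC h
  s : hsh h / hDA h < 0

end Pool.Agent.H834R6.CC
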