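import Pool.Agent.H834R6.CC.Eta

/-! Further definitions, verbatim from `Stubs.lean` (the others are in `Eta.lean`). -/

set_option autoImplicit false
set_option maxHeartbeats 4000000

namespace Pool.Agent.H834R6.CC

/-- the five factors of a cluster -/
noncomputable def yv (K : ℝ) : Fin 5 → ℝ := ![0, 1, -1, K, -K]

end Pool.Agent.H834R6.CC
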