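import Pool.Agent.H834R6.CC.Defs

/-! # The moving hub systems (definitions) -/

set_option autoImplicit false

namespace Pool.Agent.H834R6.CC

def etaR (x : Fin 13) : V3 ℝ := ((etaZ x).1, (etaZ x).2.1, (etaZ x).2.2)

/-- hubs moved from `η0` towards `etaR` -/
noncomputable def etaT (η0 : Fin 13 → V3 ℝ) (t : ℝ) (x : Fin 13) : V3 ℝ :=
  vadd (η0 x) (vsmul t (vsub (etaR x) (η0 x)))

/-- all hubs of one type at the same point -/
def baseEta (h : Hub5 ℝ) (x : Fin 13) : V3 ℝ :=
  if (x : ℕ) < 3 then h.A else if (x : ℕ) < 6 then h.A' else if (x : ℕ) = 6 then h.B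
    else if (x : ℕ) < 10 then h.C else h.C'

end Pool.Agent.H834R6.CC
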