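import Pool.Agent.H834R6.CC.Defs

/-! FINAL: the limit from the upper and the lower bound. -/

set_option autoImplicit false
set_option maxHeartbeats 4000000

namespace Pool.Agent.H834R6.CC

open Pool.Agent.H282R2 Set Filter Topology

namespace Final

theorem card_even (n : ℕ) : ((Finset.Ioo 0 n).filter Even).card = (n - 1) / 2 := by
  rw [← Nat.Ioc_filter_dvd_card_eq_div (n - 1) 2]
  congr 1
  ext x
  simp only [Finset.mem_filter, Finset.mem_Ioo, Finset.mem_Ioc, even_iff_two_dvd]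
  constructor
  · rintro ⟨⟨h1, h2⟩, h3⟩
    exact ⟨⟨h1, by omega⟩, h3⟩
  · rintro ⟨⟨h1, h2⟩, h3⟩
    exact ⟨⟨h1, by omega⟩, h3⟩

end Final

open Final

/-- FINAL: assembly of UPPER and LOWER. -/
theorem final
    (upper : ∀ (n : ℕ) (v : ℕ → E3), IsChain n v → Unlockable n ((Finset.Ioo 0 n).filter Even) v)
    (lower : ∀ ε : ℝ, 0 < ε → ∃ N : ℕ, ∀ n, N ≤ n → ∃ v : ℕ → E3, IsChain n v ∧
      ∀ C : Finset ℕ, C ⊆ Finset.Ioo 0 n → (C.card : ℝ) ≤ (1 / 2 - ε) * n → ¬ Unlockable n C v) :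
    (∀ n, (CutNumbers n).Nonempty ∧ f n ≤ (n - 1) / 2) ∧
      Tendsto (fun n : ℕ => (f n : ℝ) / n) atTop (𝓝 (1 / 2)) := by
  have hmem : ∀ n, (n - 1) / 2 ∈ CutNumbers n := by
    intro n v hv
    exact ⟨(Finset.Ioo 0 n).filter Even, Finset.filter_subset _ _, card_even n, upper n v hv⟩
  have hne : ∀ n, (CutNumbers n).Nonempty := fun n => ⟨_, hmem n⟩
  have hle : ∀ n, f n ≤ (n - 1) / 2 := fun n => Nat.sInf_le (hmem n)
  refine ⟨fun n => ⟨hne n, hle n⟩, ?_⟩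
  rw [Metric.tendsto_atTop]
  intro δ hδ
  obtain ⟨N, hN⟩ := lower (δ / 2) (by positivity)
  refine ⟨max N 1, fun n hn => ?_⟩
  have hn1 : 1 ≤ n := le_trans (le_max_right _ _) hn
  have hnN : N ≤ n := le_trans (le_max_left _ _) hn
  have hn0 : (0 : ℝ) < n := by exact_mod_cast hn1
  obtain ⟨v, hv, hbad⟩ := hN n hnN
  have hf : f n ∈ CutNumbers n := Nat.sInf_mem (hne n)
  obtain ⟨C, hC, hcard, hU⟩ := hf v hv
  have h1 : (1 / 2 - δ / 2) * n < (f n : ℝ) := by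
    by_contra h
    rw [← hcard] at h
    exact hbad C hC (not_lt.1 h) hU
  have h2 : (f n : ℝ) ≤ n / 2 := by
    have h3 : 2 * f n ≤ n := by
      have := hle n
      omega
    have h4 : (2 : ℝ) * f n ≤ n := by exact_mod_cast h3
    linarith
  have h5 : (1 / 2 - δ / 2) < (f n : ℝ) / n := by
    rw [lt_div_iff₀ hn0]
    exact h1
  have h6 : (f n : ℝ) / n ≤ 1 / 2 := by
    rw [div_le_iff₀ hn0]
    linarith
  rw [Real.dist_eq, abs_lt]
  constructor <;> linarith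

end Pool.Agent.H834R6.CC
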