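import Pool.Agent.H834R6.CC.FirstOf
import Pool.Agent.H834R6.CC.Cont
import Pool.Agent.H834R6.CC.Core
import Pool.Agent.H834R6.CC.Cross

set_option autoImplicit false
set_option maxHeartbeats 4000000

namespace Pool.Agent.H834R6.CC

open Pool.Agent.H282R2 Set Filter Topology

/-- FIRST: assembly of CONT, CORE, CROSS -/
theorem first_order {ι S : Type} [Finite ι] [Finite S] (X : ι → T3) (s : S → Con ι) (i0 : ι)
    (hs : ∀ a, (s a).Ok X) (hdeg : cr (X i0 2 - X i0 1) (X i0 3 - X i0 1) ≠ 0)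
    (rigid : ∀ V : ι → T3, (∀ i, LP (X i) (V i)) →
      (∀ a, 0 ≤ (s a).σ * (af X (s a) (V (s a).i) - bf X (s a) (V (s a).j))) →
      ∃ ω τ : E3, ∀ i k, V i k = cr ω (X i k) + τ) :
    ∃ δ > 0, ∀ Y : ι → T3, (∀ i k, ‖Y i k - X i k‖ ≤ δ) → (∀ a, 0 < (s a).σ * cx Y (s a)) →
      Trap Y :=
  First.first_order_of @cont_trap @core_near @cross_near X s i0 hs hdeg rigid

end Pool.Agent.H834R6.CC
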