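import Pool.Agent.H834R6.CC.Defs

set_option autoImplicit false
set_option maxHeartbeats 4000000

namespace Pool.Agent.H834R6.CC

open Pool.Agent.H282R2 Set Filter Topology

namespace First

theorem cont_cr : Continuous fun p : E3 × E3 => cr p.1 p.2 := by
  have h : ∀ i : Fin 3, Continuous fun p : E3 × E3 => p.1 i := fun i => by fun_prop
  have h' : ∀ i : Fin 3, Continuous fun p : E3 × E3 => p.2 i := fun i => by fun_prop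
  unfold cr
  refine (PiLp.continuous_toLp 2 _).comp ?_
  refine continuous_pi fun i => ?_
  fin_cases i
  · exact ((h 1).mul (h' 2)).sub ((h 2).mul (h' 1))
  · exact ((h 2).mul (h' 0)).sub ((h 0).mul (h' 2))
  · exact ((h 0).mul (h' 1)).sub ((h 1).mul (h' 0))

theorem cont_nrm : Continuous fun T : T3 => ‖cr (T 2 - T 1) (T 3 - T 1)‖ := by
  refine continuous_norm.comp (cont_cr.comp (f := fun T : T3 => (T 2 - T 1, T 3 - T 1)) ?_)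
  fun_prop

/-- statement of CONT -/
def SCont : Prop := ∀ {ι S : Type} [Finite ι] [Finite S] (X Y : ι → T3) (s : S → Con ι) (i0 : ι)
    (ρ ρ' c0 : ℝ) (_ : ρ' < ρ) (_ : 0 < c0)
    (_ : ∀ a, (s a).i ≠ (s a).j ∧ (s a).σ ≠ 0)
    (_ : ∀ i k, ‖Y i k - X i k‖ ≤ ρ')
    (_ : ∀ a, 0 < (s a).σ * cx Y (s a))
    (_ : ∀ Z : ι → T3, (∀ i l, ‖lk (Z i) l‖ = ‖lk (Y i) l‖) → Z i0 1 = Y i0 1 →
      Z i0 2 = Y i0 2 → dt (Y i0 2 - Y i0 1) (Y i0 3 - Y i0 1) (Z i0 3 - Y i0 1) = 0 →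
      (∀ i k, ‖Z i k - X i k‖ ≤ ρ) → (∀ a, 0 ≤ (s a).σ * cx Z (s a)) →
      ∀ i k, ‖Z i k - X i k‖ ≤ ρ')
    (_ : ∀ Z : ι → T3, (∀ i k, ‖Z i k - X i k‖ ≤ ρ) → ∀ a, cx Z (s a) = 0 →
      ¬ Disjoint (sg (Z (s a).i) (s a).l) (sg (Z (s a).j) (s a).m))
    (_ : ∀ Z : ι → T3, (∀ i k, ‖Z i k - X i k‖ ≤ ρ) →
      c0 ≤ ‖cr (Z i0 2 - Z i0 1) (Z i0 3 - Z i0 1)‖), Trap Y

/-- statement of CORE -/
def SCore : Prop := ∀ {ι S : Type} [Finite ι] [Finite S] (X : ι → T3) (s : S → Con ι) (i0 : ι)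
    (_ : ∀ a, (s a).Ok X) (_ : cr (X i0 2 - X i0 1) (X i0 3 - X i0 1) ≠ 0)
    (_ : ∀ V : ι → T3, (∀ i, LP (X i) (V i)) →
      (∀ a, 0 ≤ (s a).σ * (af X (s a) (V (s a).i) - bf X (s a) (V (s a).j))) →
      ∃ ω τ : E3, ∀ i k, V i k = cr ω (X i k) + τ),
    ∃ ρ0 > 0, ∀ ρ, 0 < ρ → ρ ≤ ρ0 → ∃ δ > 0, ∀ Y : ι → T3, (∀ i k, ‖Y i k - X i k‖ ≤ δ) →
      ∀ Z : ι → T3, (∀ i l, ‖lk (Z i) l‖ = ‖lk (Y i) l‖) → Z i0 1 = Y i0 1 → Z i0 2 = Y i0 2 →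
      dt (Y i0 2 - Y i0 1) (Y i0 3 - Y i0 1) (Z i0 3 - Y i0 1) = 0 →
      (∀ i k, ‖Z i k - X i k‖ ≤ ρ) → (∀ a, 0 ≤ (s a).σ * cx Z (s a)) →
      ∀ i k, ‖Z i k - X i k‖ ≤ ρ / 2

/-- statement of CROSS -/
def SCross : Prop := ∀ {ι S : Type} [Finite ι] [Finite S] (X : ι → T3) (s : S → Con ι)
    (_ : ∀ a, (s a).Ok X),
    ∃ ρ0 > 0, ∀ Z : ι → T3, (∀ i k, ‖Z i k - X i k‖ ≤ ρ0) → ∀ a, cx Z (s a) = 0 →
      ¬ Disjoint (sg (Z (s a).i) (s a).l) (sg (Z (s a).j) (s a).m)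

end First

/-- FIRST: assembly of CONT, CORE, CROSS -/
theorem First.first_order_of (hcont : First.SCont) (hcore : First.SCore) (hcross : First.SCross)
    {ι S : Type} [Finite ι] [Finite S] (X : ι → T3) (s : S → Con ι) (i0 : ι)
    (hs : ∀ a, (s a).Ok X) (hdeg : cr (X i0 2 - X i0 1) (X i0 3 - X i0 1) ≠ 0)
    (rigid : ∀ V : ι → T3, (∀ i, LP (X i) (V i)) →
      (∀ a, 0 ≤ (s a).σ * (af X (s a) (V (s a).i) - bf X (s a) (V (s a).j))) →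
      ∃ ω τ : E3, ∀ i k, V i k = cr ω (X i k) + τ) :
    ∃ δ > 0, ∀ Y : ι → T3, (∀ i k, ‖Y i k - X i k‖ ≤ δ) → (∀ a, 0 < (s a).σ * cx Y (s a)) →
      Trap Y := by
  obtain ⟨ρ0, hρ0, core⟩ := hcore X s i0 hs hdeg rigid
  obtain ⟨ρ1, hρ1, cross⟩ := hcross X s hs
  set c0 : ℝ := ‖cr (X i0 2 - X i0 1) (X i0 3 - X i0 1)‖ / 2 with hc0
  have hc0p : 0 < c0 := half_pos (norm_pos_iff.2 hdeg)
  have hopen : ∀ᶠ T in 𝓝 (X i0), c0 < ‖cr (T 2 - T 1) (T 3 - T 1)‖ := by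
    refine First.cont_nrm.continuousAt.eventually_const_lt ?_
    rw [hc0]
    exact half_lt_self (norm_pos_iff.2 hdeg)
  obtain ⟨ρ2, hρ2, hball⟩ := Metric.eventually_nhds_iff.1 hopen
  set ρ : ℝ := min ρ0 (min ρ1 (ρ2 / 2)) with hρdef
  have hρ : 0 < ρ := lt_min hρ0 (lt_min hρ1 (half_pos hρ2))
  have hle0 : ρ ≤ ρ0 := min_le_left _ _
  have hle1 : ρ ≤ ρ1 := (min_le_right _ _).trans (min_le_left _ _)
  have hle2 : ρ ≤ ρ2 / 2 := (min_le_right _ _).trans (min_le_right _ _)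
  obtain ⟨δ, hδ, hcor⟩ := core ρ hρ hle0
  refine ⟨min δ (ρ / 2), lt_min hδ (half_pos hρ), fun Y hY hsgn => ?_⟩
  refine hcont X Y s i0 ρ (ρ / 2) c0 (half_lt_self hρ) hc0p
    (fun a => ⟨(hs a).ne, (hs a).sz⟩) (fun i k => (hY i k).trans (min_le_right _ _)) hsgn
    (hcor Y fun i k => (hY i k).trans (min_le_left _ _))
    (fun Z hZ a => cross Z (fun i k => (hZ i k).trans hle1) a) ?_
  intro Z hZ
  refine (hball ?_).le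
  rw [dist_pi_lt_iff hρ2]
  intro k
  rw [dist_eq_norm]
  exact ((hZ i0 k).trans hle2).trans_lt (half_lt_self hρ2)

end Pool.Agent.H834R6.CC
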