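import Pool.Agent.H834R6.CC.Defs

/-! HBASE: every nondegenerate three-link chain comes from five hubs. -/

set_option autoImplicit false
set_option maxHeartbeats 4000000

namespace Pool.Agent.H834R6.CC

open Pool.Agent.H282R2 Set Filter Topology

namespace HBase

/-- the point `(1 - c) u + c v` in coordinates -/
noncomputable def pt (u v : E3) (c : ℝ) : V3 ℝ :=
  (u 0 + c * (v 0 - u 0), u 1 + c * (v 1 - u 1), u 2 + c * (v 2 - u 2))

noncomputable def hh (T : T3) : Hub5 ℝ where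
  A := pt (T 0) (T 1) (1 / 3)
  A' := pt (T 0) (T 1) (2 / 3)
  B := pt (T 1) (T 2) (1 / 2)
  C := pt (T 2) (T 3) (1 / 3)
  C' := pt (T 2) (T 3) (2 / 3)

theorem eDA (T : T3) : hDA (hh T) = -(dt (T 1 - T 0) (T 2 - T 1) (T 3 - T 2)) / 18 := by
  simp only [hDA, hd1, hd3, vdet, vdot, vcr, vsub, hh, pt, dt, PiLp.sub_apply]
  ring

theorem eDC (T : T3) : hDC (hh T) = -(dt (T 1 - T 0) (T 2 - T 1) (T 3 - T 2)) / 18 := by
  simp only [hDC, hd1, hd3, vdet, vdot, vcr, vsub, hh, pt, dt, PiLp.sub_apply]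
  ring

theorem eth (T : T3) : hth (hh T) = -(dt (T 1 - T 0) (T 2 - T 1) (T 3 - T 2)) / 9 := by
  simp only [hth, hd3, vdet, vdot, vcr, vsub, hh, pt, dt, PiLp.sub_apply]
  ring

theorem esh (T : T3) : hsh (hh T) = dt (T 1 - T 0) (T 2 - T 1) (T 3 - T 2) / 18 := by
  simp only [hsh, hd1, vdet, vdot, vcr, vsub, hh, pt, dt, PiLp.sub_apply]
  ring

@[simp] theorem toE0 (v : V3 ℝ) : toE v 0 = v.1 := rfl
@[simp] theorem toE1 (v : V3 ℝ) : toE v 1 = v.2.1 := rfl
@[simp] theorem toE2 (v : V3 ℝ) : toE v 2 = v.2.2 := rfl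

end HBase

open HBase in
theorem hub_base (T : T3) (hT0 : dt (T 1 - T 0) (T 2 - T 1) (T 3 - T 2) ≠ 0) :
    ∃ h : Hub5 ℝ, HubOk h ∧ hT h = T := by
  have e1 := eDA T
  have e2 := eDC T
  have e3 := eth T
  have e4 := esh T
  set D := dt (T 1 - T 0) (T 2 - T 1) (T 3 - T 2) with hD
  have r1 : hth (hh T) / hDC (hh T) = 2 := by
    rw [e3, e2]
    field_simp
    norm_num
  have r2 : hsh (hh T) / hDA (hh T) = -1 := by
    rw [e4, e1]
    field_simp
  have r3 : hDA (hh T) / (hDA (hh T) + hDC (hh T)) = 1 / 2 := by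
    rw [e1, e2]
    field_simp
    norm_num
  have n1 : -D / 18 ≠ 0 := div_ne_zero (neg_ne_zero.2 hT0) (by norm_num)
  have hb1 : hb (hh T) = T 1 := by
    unfold hb
    rw [r1]
    apply ext3 <;> simp [hh, hd1, vsub, pt] <;> ring
  have hc1 : hc (hh T) = T 2 := by
    unfold hc
    rw [r2]
    apply ext3 <;> simp [hh, hd3, vsub, pt] <;> ring
  refine ⟨hh T, ⟨?_, ?_, ?_, ?_, ?_, ?_⟩, ?_⟩
  · rw [e1]; exact n1
  · rw [e2]; exact n1
  · rw [r3]; norm_num
  · rw [r3]; norm_num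
  · rw [r1]; norm_num
  · rw [r2]; norm_num
  · unfold hT
    rw [hb1, hc1]
    funext i
    fin_cases i
    · apply ext3 <;> simp [hh, pt] <;> ring
    · rfl
    · rfl
    · apply ext3 <;> simp [hh, pt] <;> ring

end Pool.Agent.H834R6.CC
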