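import Pool.Agent.H834R6.CC.Eta

/-! # HCONT: the hub conditions are open -/

set_option autoImplicit false
set_option maxHeartbeats 4000000

namespace Pool.Agent.H834R6.CC

open Pool.Agent.H282R2 Set Filter Topology

namespace HCont

theorem toE_cont {f : ℝ → V3 ℝ} (h : Continuous f) : Continuous (fun t => toE (f t)) := by
  unfold toE
  refine (PiLp.continuous_toLp 2 _).comp (continuous_pi fun i => ?_)
  fin_cases i
  · exact h.fst
  · exact h.snd.fst
  · exact h.snd.snd

theorem gen (g : ℝ → Hub5 ℝ) (hA : Continuous fun t => (g t).A)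
    (hA' : Continuous fun t => (g t).A') (hB : Continuous fun t => (g t).B)
    (hC : Continuous fun t => (g t).C) (hC' : Continuous fun t => (g t).C')
    (H : HubOk (g 0)) (U : Set T3) (hU : IsOpen U) (hT0 : hT (g 0) ∈ U) :
    ∀ᶠ t in 𝓝 (0 : ℝ), HubOk (g t) ∧ hT (g t) ∈ U := by
  have a1 := hA.fst
  have a2 := hA.snd.fst
  have a3 := hA.snd.snd
  have b1 := hA'.fst
  have b2 := hA'.snd.fst
  have b3 := hA'.snd.snd
  have c1 := hB.fst
  have c2 := hB.snd.fst
  have c3 := hB.snd.snd
  have d1 := hC.fst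
  have d2 := hC.snd.fst
  have d3 := hC.snd.snd
  have e1 := hC'.fst
  have e2 := hC'.snd.fst
  have e3 := hC'.snd.snd
  have kDA : Continuous fun t => hDA (g t) := by
    unfold hDA hd1 hd3 vdet vdot vcr vsub
    fun_prop
  have kDC : Continuous fun t => hDC (g t) := by
    unfold hDC hd1 hd3 vdet vdot vcr vsub
    fun_prop
  have kth : Continuous fun t => hth (g t) := by
    unfold hth hd3 vdet vdot vcr vsub
    fun_prop
  have ksh : Continuous fun t => hsh (g t) := by
    unfold hsh hd1 vdet vdot vcr vsub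
    fun_prop
  have kd1 : Continuous fun t => hd1 (g t) := by
    unfold hd1 vsub
    fun_prop
  have kd3 : Continuous fun t => hd3 (g t) := by
    unfold hd3 vsub
    fun_prop
  have hsum : hDA (g 0) + hDC (g 0) ≠ 0 := by
    intro h0
    have := H.b1
    rw [h0, div_zero] at this
    exact lt_irrefl _ this
  have k1 : ContinuousAt (fun t => hDA (g t) / (hDA (g t) + hDC (g t))) 0 :=
    kDA.continuousAt.div (kDA.add kDC).continuousAt hsum
  have k2 : ContinuousAt (fun t => hth (g t) / hDC (g t)) 0 :=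
    kth.continuousAt.div kDC.continuousAt H.c
  have k3 : ContinuousAt (fun t => hsh (g t) / hDA (g t)) 0 :=
    ksh.continuousAt.div kDA.continuousAt H.a
  have kb : ContinuousAt (fun t => hb (g t)) 0 := by
    unfold hb
    exact (toE_cont hA).continuousAt.add (k2.smul (toE_cont kd1).continuousAt)
  have kc : ContinuousAt (fun t => hc (g t)) 0 := by
    unfold hc
    exact (toE_cont hC).continuousAt.add (k3.smul (toE_cont kd3).continuousAt)
  have kT : ContinuousAt (fun t => hT (g t)) 0 := by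
    rw [continuousAt_pi]
    intro i
    fin_cases i
    · exact kb.add (((toE_cont hA).continuousAt.sub kb).const_smul (3 / 2 : ℝ))
    · exact kb
    · exact kc
    · exact kc.add (((toE_cont hC').continuousAt.sub kc).const_smul (3 / 2 : ℝ))
  filter_upwards [kDA.continuousAt.eventually_ne H.a, kDC.continuousAt.eventually_ne H.c,
    k1.eventually (lt_mem_nhds H.b1), k1.eventually (gt_mem_nhds H.b2),
    k2.eventually (lt_mem_nhds H.t), k3.eventually (gt_mem_nhds H.s),
    kT.eventually (hU.mem_nhds hT0)] with t h1 h2 h3 h4 h5 h6 h7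
  exact ⟨⟨h1, h2, h3, h4, h5, h6⟩, h7⟩

theorem etaT_cont (η0 : Fin 13 → V3 ℝ) (x : Fin 13) : Continuous fun t => etaT η0 t x := by
  unfold etaT vadd vsmul vsub
  fun_prop

theorem hub5_base (h : Hub5 ℝ) (p : PI) : hub5 (baseEta h) p = h := by
  obtain ⟨i, j, k, l⟩ := p
  obtain ⟨A, A', B, C, C'⟩ := h
  simp only [hub5, Hub5.mk.injEq]
  refine ⟨?_, ?_, ?_, ?_, ?_⟩
  · fin_cases i <;> rfl
  · fin_cases j <;> rfl
  · rfl
  · fin_cases k <;> rfl
  · fin_cases l <;> rfl

theorem etaT_zero (η0 : Fin 13 → V3 ℝ) : etaT η0 0 = η0 := by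
  funext x
  unfold etaT vadd vsmul vsub
  simp

end HCont

/-- HCONT -/
theorem hub_cont (h : Hub5 ℝ) (H : HubOk h) (U : Set T3) (hU : IsOpen U) (hT0 : hT h ∈ U) :
    ∃ δ > 0, ∀ t, 0 < t → t < δ → ∀ p, HubOk (hub5 (etaT (baseEta h) t) p) ∧
      hT (hub5 (etaT (baseEta h) t) p) ∈ U := by
  have key : ∀ᶠ t in 𝓝 (0 : ℝ), ∀ p, HubOk (hub5 (etaT (baseEta h) t) p) ∧
      hT (hub5 (etaT (baseEta h) t) p) ∈ U := by
    rw [eventually_all]
    intro p
    have h0 : hub5 (etaT (baseEta h) 0) p = h := by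
      rw [HCont.etaT_zero, HCont.hub5_base]
    refine HCont.gen (fun t => hub5 (etaT (baseEta h) t) p) (HCont.etaT_cont _ _)
      (HCont.etaT_cont _ _) (HCont.etaT_cont _ _) (HCont.etaT_cont _ _) (HCont.etaT_cont _ _)
      ?_ U hU ?_
    · rw [h0]
      exact H
    · rw [h0]
      exact hT0
  rw [Metric.eventually_nhds_iff] at key
  obtain ⟨δ, hδ, hk⟩ := key
  refine ⟨δ, hδ, fun t ht0 ht p => hk ?_ p⟩
  rw [Real.dist_eq, sub_zero, abs_of_pos ht0]
  exact ht

end Pool.Agent.H834R6.CC
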