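import Pool.Agent.H834R6.CC.Defs

/-!
# The geometric chain through five hubs
-/

set_option autoImplicit false
set_option maxHeartbeats 4000000

namespace Pool.Agent.H834R6.CC

open Pool.Agent.H282R2 Set Filter Topology

namespace HGeo

section ring
variable {R : Type} [CommRing R]

theorem q_id1 (h : Hub5 R) :
    hq h = vadd (vsmul (hDC h) (vsub h.A h.B)) (vsmul (hth h) (hd1 h)) := by
  simp only [hq, hDC, hth, hd1, hd3, vadd, vsmul, vsub, vcr, vdet, vdot]
  refine Prod.ext ?_ (Prod.ext ?_ ?_) <;> simp only <;> ring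

theorem q_id2 (h : Hub5 R) :
    hq h = vsmul (-1) (vadd (vsmul (hDA h) (vsub h.C h.B)) (vsmul (hsh h) (hd3 h))) := by
  simp only [hq, hDA, hsh, hd1, hd3, vadd, vsmul, vsub, vcr, vdet, vdot]
  refine Prod.ext ?_ (Prod.ext ?_ ?_) <;> simp only <;> ring

theorem q_det (h : Hub5 R) : vdet (hd1 h) (hd3 h) (hq h) = -(hDA h * hDC h) := by
  simp only [hq, hDA, hDC, hd1, hd3, vadd, vsmul, vsub, vcr, vdet, vdot]
  ring

theorem vdot_add (a b c : V3 R) : vdot (vadd a b) c = vdot a c + vdot b c := by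
  simp only [vadd, vdot]; ring

theorem vdot_sub (a b c : V3 R) : vdot (vsub a b) c = vdot a c - vdot b c := by
  simp only [vsub, vdot]; ring

theorem vdot_smul (r : R) (a c : V3 R) : vdot (vsmul r a) c = r * vdot a c := by
  simp only [vsmul, vdot]; ring

theorem vdot_cr_left (a b : V3 R) : vdot (vcr a b) a = 0 := by
  simp only [vcr, vdot]; ring

theorem vdot_cr_right (a b : V3 R) : vdot (vcr a b) b = 0 := by
  simp only [vcr, vdot]; ring

theorem vdot_cr_cyc (a b c : V3 R) : vdot (vcr a b) c = vdet c a b := by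
  simp only [vcr, vdot, vdet]; ring

theorem vdet_cyc (a b c : V3 R) : vdet a b c = vdet b c a := by
  simp only [vcr, vdot, vdet]; ring

theorem psi_d1 (h : Hub5 R) :
    vdot (hpsi h) (hd1 h) = -(hDA h * hDA h * hDC h) * vdot (hq h) (hd1 h) := by
  unfold hpsi
  rw [vdot_sub, vdot_smul, vdot_smul, vdot_cr_right, vdot_cr_cyc, q_det]
  ring

theorem psi_d3 (h : Hub5 R) :
    vdot (hpsi h) (hd3 h) = (hDA h * hDC h * hDC h) * vdot (hq h) (hd3 h) := by
  unfold hpsi
  rw [vdot_sub, vdot_smul, vdot_smul, vdot_cr_left, vdot_cr_cyc, vdet_cyc (hd3 h),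
    vdet_cyc (hq h), q_det]
  ring

end ring

@[simp] theorem toE0 (v : V3 ℝ) : toE v 0 = v.1 := rfl
@[simp] theorem toE1 (v : V3 ℝ) : toE v 1 = v.2.1 := rfl
@[simp] theorem toE2 (v : V3 ℝ) : toE v 2 = v.2.2 := rfl

theorem dt_toE (a b c : V3 ℝ) : dt (toE a) (toE b) (toE c) = vdet a b c := by
  simp only [dt, toE0, toE1, toE2, vdet, vdot, vcr]

theorem toE_add (a b : V3 ℝ) : toE (vadd a b) = toE a + toE b := by
  apply ext3 <;> simp [vadd]

theorem toE_sub (a b : V3 ℝ) : toE (vsub a b) = toE a - toE b := by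
  apply ext3 <;> simp [vsub]

theorem toE_smul (c : ℝ) (a : V3 ℝ) : toE (vsmul c a) = c • toE a := by
  apply ext3 <;> simp [vsmul]

theorem b_sub (h : Hub5 ℝ) (hc : hDC h ≠ 0) : hb h - toE h.B = (1 / hDC h) • toE (hq h) := by
  have h1 := congrArg toE (q_id1 h)
  rw [toE_add, toE_smul, toE_smul, toE_sub] at h1
  rw [h1, smul_add, smul_smul, smul_smul, one_div, inv_mul_cancel₀ hc, one_smul]
  unfold hb
  rw [show (hDC h)⁻¹ * hth h = hth h / hDC h by rw [div_eq_inv_mul]]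
  abel

theorem c_sub (h : Hub5 ℝ) (ha : hDA h ≠ 0) : hc h - toE h.B = -((1 / hDA h) • toE (hq h)) := by
  have h1 := congrArg toE (q_id2 h)
  rw [toE_smul, toE_add, toE_smul, toE_smul, toE_sub] at h1
  rw [h1, neg_smul, one_smul, smul_neg, neg_neg, smul_add, smul_smul, smul_smul, one_div,
    inv_mul_cancel₀ ha, one_smul]
  unfold hc
  rw [show (hDA h)⁻¹ * hsh h = hsh h / hDA h by rw [div_eq_inv_mul]]
  abel

theorem b_sub_c (h : Hub5 ℝ) (ha : hDA h ≠ 0) (hc' : hDC h ≠ 0) :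
    hb h - hc h = ((hDA h + hDC h) / (hDA h * hDC h)) • toE (hq h) := by
  have h1 := b_sub h hc'
  have h2 := c_sub h ha
  have h3 : hb h - hc h = (hb h - toE h.B) - (hc h - toE h.B) := by abel
  rw [h3, h1, h2, sub_neg_eq_add, ← add_smul]
  congr 1
  field_simp

theorem sum_ne (h : Hub5 ℝ) (H : HubOk h) : hDA h + hDC h ≠ 0 := by
  intro h0
  have := H.b1
  rw [h0, div_zero] at this
  exact lt_irrefl _ this

end HGeo

open HGeo

theorem hub_geo (h : Hub5 ℝ) (H : HubOk h) :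
    (∀ k, 0 < hθ h k ∧ hθ h k < 1) ∧
    (∀ k, ptOn (hT h) (slotLink k) (hθ h k) = hpt h k) ∧
    (lk (hT h) 0 = ((3 / 2) * (hth h / hDC h)) • toE (hd1 h)) ∧
    (lk (hT h) 1 = (-((hDA h + hDC h) / (hDA h * hDC h))) • toE (hq h)) ∧
    (lk (hT h) 2 = ((3 / 2) * (1 - hsh h / hDA h)) • toE (hd3 h)) ∧
    dt (toE (hd1 h)) (toE (hd3 h)) (toE (hq h)) ≠ 0 := by
  have ha := H.a
  have hc' := H.c
  have hs := sum_ne h H
  have ht := H.t
  have hs' := H.s
  have hT0 : hT h 0 = hb h + (3 / 2 : ℝ) • (toE h.A - hb h) := rfl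
  have hT1 : hT h 1 = hb h := rfl
  have hT2 : hT h 2 = hc h := rfl
  have hT3 : hT h 3 = hc h + (3 / 2 : ℝ) • (toE h.C' - hc h) := rfl
  have hd1e : toE (hd1 h) = toE h.A' - toE h.A := toE_sub _ _
  have hd3e : toE (hd3 h) = toE h.C' - toE h.C := toE_sub _ _
  have hbe : hb h = toE h.A + (hth h / hDC h) • toE (hd1 h) := rfl
  have hce : hc h = toE h.C + (hsh h / hDA h) • toE (hd3 h) := rfl
  set t := hth h / hDC h with htd
  set s := hsh h / hDA h with hsd
  have ht0 : t ≠ 0 := (zero_lt_one.trans ht).ne'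
  have hs1 : s - 1 ≠ 0 := by
    have : s - 1 < 0 := by linarith
    exact this.ne
  refine ⟨?_, ?_, ?_, ?_, ?_, ?_⟩
  · intro k
    fin_cases k
    · show 0 < (1 / 3 : ℝ) ∧ (1 / 3 : ℝ) < 1
      norm_num
    · show 0 < 1 - (2 / 3) * ((t - 1) / t) ∧ 1 - (2 / 3) * ((t - 1) / t) < 1
      have h1 : 0 < (t - 1) / t := div_pos (by linarith) (by linarith)
      have h2 : (t - 1) / t < 1 := by rw [div_lt_one (by linarith)]; linarith
      constructor <;> linarith
    · exact ⟨H.b1, H.b2⟩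
    · show 0 < (2 / 3) * (s / (s - 1)) ∧ (2 / 3) * (s / (s - 1)) < 1
      have h1 : 0 < s / (s - 1) := div_pos_of_neg_of_neg hs' (by linarith)
      have h2 : s / (s - 1) < 1 := by
        rw [div_lt_one_of_neg (by linarith)]
        linarith
      constructor <;> linarith
    · show 0 < (2 / 3 : ℝ) ∧ (2 / 3 : ℝ) < 1
      norm_num
  · intro k
    fin_cases k
    · show (1 - (1 / 3 : ℝ)) • hT h 0 + (1 / 3 : ℝ) • hT h 1 = toE h.A
      rw [hT0, hT1]
      module
    · show (1 - (1 - (2 / 3) * ((t - 1) / t))) • hT h 0 + (1 - (2 / 3) * ((t - 1) / t)) • hT h 1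
        = toE h.A'
      have h1 : (1 - (1 - (2 / 3) * ((t - 1) / t))) • hT h 0 +
          (1 - (2 / 3) * ((t - 1) / t)) • hT h 1 =
          hb h + ((t - 1) / t) • (toE h.A - hb h) := by
        rw [hT0, hT1]
        module
      rw [h1, hbe, sub_add_cancel_left, smul_neg, smul_smul, div_mul_cancel₀ _ ht0]
      rw [hd1e]
      module
    · show (1 - hDA h / (hDA h + hDC h)) • hT h 1 + (hDA h / (hDA h + hDC h)) • hT h 2 = toE h.B
      have h1 : (1 - hDA h / (hDA h + hDC h)) • hT h 1 + (hDA h / (hDA h + hDC h)) • hT h 2 =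
          toE h.B + (hb h - toE h.B) - (hDA h / (hDA h + hDC h)) • (hb h - hc h) := by
        rw [hT1, hT2]
        module
      rw [h1, b_sub h hc', b_sub_c h ha hc', smul_smul]
      have h2 : hDA h / (hDA h + hDC h) * ((hDA h + hDC h) / (hDA h * hDC h)) = 1 / hDC h := by
        field_simp
      rw [h2]
      abel
    · show (1 - (2 / 3) * (s / (s - 1))) • hT h 2 + ((2 / 3) * (s / (s - 1))) • hT h 3 = toE h.C
      have h1 : (1 - (2 / 3) * (s / (s - 1))) • hT h 2 + ((2 / 3) * (s / (s - 1))) • hT h 3 =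
          hc h + (s / (s - 1)) • (toE h.C' - hc h) := by
        rw [hT2, hT3]
        module
      have h2 : toE h.C' - hc h = (-(s - 1)) • toE (hd3 h) := by
        rw [hce, hd3e]
        module
      rw [h1, h2, smul_smul, mul_neg, div_mul_cancel₀ _ hs1, hce]
      module
    · show (1 - (2 / 3 : ℝ)) • hT h 2 + (2 / 3 : ℝ) • hT h 3 = toE h.C'
      rw [hT2, hT3]
      module
  · show hT h 1 - hT h 0 = _
    rw [hT0, hT1, hbe]
    module
  · show hT h 2 - hT h 1 = _
    rw [hT2, hT1, neg_smul, ← b_sub_c h ha hc']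
    abel
  · show hT h 3 - hT h 2 = _
    rw [hT3, hT2, hce, hd3e]
    module
  · rw [dt_toE, q_det]
    exact neg_ne_zero.2 (mul_ne_zero ha hc')

theorem hub_perp {R : Type} [CommRing R] (h : Hub5 R) :
    vdot (hf1 h) (hd1 h) = 0 ∧ vdot (hf3 h) (hd3 h) = 0 ∧ vdot (hpsi h) (hq h) = 0 := by
  refine ⟨?_, ?_, ?_⟩
  · unfold hf1
    rw [vdot_add, vdot_smul, psi_d1]
    ring
  · unfold hf3
    rw [vdot_add, vdot_smul, psi_d3]
    ring
  · unfold hpsi
    rw [vdot_sub, vdot_smul, vdot_smul, vdot_cr_right, vdot_cr_left]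
    ring

end Pool.Agent.H834R6.CC
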