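import Pool.Agent.H834R6.CC.Defs

/-!
# Cutting chains: nondegenerate three-link chains are dense
-/

set_option autoImplicit false
set_option maxHeartbeats 4000000

namespace Pool.Agent.H834R6.CC

open Pool.Agent.H282R2 Set Filter Topology

namespace NDegx

/-- the direction of the perturbation -/
noncomputable def Ts : T3 := ![0, !₂[1, 0, 0], !₂[1, 1, 0], !₂[1, 1, 1]]

/-- the perturbed chain -/
noncomputable def P (T : T3) (t : ℝ) : T3 := T + t • Ts

/-- its determinant -/
noncomputable def D (T : T3) (t : ℝ) : ℝ :=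
  dt (P T t 1 - P T t 0) (P T t 2 - P T t 1) (P T t 3 - P T t 2)

theorem D_eq (T : T3) (t : ℝ) : D T t =
    dt ((T 1 - T 0) + t • !₂[1, 0, 0]) ((T 2 - T 1) + t • !₂[0, 1, 0])
      ((T 3 - T 2) + t • !₂[0, 0, 1]) := by
  unfold D
  congr 1
  · apply ext3 <;> simp [P, Ts] <;> ring
  · apply ext3 <;> simp [P, Ts] <;> ring
  · apply ext3 <;> simp [P, Ts] <;> ring

theorem diff (T : T3) (h : ℝ) :
    D T (4 * h) - 3 * D T (3 * h) + 3 * D T (2 * h) - D T h = 6 * h ^ 3 := by
  simp only [D_eq]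
  simp [dt]
  ring

end NDegx

/-- NDEG: nondegenerate chains are dense -/
theorem nondeg_dense (U : Set T3) (hU : IsOpen U) (hne : U.Nonempty) :
    ∃ T ∈ U, dt (T 1 - T 0) (T 2 - T 1) (T 3 - T 2) ≠ 0 := by
  obtain ⟨T, hT⟩ := hne
  by_contra hcon
  push Not at hcon
  have hc : Continuous (fun t : ℝ => NDegx.P T t) := by
    unfold NDegx.P
    exact continuous_const.add (continuous_id.smul continuous_const)
  have hopen : IsOpen ((fun t : ℝ => NDegx.P T t) ⁻¹' U) := hU.preimage hc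
  have h0 : (0 : ℝ) ∈ (fun t : ℝ => NDegx.P T t) ⁻¹' U := by
    simp [NDegx.P, hT]
  obtain ⟨ε, hε, hball⟩ := Metric.isOpen_iff.mp hopen 0 h0
  have hz : ∀ t : ℝ, 0 < t → t < ε → NDegx.D T t = 0 := by
    intro t ht1 ht2
    have hmem : t ∈ Metric.ball (0 : ℝ) ε := by
      rw [Metric.mem_ball, Real.dist_eq, sub_zero, abs_of_pos ht1]
      exact ht2
    exact hcon _ (hball hmem)
  have h1 := NDegx.diff T (ε / 8)
  rw [hz (4 * (ε / 8)) (by linarith) (by linarith), hz (3 * (ε / 8)) (by linarith) (by linarith),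
    hz (2 * (ε / 8)) (by linarith) (by linarith), hz (ε / 8) (by linarith) (by linarith)] at h1
  have h2 : 0 < 6 * (ε / 8) ^ 3 := by positivity
  linarith

end Pool.Agent.H834R6.CC
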