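import Pool.Agent.H834R6.CC.Defs

/-!
# NumAB: numerical check of the conditions A and B
-/

set_option autoImplicit false
set_option maxHeartbeats 4000000
set_option maxRecDepth 100000

namespace Pool.Agent.H834R6.CC

namespace NumAB

theorem chkA : ∀ p : PI, ∀ k : Fin 5, condA etaZ p k ≠ 0 := by
  decide +kernel

theorem chkB : ∀ p : PI, ∀ k : Fin 5, ∀ e : Fin 2, condB etaZ p k e ≠ 0 := by
  decide +kernel

end NumAB

theorem num_ab : (∀ p k, condA etaZ p k ≠ 0) ∧ (∀ p k e, condB etaZ p k e ≠ 0) :=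
  ⟨NumAB.chkA, NumAB.chkB⟩

end Pool.Agent.H834R6.CC
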