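import Pool.Agent.H834R6.CC.PatG1
import Pool.Agent.H834R6.CC.First

set_option autoImplicit false
set_option maxHeartbeats 4000000

namespace Pool.Agent.H834R6.CC

open Pool.Agent.H282R2 Set Filter Topology

/-- PATG: from patterns to gadgets -/
theorem pat_gadget {P S : Type} [Fintype P] [Fintype S] [DecidableEq P] (X : P → T3)
    (s : S → Con P) (h : PatOk X s) (p0 : P)
    (hdeg : cr (X p0 2 - X p0 1) (X p0 3 - X p0 1) ≠ 0) (U : Set T3) (hU : IsOpen U)
    (hX : ∀ p, X p ∈ U) :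
    ∃ Y : P × Fin 5 → T3, (∀ x, Y x ∈ U) ∧ ∀ᶠ Z in 𝓝 Y, Trap Z :=
  PatG.pat_gadget_of @first_order X s h p0 hdeg U hU hX

end Pool.Agent.H834R6.CC
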