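import Pool.Agent.H834R6.CC.Defs

set_option autoImplicit false
set_option maxHeartbeats 1000000

namespace Pool.Agent.H834R6.CC

open Pool.Agent.H282R2 Set Filter Topology

namespace HDet

theorem par {L x : E3} (hL : L ≠ 0) (h : cr L x = 0) : ∃ a : ℝ, x = a • L := by
  have hn : ‖L‖ ^ 2 ≠ 0 := by
    have := norm_ne_zero_iff.2 hL
    positivity
  have key : ‖L‖ ^ 2 • x = (inner ℝ L x : ℝ) • L - cr L (cr L x) := by
    rw [norm_sq3, inner3]
    apply ext3 <;> simp <;> ring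
  refine ⟨(‖L‖ ^ 2)⁻¹ * inner ℝ L x, ?_⟩
  have h2 : cr L (0 : E3) = 0 := by apply ext3 <;> simp
  rw [h, h2, sub_zero] at key
  rw [mul_smul, ← key, smul_smul, inv_mul_cancel₀ hn, one_smul]

theorem perp {L x : E3} (hL : L ≠ 0) (h : cr L x = 0) (h' : (inner ℝ L x : ℝ) = 0) : x = 0 := by
  obtain ⟨a, rfl⟩ := par hL h
  rw [inner_smul_right, real_inner_self_eq_norm_sq] at h'
  have hn : ‖L‖ ^ 2 ≠ 0 := by
    have := norm_ne_zero_iff.2 hL
    positivity
  rcases mul_eq_zero.1 h' with h1 | h1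
  · rw [h1, zero_smul]
  · exact absurd h1 hn

theorem two {L U W : E3} {θ θ' : ℝ} (hne : θ ≠ θ') (h1 : cr L ((1 - θ) • U + θ • W) = 0)
    (h2 : cr L ((1 - θ') • U + θ' • W) = 0) : cr L U = 0 ∧ cr L W = 0 := by
  rw [cr_add_2, cr_smul_2, cr_smul_2] at h1 h2
  have h3 : (θ' - θ) • cr L U = 0 := by
    have : (θ' - θ) • cr L U = θ' • ((1 - θ) • cr L U + θ • cr L W) -
        θ • ((1 - θ') • cr L U + θ' • cr L W) := by module
    rw [this, h1, h2]; simp
  have h4 : (θ' - θ) • cr L W = 0 := by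
    have : (θ' - θ) • cr L W = (1 - θ) • ((1 - θ') • cr L U + θ' • cr L W) -
        (1 - θ') • ((1 - θ) • cr L U + θ • cr L W) := by module
    rw [this, h1, h2]; simp
  have h5 : θ' - θ ≠ 0 := sub_ne_zero.2 (Ne.symm hne)
  exact ⟨(smul_eq_zero.1 h3).resolve_left h5, (smul_eq_zero.1 h4).resolve_left h5⟩

theorem dt_links (h : Hub5 ℝ) : dt (lk (hT h) 0) (lk (hT h) 1) (lk (hT h) 2) =
    -(9 / 4) * (hth h / hDC h) * (1 - hsh h / hDA h) * (hDA h + hDC h) := by
  generalize hr : hth h / hDC h = r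
  generalize hs : hsh h / hDA h = s
  have e0 : lk (hT h) 0 = ((3 / 2) * r) • toE (hd1 h) := by
    simp only [lk, hT, hb, hc, hr]
    simp only [Fin.succ_zero_eq_one, Fin.castSucc_zero, Matrix.cons_val_zero, Matrix.cons_val_one]
    module
  have e1 : lk (hT h) 1 = (toE h.C - toE h.A) + s • toE (hd3 h) - r • toE (hd1 h) := by
    have t1 : (hT h) (Fin.succ 1) = hc h := rfl
    have t2 : (hT h) (Fin.castSucc 1) = hb h := rfl
    rw [lk, t1, t2, hb, hc, hr, hs]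
    module
  have e2 : lk (hT h) 2 = ((3 / 2) * (1 - s)) • toE (hd3 h) := by
    have t1 : (hT h) (Fin.succ 2) = hc h + (3 / 2 : ℝ) • (toE h.C' - hc h) := rfl
    have t2 : (hT h) (Fin.castSucc 2) = hc h := rfl
    have t3 : toE h.C' = toE h.C + toE (hd3 h) := by
      apply ext3 <;> simp [toE, hd3, vsub]
    rw [lk, t1, t2, hc, hs, t3]
    module
  rw [e0, e1, e2]
  simp [dt, toE, hDA, hDC, hd1, hd3, vdet, vdot, vcr, vsub]
  ring

theorem dt_ne (h : Hub5 ℝ) (H : HubOk h) :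
    dt (lk (hT h) 0) (lk (hT h) 1) (lk (hT h) 2) ≠ 0 := by
  rw [dt_links]
  have h1 : hDA h + hDC h ≠ 0 := by
    intro h0
    have := H.b1
    rw [h0] at this
    simp at this
  have h2 : 0 < hth h / hDC h := lt_trans one_pos H.t
  have h3 : 0 < 1 - hsh h / hDA h := by have := H.s; linarith
  exact mul_ne_zero (mul_ne_zero (mul_ne_zero (by norm_num) h2.ne') h3.ne') h1

end HDet

open HDet in
/-- HDET -/
theorem hub_det (h : Hub5 ℝ) (H : HubOk h) (V : T3) (hV : LP (hT h) V)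
    (h0 : ∀ k, cr (lk (hT h) (slotLink k)) (ptOn V (slotLink k) (hθ h k)) = 0) : V = 0 := by
  have hd := dt_ne h H
  set L0 := lk (hT h) 0 with hL0
  set L1 := lk (hT h) 1 with hL1
  set L2 := lk (hT h) 2 with hL2
  have n0 : L0 ≠ 0 := by
    intro h1; rw [h1] at hd; apply hd; simp [dt]
  have n2 : L2 ≠ 0 := by
    intro h1; rw [h1] at hd; apply hd; simp [dt]
  have k0 : cr L0 ((1 - hθ h 0) • V 0 + hθ h 0 • V 1) = 0 := h0 0
  have k1 : cr L0 ((1 - hθ h 1) • V 0 + hθ h 1 • V 1) = 0 := h0 1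
  have k2 : cr L1 ((1 - hθ h 2) • V 1 + hθ h 2 • V 2) = 0 := h0 2
  have k3 : cr L2 ((1 - hθ h 3) • V 2 + hθ h 3 • V 3) = 0 := h0 3
  have k4 : cr L2 ((1 - hθ h 4) • V 2 + hθ h 4 • V 3) = 0 := h0 4
  have p0 : (inner ℝ L0 (V 1 - V 0) : ℝ) = 0 := hV 0
  have p2 : (inner ℝ L2 (V 3 - V 2) : ℝ) = 0 := hV 2
  have r1 : 1 < hth h / hDC h := H.t
  have s1 : hsh h / hDA h < 0 := H.s
  have t0 : hθ h 0 = 1 / 3 := rfl
  have t1 : hθ h 1 = 1 - (2 / 3) * ((hth h / hDC h - 1) / (hth h / hDC h)) := rfl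
  have t2 : hθ h 2 = hDA h / (hDA h + hDC h) := rfl
  have t3 : hθ h 3 = (2 / 3) * ((hsh h / hDA h) / (hsh h / hDA h - 1)) := rfl
  have t4 : hθ h 4 = 2 / 3 := rfl
  have ne01 : hθ h 0 ≠ hθ h 1 := by
    rw [t0, t1]
    generalize hth h / hDC h = r at r1
    intro he
    have h2 : (r - 1) / r = 1 := by linarith
    have h3 : r ≠ 0 := by linarith
    rw [div_eq_one_iff_eq h3] at h2
    linarith
  have ne34 : hθ h 3 ≠ hθ h 4 := by
    rw [t3, t4]
    generalize hsh h / hDA h = s at s1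
    intro he
    have h2 : s / (s - 1) = 1 := by linarith
    have h3 : s - 1 ≠ 0 := by linarith
    rw [div_eq_one_iff_eq h3] at h2
    linarith
  obtain ⟨c0, c1⟩ := two ne01 k0 k1
  obtain ⟨c2, c3⟩ := two ne34 k3 k4
  have v10 : V 1 - V 0 = 0 := by
    apply perp n0 _ p0
    have : cr L0 (V 1 - V 0) = cr L0 (V 1) - cr L0 (V 0) := by apply ext3 <;> simp <;> ring
    rw [this, c0, c1, sub_zero]
  have v32 : V 3 - V 2 = 0 := by
    apply perp n2 _ p2
    have : cr L2 (V 3 - V 2) = cr L2 (V 3) - cr L2 (V 2) := by apply ext3 <;> simp <;> ring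
    rw [this, c2, c3, sub_zero]
  obtain ⟨a, ha⟩ := par n0 c1
  obtain ⟨b, hb⟩ := par n2 c2
  rw [t2] at k2
  have b1 := H.b1
  have b2 := H.b2
  generalize hDA h / (hDA h + hDC h) = τ at k2 b1 b2
  have ea : (1 - τ) * a * dt L0 L1 L2 = 0 := by
    have h1 : (inner ℝ L2 (cr L1 ((1 - τ) • V 1 + τ • V 2)) : ℝ) = 0 := by
      rw [k2, inner_zero_right]
    rw [ha, hb, ← dt_eq_inner] at h1
    have h2 : dt L2 L1 ((1 - τ) • a • L0 + τ • b • L2) = -((1 - τ) * a * dt L0 L1 L2) := by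
      simp [dt]; ring
    rw [h2] at h1
    linarith
  have eb : τ * b * dt L0 L1 L2 = 0 := by
    have h1 : (inner ℝ L0 (cr L1 ((1 - τ) • V 1 + τ • V 2)) : ℝ) = 0 := by
      rw [k2, inner_zero_right]
    rw [ha, hb, ← dt_eq_inner] at h1
    have h2 : dt L0 L1 ((1 - τ) • a • L0 + τ • b • L2) = τ * b * dt L0 L1 L2 := by
      simp [dt]; ring
    rw [h2] at h1
    exact h1
  have a0 : a = 0 := by
    rcases mul_eq_zero.1 ea with h1 | h1
    · rcases mul_eq_zero.1 h1 with h2 | h2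
      · linarith
      · exact h2
    · exact absurd h1 hd
  have b0 : b = 0 := by
    rcases mul_eq_zero.1 eb with h1 | h1
    · rcases mul_eq_zero.1 h1 with h2 | h2
      · linarith
      · exact h2
    · exact absurd h1 hd
  have V1 : V 1 = 0 := by rw [ha, a0, zero_smul]
  have V2 : V 2 = 0 := by rw [hb, b0, zero_smul]
  have V0 : V 0 = 0 := by rw [V1, zero_sub, neg_eq_zero] at v10; exact v10
  have V3 : V 3 = 0 := by rw [V2, sub_zero] at v32; exact v32
  funext k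
  fin_cases k
  · exact V0
  · exact V1
  · exact V2
  · exact V3

end Pool.Agent.H834R6.CC
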