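import Pool.Agent.H834R6.CC.Defs

/-!
HDISP: displacements of the hubs.
-/

set_option autoImplicit false
set_option maxHeartbeats 4000000

namespace Pool.Agent.H834R6.CC

open Pool.Agent.H282R2 Set Filter Topology

namespace HDisp

/-- the slot of a hub -/
def slotH (h : Fin 13) : Fin 5 :=
  if h.val < 3 then 0 else if h.val < 6 then 1 else if h.val = 6 then 2
    else if h.val < 10 then 3 else 4

/-- the references of a hub -/
def refH (h : Fin 13) (m : Fin 3) : PI :=
  if h.val < 3 then (Fin.ofNat 3 h.val, m, 0, 0)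
  else if h.val < 6 then (m, Fin.ofNat 3 (h.val - 3), 0, 0)
  else if h.val = 6 then (m, m, m, m)
  else if h.val < 10 then (0, 0, Fin.ofNat 3 (h.val - 7), m)
  else (0, 0, m, Fin.ofNat 3 (h.val - 10))

theorem factA : ∀ (p : PI) (k : Fin 5), slotH (hubIx p k) = k := by
  decide +kernel

theorem factB : ∀ (p : PI) (k : Fin 5) (e : Fin 2), ∃ m, partner p k e = refH (hubIx p k) m := by
  decide +kernel

theorem factD : ∀ h : Fin 13, partner (refH h 0) (slotH h) 0 = refH h 1 ∧
    partner (refH h 0) (slotH h) 1 = refH h 2 ∧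
    ∃ e, partner (refH h 1) (slotH h) e = refH h 2 := by
  decide +kernel

theorem dt_toE (a b c : V3 ℝ) : dt (toE a) (toE b) (toE c) = vdet a b c := by
  simp [dt, toE, vdet, vdot, vcr]

/-- two equations imply parallelism -/
theorem par2 (d e1 e2 y : E3) (h : dt d e1 e2 ≠ 0) (h1 : (inner ℝ (cr d e1) y : ℝ) = 0)
    (h2 : (inner ℝ (cr d e2) y : ℝ) = 0) : cr d y = 0 := by
  have key : dt d e1 e2 • cr d y = 0 := by
    rw [inner3] at h1 h2
    simp only [cr_zero, cr_one, cr_two] at h1 h2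
    apply ext3
    · simp only [PiLp.smul_apply, smul_eq_mul, cr_zero, PiLp.zero_apply, dt]
      linear_combination (-(e2 1 * d 2 - e2 2 * d 1)) * h1 - (d 1 * e1 2 - d 2 * e1 1) * h2
    · simp only [PiLp.smul_apply, smul_eq_mul, cr_one, PiLp.zero_apply, dt]
      linear_combination (-(e2 2 * d 0 - e2 0 * d 2)) * h1 - (d 2 * e1 0 - d 0 * e1 2) * h2
    · simp only [PiLp.smul_apply, smul_eq_mul, cr_two, PiLp.zero_apply, dt]
      linear_combination (-(e2 0 * d 1 - e2 1 * d 0)) * h1 - (d 0 * e1 1 - d 1 * e1 0) * h2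
  exact (smul_eq_zero.1 key).resolve_left h

/-- three lines meet -/
theorem meet3 (d0 d1 d2 x0 x1 x2 : E3) (h : dt d0 d1 d2 ≠ 0)
    (h01 : (inner ℝ (cr d0 d1) (x0 - x1) : ℝ) = 0) (h02 : (inner ℝ (cr d0 d2) (x0 - x2) : ℝ) = 0)
    (h12 : (inner ℝ (cr d1 d2) (x1 - x2) : ℝ) = 0) :
    ∃ D : E3, cr d0 (x0 - D) = 0 ∧ cr d1 (x1 - D) = 0 ∧ cr d2 (x2 - D) = 0 := by
  set Δ := dt d0 d1 d2 with hΔ
  set D : E3 := (Δ⁻¹ * inner ℝ (cr d1 d2) x1) • d0 - (Δ⁻¹ * inner ℝ (cr d0 d2) x0) • d1 +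
    (Δ⁻¹ * inner ℝ (cr d0 d1) x0) • d2 with hD
  have e00 : (inner ℝ (cr d0 d1) d0 : ℝ) = 0 := by rw [inner3]; simp; ring
  have e01 : (inner ℝ (cr d0 d1) d1 : ℝ) = 0 := by rw [inner3]; simp; ring
  have e02 : (inner ℝ (cr d0 d1) d2 : ℝ) = Δ := by rw [inner3, hΔ]; simp [dt]; ring
  have f00 : (inner ℝ (cr d0 d2) d0 : ℝ) = 0 := by rw [inner3]; simp; ring
  have f01 : (inner ℝ (cr d0 d2) d1 : ℝ) = -Δ := by rw [inner3, hΔ]; simp [dt]; ring
  have f02 : (inner ℝ (cr d0 d2) d2 : ℝ) = 0 := by rw [inner3]; simp; ring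
  have g00 : (inner ℝ (cr d1 d2) d0 : ℝ) = Δ := by rw [inner3, hΔ]; simp [dt]; ring
  have g01 : (inner ℝ (cr d1 d2) d1 : ℝ) = 0 := by rw [inner3]; simp; ring
  have g02 : (inner ℝ (cr d1 d2) d2 : ℝ) = 0 := by rw [inner3]; simp; ring
  have a01 : (inner ℝ (cr d0 d1) D : ℝ) = inner ℝ (cr d0 d1) x0 := by
    rw [hD, inner_add_right, inner_sub_right, inner_smul_right, inner_smul_right,
      inner_smul_right, e00, e01, e02]
    field_simp
    ring
  have a02 : (inner ℝ (cr d0 d2) D : ℝ) = inner ℝ (cr d0 d2) x0 := by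
    rw [hD, inner_add_right, inner_sub_right, inner_smul_right, inner_smul_right,
      inner_smul_right, f00, f01, f02]
    field_simp
    ring
  have a12 : (inner ℝ (cr d1 d2) D : ℝ) = inner ℝ (cr d1 d2) x1 := by
    rw [hD, inner_add_right, inner_sub_right, inner_smul_right, inner_smul_right,
      inner_smul_right, g00, g01, g02]
    field_simp
    ring
  have sw : ∀ u v y : E3, (inner ℝ (cr v u) y : ℝ) = -inner ℝ (cr u v) y := by
    intro u v y
    rw [inner3, inner3]
    simp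
    ring
  rw [inner_sub_right] at h01 h02 h12
  refine ⟨D, ?_, ?_, ?_⟩
  · apply par2 d0 d1 d2 _ h
    · rw [inner_sub_right, a01, sub_self]
    · rw [inner_sub_right, a02, sub_self]
  · apply par2 d1 d2 d0
    · have : dt d1 d2 d0 = Δ := by rw [hΔ]; simp [dt]; ring
      rw [this]; exact h
    · rw [inner_sub_right, a12, sub_self]
    · rw [sw, inner_sub_right, a01]; linarith
  · apply par2 d2 d0 d1
    · have : dt d2 d0 d1 = Δ := by rw [hΔ]; simp [dt]; ring
      rw [this]; exact h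
    · rw [sw, inner_sub_right, a02]; linarith
    · rw [sw, inner_sub_right, a12]; linarith

theorem triple (d e z : E3) (h : cr e z = 0) : (inner ℝ (cr d e) z : ℝ) = 0 := by
  have h1 : (inner ℝ (cr d e) z : ℝ) = inner ℝ d (cr e z) := by
    rw [inner3, inner3]
    simp
    ring
  rw [h1, h, inner_zero_right]

end HDisp

open HDisp

/-- HDISP: displacements of the hubs -/
theorem hub_disp (η : Fin 13 → V3 ℝ) (hA : ∀ p k, condA η p k ≠ 0) (x : PI → Fin 5 → E3)
    (hx : ∀ p k e, (inner ℝ (cr (toE (dirOf η p k)) (toE (dirOf η (partner p k e) k)))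
      (x p k - x (partner p k e) k) : ℝ) = 0) :
    ∃ D : Fin 13 → E3, ∀ p k, cr (toE (dirOf η p k)) (x p k - D (hubIx p k)) = 0 := by
  -- the references
  have h1 : ∀ h : Fin 13, ∃ D : E3, ∀ m, cr (toE (dirOf η (refH h m) (slotH h)))
      (x (refH h m) (slotH h) - D) = 0 := by
    intro h
    obtain ⟨f1, f2, e, f3⟩ := factD h
    have a := hA (refH h 0) (slotH h)
    unfold condA at a
    rw [f1, f2, ← dt_toE] at a
    have a01 := hx (refH h 0) (slotH h) 0
    have a02 := hx (refH h 0) (slotH h) 1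
    have a12 := hx (refH h 1) (slotH h) e
    rw [f1] at a01
    rw [f2] at a02
    rw [f3] at a12
    obtain ⟨D, h0, h1, h2⟩ := meet3 _ _ _ _ _ _ a a01 a02 a12
    refine ⟨D, fun m => ?_⟩
    fin_cases m
    · exact h0
    · exact h1
    · exact h2
  choose D hD using h1
  refine ⟨D, fun p k => ?_⟩
  have a := hA p k
  unfold condA at a
  rw [← dt_toE] at a
  have hk := factA p k
  have key : ∀ e : Fin 2, (inner ℝ (cr (toE (dirOf η p k)) (toE (dirOf η (partner p k e) k)))
      (x p k - D (hubIx p k)) : ℝ) = 0 := by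
    intro e
    obtain ⟨m, hm⟩ := factB p k e
    have h2 := hD (hubIx p k) m
    rw [hk, ← hm] at h2
    have h3 := hx p k e
    have h4 := triple (toE (dirOf η p k)) _ _ h2
    have e1 : x p k - D (hubIx p k) = (x p k - x (partner p k e) k) +
        (x (partner p k e) k - D (hubIx p k)) := by abel
    rw [e1, inner_add_right, h3, h4, add_zero]
  exact par2 _ _ _ _ a (key 0) (key 1)

end Pool.Agent.H834R6.CC
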