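import Pool.Agent.H834R6.CC.Defs

/-! HKER: the kernel of the system of the displacements of the 13 hubs. Author: helper86. -/

set_option autoImplicit false
set_option maxHeartbeats 4000000

namespace Pool.Agent.H834R6.CC

open Pool.Agent.H282R2 Set Filter Topology

namespace HKer

/-! ### the rigid motions solve the system -/

section alg
variable (h : Hub5 ℝ)

theorem G1 : (hDA h + hDC h) * h.B.1 = hDC h * h.A.1 + hth h * (hd1 h).1 + hDA h * h.C.1 +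
      hsh h * (hd3 h).1 ∧
    (hDA h + hDC h) * h.B.2.1 = hDC h * h.A.2.1 + hth h * (hd1 h).2.1 + hDA h * h.C.2.1 +
      hsh h * (hd3 h).2.1 ∧
    (hDA h + hDC h) * h.B.2.2 = hDC h * h.A.2.2 + hth h * (hd1 h).2.2 + hDA h * h.C.2.2 +
      hsh h * (hd3 h).2.2 := by
  obtain ⟨A, A', B, C, C'⟩ := h
  obtain ⟨a1, a2, a3⟩ := A
  obtain ⟨x1, x2, x3⟩ := A'
  obtain ⟨b1, b2, b3⟩ := B
  obtain ⟨c1, c2, c3⟩ := C
  obtain ⟨y1, y2, y3⟩ := C'
  simp only [hDA, hDC, hth, hsh, hd1, hd3, vsub, vdet, vdot, vcr]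
  refine ⟨?_, ?_, ?_⟩ <;> ring

theorem G2 : hDA h * (hDC h * h.A.1 + hth h * (hd1 h).1) - hDC h * (hDA h * h.C.1 +
      hsh h * (hd3 h).1) = (hDA h + hDC h) * (hq h).1 ∧
    hDA h * (hDC h * h.A.2.1 + hth h * (hd1 h).2.1) - hDC h * (hDA h * h.C.2.1 +
      hsh h * (hd3 h).2.1) = (hDA h + hDC h) * (hq h).2.1 ∧
    hDA h * (hDC h * h.A.2.2 + hth h * (hd1 h).2.2) - hDC h * (hDA h * h.C.2.2 +
      hsh h * (hd3 h).2.2) = (hDA h + hDC h) * (hq h).2.2 := by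
  obtain ⟨A, A', B, C, C'⟩ := h
  obtain ⟨a1, a2, a3⟩ := A
  obtain ⟨x1, x2, x3⟩ := A'
  obtain ⟨b1, b2, b3⟩ := B
  obtain ⟨c1, c2, c3⟩ := C
  obtain ⟨y1, y2, y3⟩ := C'
  simp only [hDA, hDC, hth, hsh, hd1, hd3, hq, vsub, vdet, vdot, vcr]
  obtain ⟨p1, hp1⟩ : ∃ p1, p1 = x1 - a1 := ⟨_, rfl⟩
  obtain ⟨p2, hp2⟩ : ∃ p2, p2 = x2 - a2 := ⟨_, rfl⟩
  obtain ⟨p3, hp3⟩ : ∃ p3, p3 = x3 - a3 := ⟨_, rfl⟩
  obtain ⟨r1, hr1⟩ : ∃ r1, r1 = y1 - c1 := ⟨_, rfl⟩
  obtain ⟨r2, hr2⟩ : ∃ r2, r2 = y2 - c2 := ⟨_, rfl⟩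
  obtain ⟨r3, hr3⟩ : ∃ r3, r3 = y3 - c3 := ⟨_, rfl⟩
  rw [← hp1, ← hp2, ← hp3, ← hr1, ← hr2, ← hr3]
  obtain ⟨u1, rfl⟩ : ∃ u1, a1 = b1 - u1 := ⟨b1 - a1, by ring⟩
  obtain ⟨u2, rfl⟩ : ∃ u2, a2 = b2 - u2 := ⟨b2 - a2, by ring⟩
  obtain ⟨u3, rfl⟩ : ∃ u3, a3 = b3 - u3 := ⟨b3 - a3, by ring⟩
  obtain ⟨w1, rfl⟩ : ∃ w1, c1 = b1 + w1 := ⟨c1 - b1, by ring⟩
  obtain ⟨w2, rfl⟩ : ∃ w2, c2 = b2 + w2 := ⟨c2 - b2, by ring⟩
  obtain ⟨w3, rfl⟩ : ∃ w3, c3 = b3 + w3 := ⟨c3 - b3, by ring⟩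
  clear hp1 hp2 hp3 hr1 hr2 hr3
  have e1 : b1 - u1 - (b1 + w1) = -u1 - w1 := by ring
  have e2 : b2 - u2 - (b2 + w2) = -u2 - w2 := by ring
  have e3 : b3 - u3 - (b3 + w3) = -u3 - w3 := by ring
  have f1 : b1 + w1 - (b1 - u1) = u1 + w1 := by ring
  have f2 : b2 + w2 - (b2 - u2) = u2 + w2 := by ring
  have f3 : b3 + w3 - (b3 - u3) = u3 + w3 := by ring
  simp only [sub_sub_cancel, add_sub_cancel_left, e1, e2, e3, f1, f2, f3]
  have g1 : b1 - (b1 + w1) = -w1 := by ring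
  have g2 : b2 - (b2 + w2) = -w2 := by ring
  have g3 : b3 - (b3 + w3) = -w3 := by ring
  simp only [g1, g2, g3]
  refine ⟨?_, ?_, ?_⟩ <;> ring

theorem sum_dot (m : V3 ℝ) (v : E3) : (inner ℝ (toE m) v : ℝ) = m.1 * v 0 + m.2.1 * v 1 +
    m.2.2 * v 2 := by
  rw [inner3]; rfl

/-- the rows annihilate the rigid motions -/
theorem rigid_row (ω τ : E3) :
    ∑ k : Fin 5, (inner ℝ (toE (hrow h k)) (cr ω (hpt h k) + τ) : ℝ) = 0 := by
  obtain ⟨g1, g2, g3⟩ := G1 h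
  obtain ⟨k1, k2, k3⟩ := G2 h
  rw [Fin.sum_univ_five]
  have e0 : hrow h 0 = vsmul (hDC h - hth h) (hf1 h) := rfl
  have e1 : hrow h 1 = vsmul (hth h) (hf1 h) := rfl
  have e2 : hrow h 2 = vsmul (-(hDA h + hDC h)) (hpsi h) := rfl
  have e3 : hrow h 3 = vsmul (hDA h - hsh h) (hf3 h) := rfl
  have e4 : hrow h 4 = vsmul (hsh h) (hf3 h) := rfl
  have p0 : hpt h 0 = toE h.A := rfl
  have p1 : hpt h 1 = toE h.A' := rfl
  have p2 : hpt h 2 = toE h.B := rfl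
  have p3 : hpt h 3 = toE h.C := rfl
  have p4 : hpt h 4 = toE h.C' := rfl
  have t0 : ∀ v : V3 ℝ, toE v 0 = v.1 := fun v => rfl
  have t1 : ∀ v : V3 ℝ, toE v 1 = v.2.1 := fun v => rfl
  have t2 : ∀ v : V3 ℝ, toE v 2 = v.2.2 := fun v => rfl
  rw [e0, e1, e2, e3, e4, p0, p1, p2, p3, p4]
  simp only [sum_dot, PiLp.add_apply, cr_zero, cr_one, cr_two, t0, t1, t2]
  obtain ⟨x1, hx1⟩ : ∃ x, x = hd1 h := ⟨_, rfl⟩
  obtain ⟨x3, hx3⟩ : ∃ x, x = hd3 h := ⟨_, rfl⟩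
  have a1 : h.A'.1 = h.A.1 + x1.1 := by rw [hx1]; simp [hd1, vsub]
  have a2 : h.A'.2.1 = h.A.2.1 + x1.2.1 := by rw [hx1]; simp [hd1, vsub]
  have a3 : h.A'.2.2 = h.A.2.2 + x1.2.2 := by rw [hx1]; simp [hd1, vsub]
  have c1 : h.C'.1 = h.C.1 + x3.1 := by rw [hx3]; simp [hd3, vsub]
  have c2 : h.C'.2.1 = h.C.2.1 + x3.2.1 := by rw [hx3]; simp [hd3, vsub]
  have c3 : h.C'.2.2 = h.C.2.2 + x3.2.2 := by rw [hx3]; simp [hd3, vsub]
  rw [← hx1, ← hx3] at g1 g2 g3 k1 k2 k3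
  rw [a1, a2, a3, c1, c2, c3]
  simp only [hf1, hf3, vsmul, vadd]
  generalize hDA h = DA at *
  generalize hDC h = DC at *
  generalize hth h = th at *
  generalize hsh h = sh at *
  generalize hpsi h = ψ at *
  generalize hq h = q at *
  obtain ⟨A, A', B, C, C'⟩ := h
  obtain ⟨A1, A2, A3⟩ := A
  obtain ⟨B1, B2, B3⟩ := B
  obtain ⟨C1, C2, C3⟩ := C
  obtain ⟨q1, q2, q3⟩ := q
  obtain ⟨ψ1, ψ2, ψ3⟩ := ψ
  obtain ⟨d1, d2, d3⟩ := x1
  obtain ⟨s1, s2, s3⟩ := x3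
  simp only at g1 g2 g3 k1 k2 k3 ⊢
  generalize ω 0 = w1
  generalize ω 1 = w2
  generalize ω 2 = w3
  linear_combination
    (-(ψ1 * (-w3)) - ψ3 * w1) * g2 - (ψ1 * w2 - ψ2 * w1) * g3 - (ψ2 * w3 - ψ3 * w2) * g1
    + DA * DC * ((q2 * w3 - q3 * w2) * k1 + (q3 * w1 - q1 * w3) * k2 + (q1 * w2 - q2 * w1) * k3)

end alg

/-! ### linear algebra -/

/-- the coordinates of a displacement -/
noncomputable def vec (D : Fin 13 → E3) : Fin 39 → ℝ := fun c =>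
  D ⟨c / 3, by omega⟩ ⟨c % 3, by omega⟩

theorem sum39 (g : Fin 13 × Fin 3 → ℝ) :
    ∑ c : Fin 39, g (⟨c / 3, by omega⟩, ⟨c % 3, by omega⟩) = ∑ x : Fin 13, ∑ j : Fin 3, g (x, j) := by
  rw [← Fintype.sum_prod_type (fun x : Fin 13 × Fin 3 => g x)]
  refine Fintype.sum_equiv (finProdFinEquiv (m := 13) (n := 3)).symm _ _ fun c => ?_
  rfl

variable (η : Fin 13 → V3 ℝ)

/-- the equations of the chains -/
def Eqs (D : Fin 13 → E3) : Prop := ∀ p : PI, ∑ k : Fin 5,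
  (inner ℝ (toE (hrow (hub5 η p) k)) (D (hubIx p k)) : ℝ) = 0

theorem mulVec_eq (D : Fin 13 → E3) (r : Fin 39) :
    (hubMatS η).mulVec (vec D) r = ∑ x : Fin 13, ∑ j : Fin 3, hubMat η r (x, j) * D x j := by
  show ∑ c : Fin 39, hubMatS η r c * vec D c = _
  exact sum39 (fun x => hubMat η r x * D x.1 x.2)

theorem gauge_row (D : Fin 13 → E3) (r : Fin 39) (hr : (r : ℕ) < 6) (x0 : Fin 13) (j0 : Fin 3)
    (hg : gaugeL.getD r (0, 0) = ((x0 : ℕ), (j0 : ℕ))) :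
    (hubMatS η).mulVec (vec D) r = D x0 j0 := by
  rw [mulVec_eq]
  have h1 : ∀ x : Fin 13, ∀ j : Fin 3, hubMat η r (x, j) * D x j =
      if x = x0 then (if j = j0 then D x j else 0) else 0 := by
    intro x j
    unfold hubMat
    rw [if_pos hr, hg]
    by_cases hx : x = x0
    · by_cases hj : j = j0
      · simp [hx, hj]
      · have : ¬ ((x : ℕ), (j : ℕ)) = ((x0 : ℕ), (j0 : ℕ)) := by
          intro e
          exact hj (Fin.ext (Prod.ext_iff.1 e).2)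
        rw [if_neg this, zero_mul, if_neg hj, if_pos hx]
    · have : ¬ ((x : ℕ), (j : ℕ)) = ((x0 : ℕ), (j0 : ℕ)) := by
        intro e
        exact hx (Fin.ext (Prod.ext_iff.1 e).1)
      rw [if_neg this, zero_mul, if_neg hx]
  simp only [h1]
  rw [Finset.sum_eq_single x0]
  · simp
  · intro b _ hb
    simp [hb]
  · simp

theorem chain_row (D : Fin 13 → E3) (hD : Eqs η D) (r : Fin 39) (hr : ¬ (r : ℕ) < 6) :
    (hubMatS η).mulVec (vec D) r = 0 := by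
  rw [mulVec_eq, ← hD (sel (r - 6))]
  have h1 : ∀ x : Fin 13, ∀ j : Fin 3, hubMat η r (x, j) * D x j =
      ∑ k : Fin 5, if hubIx (sel (r - 6)) k = x then
        vget (hrow (hub5 η (sel (r - 6))) k) j * D x j else 0 := by
    intro x j
    unfold hubMat
    rw [if_neg hr, Finset.sum_mul]
    refine Finset.sum_congr rfl fun k _ => ?_
    by_cases hk : hubIx (sel (r - 6)) k = x
    · simp [hk]
    · simp [hk]
  simp only [h1]
  have h2 : ∀ x : Fin 13, ∑ j : Fin 3, ∑ k : Fin 5, (if hubIx (sel (r - 6)) k = x then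
        vget (hrow (hub5 η (sel (r - 6))) k) j * D x j else 0) =
      ∑ k : Fin 5, if hubIx (sel (r - 6)) k = x then
        (inner ℝ (toE (hrow (hub5 η (sel (r - 6))) k)) (D x) : ℝ) else 0 := by
    intro x
    rw [Finset.sum_comm]
    refine Finset.sum_congr rfl fun k _ => ?_
    by_cases hk : hubIx (sel (r - 6)) k = x
    · simp only [hk, if_true]
      rw [sum_dot, Fin.sum_univ_three]
      rfl
    · simp [hk]
  simp only [h2]
  rw [Finset.sum_comm]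
  refine Finset.sum_congr rfl fun k _ => ?_
  simp

/-- the gauge -/
def gx : Fin 6 → Fin 13 := ![0, 0, 0, 3, 3, 7]
def gj : Fin 6 → Fin 3 := ![0, 1, 2, 1, 2, 2]

theorem gauge_list (r : Fin 6) : gaugeL.getD r (0, 0) = ((gx r : ℕ), (gj r : ℕ)) := by
  fin_cases r <;> rfl

theorem zero_of_gauge (hdet : (hubMatS η).det ≠ 0) (D : Fin 13 → E3) (hD : Eqs η D)
    (hg : ∀ r, D (gx r) (gj r) = 0) : ∀ x, D x = 0 := by
  have h0 : (hubMatS η).mulVec (vec D) = 0 := by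
    funext r
    by_cases hr : (r : ℕ) < 6
    · rw [gauge_row η D r hr (gx ⟨r, hr⟩) (gj ⟨r, hr⟩) (gauge_list ⟨r, hr⟩), hg]
      rfl
    · rw [chain_row η D hD r hr]
      rfl
  have h1 : vec D = 0 := Matrix.eq_zero_of_mulVec_eq_zero hdet h0
  intro x
  ext j
  have h2 := congrFun h1 ⟨3 * x + j, by omega⟩
  have e1 : (⟨(3 * (x : ℕ) + j) / 3, by omega⟩ : Fin 13) = x := Fin.ext (by simp; omega)
  have e2 : (⟨(3 * (x : ℕ) + j) % 3, by omega⟩ : Fin 3) = j := Fin.ext (by simp)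
  simp only [vec, e1, e2] at h2
  exact h2

/-- the rigid motions -/
noncomputable def Phi (w : E3 × E3) (x : Fin 13) : E3 := cr w.1 (toE (η x)) + w.2

theorem hpt_eq (p : PI) (k : Fin 5) : hpt (hub5 η p) k = toE (η (hubIx p k)) := by
  fin_cases k <;> rfl

theorem eqs_phi (w : E3 × E3) : Eqs η (Phi η w) := by
  intro p
  have := rigid_row (hub5 η p) w.1 w.2
  simp only [hpt_eq] at this
  exact this

theorem eqs_sub {D D' : Fin 13 → E3} (h : Eqs η D) (h' : Eqs η D') :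
    Eqs η (fun x => D x - D' x) := by
  intro p
  simp only [inner_sub_right, Finset.sum_sub_distrib]
  rw [h p, h' p, sub_zero]

/-- the gauge values of the rigid motions -/
noncomputable def L : E3 × E3 →ₗ[ℝ] (Fin 6 → ℝ) where
  toFun w r := Phi η w (gx r) (gj r)
  map_add' w w' := by
    funext r
    show Phi η (w + w') (gx r) (gj r) = Phi η w (gx r) (gj r) + Phi η w' (gx r) (gj r)
    simp only [Phi, Prod.fst_add, Prod.snd_add, cr_add_1, PiLp.add_apply]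
    ring
  map_smul' c w := by
    funext r
    show Phi η (c • w) (gx r) (gj r) = c * Phi η w (gx r) (gj r)
    simp only [Phi, Prod.smul_fst, Prod.smul_snd, cr_smul_1, PiLp.add_apply, PiLp.smul_apply,
      smul_eq_mul]
    ring

theorem phi_zero (p : PI) (H : HubOk (hub5 η p)) (w : E3 × E3) (h : ∀ x, Phi η w x = 0) :
    w = 0 := by
  obtain ⟨ω, τ⟩ := w
  have h' : ∀ x, cr ω (toE (η x)) + τ = 0 := h
  have hA := h' (hubIx p 0)
  have hA' := h' (hubIx p 1)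
  have hC := h' (hubIx p 3)
  have hC' := h' (hubIx p 4)
  have d1 : cr ω (toE (hd1 (hub5 η p))) = 0 := by
    have e : toE (hd1 (hub5 η p)) = toE (η (hubIx p 1)) - toE (η (hubIx p 0)) := by
      apply ext3 <;> simp [toE, hd1, vsub, hub5]
    have e2 : cr ω (toE (hd1 (hub5 η p))) = (cr ω (toE (η (hubIx p 1))) + τ) -
        (cr ω (toE (η (hubIx p 0))) + τ) := by
      rw [e]
      apply ext3 <;> simp <;> ring
    rw [e2, hA, hA', sub_zero]
  have d3 : cr ω (toE (hd3 (hub5 η p))) = 0 := by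
    have e : toE (hd3 (hub5 η p)) = toE (η (hubIx p 4)) - toE (η (hubIx p 3)) := by
      apply ext3 <;> simp [toE, hd3, vsub, hub5]
    have e2 : cr ω (toE (hd3 (hub5 η p))) = (cr ω (toE (η (hubIx p 4))) + τ) -
        (cr ω (toE (η (hubIx p 3))) + τ) := by
      rw [e]
      apply ext3 <;> simp <;> ring
    rw [e2, hC, hC', sub_zero]
  have hω : ω = 0 := by
    have key : hDA (hub5 η p) • ω = 0 := by
      have c0 := congrArg (fun v : E3 => v 0) d1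
      have c1 := congrArg (fun v : E3 => v 1) d1
      have c2 := congrArg (fun v : E3 => v 2) d1
      have b0 := congrArg (fun v : E3 => v 0) d3
      have b1 := congrArg (fun v : E3 => v 1) d3
      have b2 := congrArg (fun v : E3 => v 2) d3
      have t0 : ∀ v : V3 ℝ, toE v 0 = v.1 := fun v => rfl
      have t1 : ∀ v : V3 ℝ, toE v 1 = v.2.1 := fun v => rfl
      have t2 : ∀ v : V3 ℝ, toE v 2 = v.2.2 := fun v => rfl
      simp only [cr_zero, cr_one, cr_two, t0, t1, t2, PiLp.zero_apply] at c0 c1 c2 b0 b1 b2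
      unfold hDA vdet vdot vcr
      generalize hd1 (hub5 η p) = x1 at *
      generalize hd3 (hub5 η p) = x3 at *
      generalize vsub (hub5 η p).B (hub5 η p).A = u at *
      apply ext3
      · simp only [PiLp.smul_apply, smul_eq_mul, PiLp.zero_apply]
        linear_combination x1.1 * (u.1 * b0 + u.2.1 * b1 + u.2.2 * b2)
          - x3.1 * (u.1 * c0 + u.2.1 * c1 + u.2.2 * c2)
          - u.1 * (x1.1 * b0 + x1.2.1 * b1 + x1.2.2 * b2)
      · simp only [PiLp.smul_apply, smul_eq_mul, PiLp.zero_apply]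
        linear_combination x1.2.1 * (u.1 * b0 + u.2.1 * b1 + u.2.2 * b2)
          - x3.2.1 * (u.1 * c0 + u.2.1 * c1 + u.2.2 * c2)
          - u.2.1 * (x1.1 * b0 + x1.2.1 * b1 + x1.2.2 * b2)
      · simp only [PiLp.smul_apply, smul_eq_mul, PiLp.zero_apply]
        linear_combination x1.2.2 * (u.1 * b0 + u.2.1 * b1 + u.2.2 * b2)
          - x3.2.2 * (u.1 * c0 + u.2.1 * c1 + u.2.2 * c2)
          - u.2.2 * (x1.1 * b0 + x1.2.1 * b1 + x1.2.2 * b2)
    rcases smul_eq_zero.1 key with e | e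
    · exact absurd e H.a
    · exact e
  have hτ : τ = 0 := by
    have : cr (0 : E3) (toE (η (hubIx p 0))) = 0 := by
      apply ext3 <;> simp
    rw [hω, this, zero_add] at hA
    exact hA
  rw [hω, hτ]
  rfl

end HKer

open HKer in
/-- HKER: the kernel of the system -/
theorem hub_kernel (η : Fin 13 → V3 ℝ) (hdet : (hubMatS η).det ≠ 0)
    (hH : ∀ p, HubOk (hub5 η p)) (D : Fin 13 → E3)
    (hD : ∀ p : PI, ∑ k : Fin 5,
      (inner ℝ (toE (hrow (hub5 η p) k)) (D (hubIx p k)) : ℝ) = 0) :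
    ∃ ω τ : E3, ∀ x, D x = cr ω (toE (η x)) + τ := by
  have hinj : Function.Injective (L η) := by
    rw [← LinearMap.ker_eq_bot, LinearMap.ker_eq_bot']
    intro w hw
    refine phi_zero η (0, 0, 0, 0) (hH _) w ?_
    exact zero_of_gauge η hdet _ (eqs_phi η w) fun r => congrFun hw r
  have hsurj : Function.Surjective (L η) := by
    refine (LinearMap.injective_iff_surjective_of_finrank_eq_finrank ?_).1 hinj
    simp
  obtain ⟨w, hw⟩ := hsurj (fun r => D (gx r) (gj r))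
  refine ⟨w.1, w.2, fun x => ?_⟩
  have := zero_of_gauge η hdet _ (eqs_sub η (show Eqs η D from hD) (eqs_phi η w)) (fun r => by
    have h1 := congrFun hw r
    have h2 : Phi η w (gx r) (gj r) = D (gx r) (gj r) := h1
    simp only [PiLp.sub_apply]
    rw [h2, sub_self]) x
  exact sub_eq_zero.1 this

end Pool.Agent.H834R6.CC
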