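import Pool.Agent.H834R6.CC.Defs

/-!
# The linearised length of the second link (helper742)
-/

set_option autoImplicit false
set_option maxHeartbeats 4000000

namespace Pool.Agent.H834R6.CC

open Pool.Agent.H282R2 Pool.Agent.H834R6.CC Set Filter Topology

namespace HRow

/-- the polynomial identity behind the direction of the second link -/
theorem key (x z a c : V3 ℝ) :
    vadd (vsmul (vdet x z a * -(vdet x z c)) (vsub a c))
      (vsub (vsmul (vdet (vsub a c) x a * -(vdet x z c)) z)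
        (vsmul (vdet (vsub c a) z c * vdet x z a) x)) =
      vsmul (-(vdet x z a + -(vdet x z c))) (vcr (vcr x a) (vcr z c)) := by
  obtain ⟨x1, x2, x3⟩ := x
  obtain ⟨z1, z2, z3⟩ := z
  obtain ⟨a1, a2, a3⟩ := a
  obtain ⟨c1, c2, c3⟩ := c
  simp only [vadd, vsmul, vsub, vdet, vdot, vcr, Prod.mk.injEq]
  refine ⟨?_, ?_, ?_⟩ <;> ring

theorem toE_add (u v : V3 ℝ) : toE (vadd u v) = toE u + toE v := by
  apply ext3 <;> simp [toE, vadd]

theorem toE_sub (u v : V3 ℝ) : toE (vsub u v) = toE u - toE v := by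
  apply ext3 <;> simp [toE, vsub]

theorem toE_smul (c : ℝ) (v : V3 ℝ) : toE (vsmul c v) = c • toE v := by
  apply ext3 <;> simp [toE, vsmul]

theorem link1 (h : Hub5 ℝ) (H : HubOk h) :
    hc h - hb h = (-((hDA h + hDC h) / (hDA h * hDC h))) • toE (hq h) := by
  have ha := H.a
  have hc' := H.c
  have e1 : vsub h.C h.B = vsmul (-1 : ℝ) (vsub h.B h.C) := by
    simp only [vsub, vsmul, Prod.mk.injEq]; refine ⟨?_, ?_, ?_⟩ <;> ring
  have e2 : vsub h.C h.A = vsub (vsub h.B h.A) (vsub h.B h.C) := by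
    simp only [vsub, Prod.mk.injEq]; refine ⟨?_, ?_, ?_⟩ <;> ring
  have e3 : vsub h.A h.C = vsub (vsub h.B h.C) (vsub h.B h.A) := by
    simp only [vsub, Prod.mk.injEq]; refine ⟨?_, ?_, ?_⟩ <;> ring
  have e4 : hDC h = -(vdet (hd1 h) (hd3 h) (vsub h.B h.C)) := by
    unfold hDC; rw [e1]; simp only [vdet, vdot, vcr, vsmul]; ring
  have e5 : hsh h = vdet (vsub (vsub h.B h.A) (vsub h.B h.C)) (hd1 h) (vsub h.B h.A) := by
    unfold hsh; rw [e2]
  have e6 : hth h = vdet (vsub (vsub h.B h.C) (vsub h.B h.A)) (hd3 h) (vsub h.B h.C) := by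
    unfold hth; rw [e3]
  have k := key (hd1 h) (hd3 h) (vsub h.B h.A) (vsub h.B h.C)
  rw [← e4, ← e5, ← e6, ← e2] at k
  have hDA' : vdet (hd1 h) (hd3 h) (vsub h.B h.A) = hDA h := rfl
  have hq' : vcr (vcr (hd1 h) (vsub h.B h.A)) (vcr (hd3 h) (vsub h.B h.C)) = hq h := rfl
  rw [hDA', hq'] at k
  have k2 := congrArg toE k
  simp only [toE_add, toE_sub, toE_smul] at k2
  have h3 : (hDA h * hDC h) • (hc h - hb h) = (-(hDA h + hDC h)) • toE (hq h) := by
    rw [← k2]
    unfold hc hb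
    have s1 : (hDA h * hDC h) • (hsh h / hDA h) • toE (hd3 h) = (hsh h * hDC h) • toE (hd3 h) := by
      rw [smul_smul]; congr 1; field_simp
    have s2 : (hDA h * hDC h) • (hth h / hDC h) • toE (hd1 h) = (hth h * hDA h) • toE (hd1 h) := by
      rw [smul_smul]; congr 1; field_simp
    rw [smul_sub, smul_add, smul_add, s1, s2, smul_sub]
    abel
  have h4 : hc h - hb h = (hDA h * hDC h)⁻¹ • ((hDA h * hDC h) • (hc h - hb h)) := by
    rw [smul_smul, inv_mul_cancel₀ (mul_ne_zero ha hc'), one_smul]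
  rw [h4, h3, smul_smul]
  congr 1
  field_simp

end HRow

open HRow in
/-- HROW -/
theorem hub_row (h : Hub5 ℝ) (H : HubOk h) (V : T3) (hV : LP (hT h) V) :
    ∑ k : Fin 5, (inner ℝ (toE (hrow h k)) (ptOn V (slotLink k) (hθ h k)) : ℝ) = 0 := by
  have ha := H.a
  have hc' := H.c
  have hsum : hDA h + hDC h ≠ 0 := by
    intro h0
    have := H.b1
    rw [h0, div_zero] at this
    exact lt_irrefl _ this
  have ht : hth h / hDC h ≠ 0 := by have := H.t; positivity
  have ht' : hth h ≠ 0 := by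
    intro h0; rw [h0, zero_div] at ht; exact ht rfl
  have hs : hsh h / hDA h - 1 ≠ 0 := by have := H.s; linarith
  have hs' : hsh h - hDA h ≠ 0 := by
    intro h0
    apply hs
    rw [sub_eq_zero] at h0
    rw [h0, div_self ha, sub_self]
  -- the condition of the second link
  have hq0 : (inner ℝ (toE (hq h)) (V 2 - V 1) : ℝ) = 0 := by
    have h1 := hV 1
    have e : lk (hT h) 1 = hc h - hb h := rfl
    have e' : lk V 1 = V 2 - V 1 := rfl
    rw [e, e', link1 h H, inner_smul_left] at h1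
    rcases mul_eq_zero.mp h1 with h2 | h2
    · exfalso
      simp only [conj_trivial, neg_eq_zero, div_eq_zero_iff, mul_eq_zero] at h2
      tauto
    · exact h2
  rw [inner_sub_right] at hq0
  have hp : ∀ (l : Fin 3) (θ : ℝ) (u : E3), (inner ℝ u (ptOn V l θ) : ℝ) =
      (1 - θ) * inner ℝ u (V l.castSucc) + θ * inner ℝ u (V l.succ) := by
    intro l θ u
    simp only [ptOn, inner_add_right, inner_smul_right]
  simp only [hp]
  rw [Fin.sum_univ_five]
  have c00 : (slotLink 0).castSucc = 0 := rfl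
  have c01 : (slotLink 0).succ = 1 := rfl
  have c10 : (slotLink 1).castSucc = 0 := rfl
  have c11 : (slotLink 1).succ = 1 := rfl
  have c20 : (slotLink 2).castSucc = 1 := rfl
  have c21 : (slotLink 2).succ = 2 := rfl
  have c30 : (slotLink 3).castSucc = 2 := rfl
  have c31 : (slotLink 3).succ = 3 := rfl
  have c40 : (slotLink 4).castSucc = 2 := rfl
  have c41 : (slotLink 4).succ = 3 := rfl
  rw [c00, c01, c10, c11, c20, c21, c30, c31, c40, c41]
  have r0 : hrow h 0 = vsmul (hDC h - hth h) (hf1 h) := rfl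
  have r1 : hrow h 1 = vsmul (hth h) (hf1 h) := rfl
  have r2 : hrow h 2 = vsmul (-(hDA h + hDC h)) (hpsi h) := rfl
  have r3 : hrow h 3 = vsmul (hDA h - hsh h) (hf3 h) := rfl
  have r4 : hrow h 4 = vsmul (hsh h) (hf3 h) := rfl
  have f1 : hf1 h = vadd (vsmul (hDA h * hDA h * hDC h) (hq h)) (hpsi h) := rfl
  have f3 : hf3 h = vadd (vsmul (-(hDA h * hDC h * hDC h)) (hq h)) (hpsi h) := rfl
  have t0 : hθ h 0 = 1 / 3 := rfl
  have t1 : hθ h 1 = 1 - (2 / 3) * ((hth h / hDC h - 1) / (hth h / hDC h)) := rfl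
  have t2 : hθ h 2 = hDA h / (hDA h + hDC h) := rfl
  have t3 : hθ h 3 = (2 / 3) * ((hsh h / hDA h) / (hsh h / hDA h - 1)) := rfl
  have t4 : hθ h 4 = 2 / 3 := rfl
  rw [r0, r1, r2, r3, r4, f1, f3, t0, t1, t2, t3, t4]
  simp only [toE_smul, toE_add, inner_smul_left, inner_add_left, conj_trivial]
  generalize (inner ℝ (toE (hq h)) (V 0) : ℝ) = Q0 at *
  generalize (inner ℝ (toE (hq h)) (V 1) : ℝ) = Q1 at *
  generalize (inner ℝ (toE (hq h)) (V 2) : ℝ) = Q2 at *
  generalize (inner ℝ (toE (hq h)) (V 3) : ℝ) = Q3 at *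
  generalize (inner ℝ (toE (hpsi h)) (V 0) : ℝ) = P0 at *
  generalize (inner ℝ (toE (hpsi h)) (V 1) : ℝ) = P1 at *
  generalize (inner ℝ (toE (hpsi h)) (V 2) : ℝ) = P2 at *
  generalize (inner ℝ (toE (hpsi h)) (V 3) : ℝ) = P3 at *
  have hQ : Q2 = Q1 := by linarith
  subst hQ
  generalize hDA h = α at *
  generalize hDC h = γ at *
  generalize hth h = τ at *
  generalize hsh h = σ at *
  have w1 : (τ / γ - 1) / (τ / γ) = (τ - γ) / τ := by field_simp
  have w3 : (σ / α) / (σ / α - 1) = σ / (σ - α) := by field_simp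
  rw [w1, w3]
  field_simp
  ring

end Pool.Agent.H834R6.CC
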