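import Pool.Agent.H834R6.CC.Defs

/-! HSURJ -/

set_option autoImplicit false
set_option maxHeartbeats 4000000

namespace Pool.Agent.H834R6.CC

open Pool.Agent.H282R2 Set Filter Topology

namespace HSurj

theorem cramer3 (a b c g : E3) :
    dt a b c • g = dt g b c • a + dt a g c • b + dt a b g • c := by
  apply ext3 <;> simp [dt] <;> ring

theorem span3 {a b c : E3} (h : dt a b c ≠ 0) (g : E3) :
    ∃ x y z : ℝ, g = x • a + y • b + z • c := by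
  refine ⟨(dt a b c)⁻¹ * dt g b c, (dt a b c)⁻¹ * dt a g c, (dt a b c)⁻¹ * dt a b g, ?_⟩
  rw [mul_smul, mul_smul, mul_smul, ← smul_add, ← smul_add, ← cramer3, smul_smul,
    inv_mul_cancel₀ h, one_smul]

theorem core (d1 d3 q : E3) (hD : dt d1 d3 q ≠ 0) (θ0 θ1 τ θ3 θ4 : ℝ) (h01 : θ1 - θ0 ≠ 0)
    (h0 : 1 - θ0 ≠ 0) (hτ0 : τ ≠ 0) (hτ1 : 1 - τ ≠ 0) (h34 : θ4 - θ3 ≠ 0) (h4 : θ4 ≠ 0)
    (x0 x1 x2 x3 x4 : E3) : ∃ V0 V1 V2 V3 : E3, ∃ a b c d e : ℝ,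
      (1 - θ0) • V0 + θ0 • V1 - x0 = a • d1 ∧ (1 - θ1) • V0 + θ1 • V1 - x1 = b • d1 ∧
      (1 - τ) • V1 + τ • V2 - x2 = c • q ∧
      (1 - θ3) • V2 + θ3 • V3 - x3 = d • d3 ∧ (1 - θ4) • V2 + θ4 • V3 - x4 = e • d3 := by
  obtain ⟨a, b, c, hg⟩ := span3 hD (x2 -
    (1 - τ) • ((1 - (1 - θ0) / (θ1 - θ0)) • x0 + ((1 - θ0) / (θ1 - θ0)) • x1) -
    τ • ((θ4 / (θ4 - θ3)) • x3 - (θ3 / (θ4 - θ3)) • x4))
  set V1 : E3 := ((1 - (1 - θ0) / (θ1 - θ0)) • x0 + ((1 - θ0) / (θ1 - θ0)) • x1) +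
    (a / (1 - τ)) • d1 with hV1
  set V2 : E3 := ((θ4 / (θ4 - θ3)) • x3 - (θ3 / (θ4 - θ3)) • x4) + (b / τ) • d3 with hV2
  refine ⟨(1 - θ0)⁻¹ • (x0 - θ0 • V1), V1, V2, θ4⁻¹ • (x4 - (1 - θ4) • V2),
    0, (θ1 - θ0) / (1 - θ0) * (a / (1 - τ)), -c, (θ4 - θ3) / θ4 * (b / τ), 0, ?_, ?_, ?_, ?_, ?_⟩
  · rw [smul_smul, mul_inv_cancel₀ h0]
    module
  · rw [hV1]
    match_scalars <;> field_simp <;> ring
  · have e1 : (1 - τ) • V1 + τ • V2 - x2 = a • d1 + b • d3 - (x2 -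
        (1 - τ) • ((1 - (1 - θ0) / (θ1 - θ0)) • x0 + ((1 - θ0) / (θ1 - θ0)) • x1) -
        τ • ((θ4 / (θ4 - θ3)) • x3 - (θ3 / (θ4 - θ3)) • x4)) := by
      rw [hV1, hV2]
      match_scalars <;> field_simp <;> ring
    rw [e1, hg]
    module
  · rw [hV2]
    match_scalars <;> field_simp
    all_goals try ring
  · rw [smul_smul, mul_inv_cancel₀ h4]
    module

theorem cr_zero_of {u d : E3} {c a : ℝ} {w : E3} (hu : u = c • d) (hw : w = a • d) :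
    cr u w = 0 := by
  rw [hu, hw, cr_smul_1, cr_smul_2, cr_self, smul_zero, smul_zero]

@[simp] theorem toE0 (v : V3 ℝ) : toE v 0 = v.1 := rfl
@[simp] theorem toE1 (v : V3 ℝ) : toE v 1 = v.2.1 := rfl
@[simp] theorem toE2 (v : V3 ℝ) : toE v 2 = v.2.2 := rfl

theorem lk0 (h : Hub5 ℝ) : lk (hT h) 0 = ((3 / 2) * (hth h / hDC h)) • toE (hd1 h) := by
  have e : lk (hT h) 0 = hb h - (hb h + (3 / 2 : ℝ) • (toE h.A - hb h)) := rfl
  rw [e]
  unfold hb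
  module

theorem lk2 (h : Hub5 ℝ) : lk (hT h) 2 = ((3 / 2) * (1 - hsh h / hDA h)) • toE (hd3 h) := by
  have e : lk (hT h) 2 = (hc h + (3 / 2 : ℝ) • (toE h.C' - hc h)) - hc h := rfl
  have e2 : toE h.C' = toE h.C + toE (hd3 h) := by
    apply ext3 <;> simp [hd3, vsub]
  rw [e, e2]
  unfold hc
  module

theorem alg1 (d1 d3 p r : V3 ℝ) :
    (vdet d1 d3 p * -vdet d1 d3 r) * (p.1 - r.1) + (-vdet r d1 p * -vdet d1 d3 r) * d3.1 -
      (-vdet p d3 r * vdet d1 d3 p) * d1.1 =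
      -(vdet d1 d3 p + -vdet d1 d3 r) * (vcr (vcr d1 p) (vcr d3 r)).1 := by
  obtain ⟨x1, x2, x3⟩ := d1
  obtain ⟨z1, z2, z3⟩ := d3
  obtain ⟨p1, p2, p3⟩ := p
  obtain ⟨r1, r2, r3⟩ := r
  simp only [vdet, vdot, vcr]
  ring

theorem alg2 (d1 d3 p r : V3 ℝ) :
    (vdet d1 d3 p * -vdet d1 d3 r) * (p.2.1 - r.2.1) + (-vdet r d1 p * -vdet d1 d3 r) * d3.2.1 -
      (-vdet p d3 r * vdet d1 d3 p) * d1.2.1 =
      -(vdet d1 d3 p + -vdet d1 d3 r) * (vcr (vcr d1 p) (vcr d3 r)).2.1 := by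
  obtain ⟨x1, x2, x3⟩ := d1
  obtain ⟨z1, z2, z3⟩ := d3
  obtain ⟨p1, p2, p3⟩ := p
  obtain ⟨r1, r2, r3⟩ := r
  simp only [vdet, vdot, vcr]
  ring

theorem alg3 (d1 d3 p r : V3 ℝ) :
    (vdet d1 d3 p * -vdet d1 d3 r) * (p.2.2 - r.2.2) + (-vdet r d1 p * -vdet d1 d3 r) * d3.2.2 -
      (-vdet p d3 r * vdet d1 d3 p) * d1.2.2 =
      -(vdet d1 d3 p + -vdet d1 d3 r) * (vcr (vcr d1 p) (vcr d3 r)).2.2 := by
  obtain ⟨x1, x2, x3⟩ := d1
  obtain ⟨z1, z2, z3⟩ := d3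
  obtain ⟨p1, p2, p3⟩ := p
  obtain ⟨r1, r2, r3⟩ := r
  simp only [vdet, vdot, vcr]
  ring

theorem alg4 (d1 d3 p r : V3 ℝ) :
    vdet d1 d3 (vcr (vcr d1 p) (vcr d3 r)) = vdet d1 d3 p * vdet d1 d3 r := by
  obtain ⟨x1, x2, x3⟩ := d1
  obtain ⟨z1, z2, z3⟩ := d3
  obtain ⟨p1, p2, p3⟩ := p
  obtain ⟨r1, r2, r3⟩ := r
  simp only [vdet, vdot, vcr]
  ring

theorem hDC_eq (h : Hub5 ℝ) : hDC h = -vdet (hd1 h) (hd3 h) (vsub h.B h.C) := by
  unfold hDC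
  generalize hd1 h = d1
  generalize hd3 h = d3
  simp only [vdet, vdot, vcr, vsub]
  ring

theorem hth_eq (h : Hub5 ℝ) : hth h = -vdet (vsub h.B h.A) (hd3 h) (vsub h.B h.C) := by
  unfold hth
  generalize hd3 h = d3
  simp only [vdet, vdot, vcr, vsub]
  ring

theorem hsh_eq (h : Hub5 ℝ) : hsh h = -vdet (vsub h.B h.C) (hd1 h) (vsub h.B h.A) := by
  unfold hsh
  generalize hd1 h = d1
  simp only [vdet, vdot, vcr, vsub]
  ring

theorem lk1 (h : Hub5 ℝ) (H : HubOk h) :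
    lk (hT h) 1 = (-((hDA h + hDC h) / (hDA h * hDC h))) • toE (hq h) := by
  have e : lk (hT h) 1 = hc h - hb h := rfl
  have ha := H.a
  have hc' := H.c
  have key : (hDA h * hDC h) • (toE h.C - toE h.A) + (hsh h * hDC h) • toE (hd3 h) -
      (hth h * hDA h) • toE (hd1 h) = (-(hDA h + hDC h)) • toE (hq h) := by
    rw [hDC_eq, hth_eq, hsh_eq]
    unfold hDA hq
    have k1 := alg1 (hd1 h) (hd3 h) (vsub h.B h.A) (vsub h.B h.C)
    have k2 := alg2 (hd1 h) (hd3 h) (vsub h.B h.A) (vsub h.B h.C)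
    have k3 := alg3 (hd1 h) (hd3 h) (vsub h.B h.A) (vsub h.B h.C)
    apply ext3
    · simp only [PiLp.add_apply, PiLp.sub_apply, PiLp.smul_apply, smul_eq_mul, toE0]
      rw [← k1]
      have : h.C.1 - h.A.1 = (vsub h.B h.A).1 - (vsub h.B h.C).1 := by
        simp only [vsub]; ring
      rw [this]
    · simp only [PiLp.add_apply, PiLp.sub_apply, PiLp.smul_apply, smul_eq_mul, toE1]
      rw [← k2]
      have : h.C.2.1 - h.A.2.1 = (vsub h.B h.A).2.1 - (vsub h.B h.C).2.1 := by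
        simp only [vsub]; ring
      rw [this]
    · simp only [PiLp.add_apply, PiLp.sub_apply, PiLp.smul_apply, smul_eq_mul, toE2]
      rw [← k3]
      have : h.C.2.2 - h.A.2.2 = (vsub h.B h.A).2.2 - (vsub h.B h.C).2.2 := by
        simp only [vsub]; ring
      rw [this]
  have e3 : hc h - hb h = (hDA h * hDC h)⁻¹ • ((hDA h * hDC h) • (toE h.C - toE h.A) +
      (hsh h * hDC h) • toE (hd3 h) - (hth h * hDA h) • toE (hd1 h)) := by
    unfold hc hb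
    match_scalars <;> field_simp
  rw [e, e3, key, smul_smul]
  congr 1
  field_simp

theorem dt_ne (h : Hub5 ℝ) (H : HubOk h) : dt (toE (hd1 h)) (toE (hd3 h)) (toE (hq h)) ≠ 0 := by
  have e : dt (toE (hd1 h)) (toE (hd3 h)) (toE (hq h)) = -(hDA h * hDC h) := by
    have e1 : dt (toE (hd1 h)) (toE (hd3 h)) (toE (hq h)) =
        vdet (hd1 h) (hd3 h) (hq h) := by
      unfold vdet vdot vcr dt
      simp only [toE0, toE1, toE2]
    rw [e1, hDC_eq]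
    unfold hq hDA
    rw [alg4]
    ring
  rw [e]
  exact neg_ne_zero.2 (mul_ne_zero H.a H.c)

end HSurj

/-- HSURJ -/
theorem hub_surj (h : Hub5 ℝ) (H : HubOk h) (x : Fin 5 → E3) :
    ∃ V : T3, ∀ k, cr (lk (hT h) (slotLink k)) (ptOn V (slotLink k) (hθ h k) - x k) = 0 := by
  have ht := H.t
  have hs := H.s
  have hb1 := H.b1
  have hb2 := H.b2
  set t := hth h / hDC h with ht'
  set u := hsh h / hDA h with hu'
  set τ := hDA h / (hDA h + hDC h) with hτ'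
  have t1 : 0 < (t - 1) / t := div_pos (by linarith) (by linarith)
  have t2 : (t - 1) / t < 1 := by rw [div_lt_one (by linarith)]; linarith
  have u1 : 0 < u / (u - 1) := div_pos_of_neg_of_neg hs (by linarith)
  have u2 : u / (u - 1) < 1 := by
    rw [div_lt_one_of_neg (by linarith)]
    linarith
  obtain ⟨V0, V1, V2, V3, a, b, c, d, e, h0, h1, h2, h3, h4⟩ :=
    HSurj.core (toE (hd1 h)) (toE (hd3 h)) (toE (hq h)) (HSurj.dt_ne h H) (1 / 3)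
      (1 - (2 / 3) * ((t - 1) / t)) τ ((2 / 3) * (u / (u - 1))) (2 / 3)
      (by intro h; linarith) (by norm_num) hb1.ne' (by intro h; linarith)
      (by intro h; linarith) (by norm_num) (x 0) (x 1) (x 2) (x 3) (x 4)
  refine ⟨![V0, V1, V2, V3], ?_⟩
  intro k
  fin_cases k
  · exact HSurj.cr_zero_of (HSurj.lk0 h) h0
  · exact HSurj.cr_zero_of (HSurj.lk0 h) h1
  · exact HSurj.cr_zero_of (HSurj.lk1 h H) h2
  · exact HSurj.cr_zero_of (HSurj.lk2 h) h3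
  · exact HSurj.cr_zero_of (HSurj.lk2 h) h4

end Pool.Agent.H834R6.CC
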