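import Pool.Agent.H834R6.CC.Defs
import Pool.Agent.H834R6.CC.HGeo
import Pool.Agent.H834R6.CC.HRow
import Pool.Agent.H834R6.CC.HDet
import Pool.Agent.H834R6.CC.HSurj
import Pool.Agent.H834R6.CC.HDisp
import Pool.Agent.H834R6.CC.HKer

/-! PATT: assembly of the pattern. -/

set_option autoImplicit false
set_option maxHeartbeats 4000000

namespace Pool.Agent.H834R6.CC

open Pool.Agent.H282R2 Set Filter Topology

namespace Patt

/-! ### vectors -/

theorem dual_expand (d d0 d1 φ : E3) : dt d d0 d1 • φ =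
    (inner ℝ φ d : ℝ) • cr d0 d1 + (inner ℝ φ d0 : ℝ) • cr d1 d + (inner ℝ φ d1 : ℝ) • cr d d0 := by
  simp only [inner3]
  apply ext3 <;> simp [dt] <;> ring

theorem cr_anti (u v : E3) : cr u v = -cr v u := by
  apply ext3 <;> simp <;> ring

theorem expand_perp {d d0 d1 φ : E3} (hΔ : dt d d0 d1 ≠ 0) (hφ : (inner ℝ φ d : ℝ) = 0) :
    φ = ((inner ℝ φ d1 : ℝ) / dt d d0 d1) • cr d d0 +
      (-(inner ℝ φ d0 : ℝ) / dt d d0 d1) • cr d d1 := by
  have h := dual_expand d d0 d1 φ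
  rw [hφ, zero_smul, zero_add, cr_anti d1 d] at h
  obtain ⟨α, hα⟩ : ∃ α : ℝ, α = inner ℝ φ d0 := ⟨_, rfl⟩
  obtain ⟨β, hβ⟩ : ∃ β : ℝ, β = inner ℝ φ d1 := ⟨_, rfl⟩
  rw [← hα, ← hβ] at h ⊢
  calc φ = (dt d d0 d1)⁻¹ • (dt d d0 d1 • φ) := by
        rw [smul_smul, inv_mul_cancel₀ hΔ, one_smul]
    _ = (dt d d0 d1)⁻¹ • (α • -cr d d1 + β • cr d d0) := by rw [h]
    _ = _ := by rw [div_eq_inv_mul, div_eq_inv_mul]; module

theorem inner_cr_swap (l l' y : E3) : (inner ℝ (cr l l') y : ℝ) = -(inner ℝ (cr l y) l' : ℝ) := by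
  simp only [inner3, cr_zero, cr_one, cr_two]; ring

theorem perp_par {d d0 d1 x : E3} (hΔ : dt d d0 d1 ≠ 0) (h0 : (inner ℝ (cr d d0) x : ℝ) = 0)
    (h1 : (inner ℝ (cr d d1) x : ℝ) = 0) : cr d x = 0 := by
  have h := dual_expand d d0 d1 (cr d x)
  have e0 : (inner ℝ (cr d x) d : ℝ) = 0 := by
    rw [real_inner_comm]; exact inner_cr_left _ _
  have e1 : (inner ℝ (cr d x) d0 : ℝ) = 0 := by
    rw [inner_cr_swap] at h0; linarith
  have e2 : (inner ℝ (cr d x) d1 : ℝ) = 0 := by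
    rw [inner_cr_swap] at h1; linarith
  rw [e0, e1, e2] at h
  simp only [zero_smul, add_zero] at h
  exact (smul_eq_zero.1 h).resolve_left hΔ

theorem par_perp {d y φ : E3} (hd : d ≠ 0) (h : cr d y = 0) (hφ : (inner ℝ φ d : ℝ) = 0) :
    (inner ℝ φ y : ℝ) = 0 := by
  have h1 : (inner ℝ (cr d y) (cr d φ) : ℝ) =
      (inner ℝ d d : ℝ) * (inner ℝ φ y : ℝ) - (inner ℝ φ d : ℝ) * (inner ℝ y d : ℝ) := by
    simp only [inner3, cr_zero, cr_one, cr_two]; ring
  rw [h, inner_zero_left, hφ, zero_mul, sub_zero] at h1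
  have h2 : (inner ℝ d d : ℝ) ≠ 0 := by
    rw [real_inner_self_eq_norm_sq]
    exact pow_ne_zero _ (norm_ne_zero_iff.2 hd)
  rcases mul_eq_zero.1 h1.symm with h3 | h3
  · exact absurd h3 h2
  · exact h3

theorem ne_zero_of_dt {d d0 d1 : E3} (h : dt d d0 d1 ≠ 0) : d ≠ 0 := by
  rintro rfl
  apply h
  simp [dt]

theorem cr_ne0 {d d0 d1 : E3} (h : dt d d0 d1 ≠ 0) : cr d d0 ≠ 0 := by
  intro h0
  apply h
  have : dt d d0 d1 = inner ℝ (cr d d0) d1 := by
    simp only [inner3, dt, cr_zero, cr_one, cr_two]; ring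
  rw [this, h0, inner_zero_left]

theorem cr_ne1 {d d0 d1 : E3} (h : dt d d0 d1 ≠ 0) : cr d d1 ≠ 0 := by
  intro h0
  apply h
  have : dt d d0 d1 = -inner ℝ (cr d d1) d0 := by
    simp only [inner3, dt, cr_zero, cr_one, cr_two]; ring
  rw [this, h0, inner_zero_left, neg_zero]

/-- a vector with given products -/
theorem exists_x {d d0 d1 : E3} (hΔ : dt d d0 d1 ≠ 0) {m0 m1 : ℝ} (h0 : m0 ≠ 0) (h1 : m1 ≠ 0)
    (a b : ℝ) : ∃ x : E3, (inner ℝ (m0 • cr d d0) x : ℝ) = a ∧
      (inner ℝ (m1 • cr d d1) x : ℝ) = b := by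
  refine ⟨(a / (m0 * dt d d0 d1)) • d1 + (-b / (m1 * dt d d0 d1)) • d0, ?_, ?_⟩
  · have e1 : (inner ℝ (cr d d0) d1 : ℝ) = dt d d0 d1 := by
      simp only [inner3, dt, cr_zero, cr_one, cr_two]; ring
    have e2 : (inner ℝ (cr d d0) d0 : ℝ) = 0 := by
      rw [real_inner_comm]; exact inner_cr_right _ _
    rw [inner_smul_left, inner_add_right, inner_smul_right, inner_smul_right, e1, e2]
    simp only [RCLike.conj_to_real]
    field_simp
    ring
  · have e1 : (inner ℝ (cr d d1) d0 : ℝ) = -dt d d0 d1 := by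
      simp only [inner3, dt, cr_zero, cr_one, cr_two]; ring
    have e2 : (inner ℝ (cr d d1) d1 : ℝ) = 0 := by
      rw [real_inner_comm]; exact inner_cr_right _ _
    rw [inner_smul_left, inner_add_right, inner_smul_right, inner_smul_right, e1, e2]
    simp only [RCLike.conj_to_real]
    field_simp
    ring

theorem toE_0 (v : V3 ℝ) : toE v 0 = v.1 := rfl
theorem toE_1 (v : V3 ℝ) : toE v 1 = v.2.1 := rfl
theorem toE_2 (v : V3 ℝ) : toE v 2 = v.2.2 := rfl

theorem inner_toE (u v : V3 ℝ) : (inner ℝ (toE u) (toE v) : ℝ) = vdot u v := by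
  rw [inner3]; simp only [toE_0, toE_1, toE_2, vdot]

theorem dt_toE (u v w : V3 ℝ) : dt (toE u) (toE v) (toE w) = vdet u v w := by
  simp only [dt, toE_0, toE_1, toE_2, vdet, vdot, vcr]

theorem toE_smul (c : ℝ) (v : V3 ℝ) : toE (vsmul c v) = c • toE v := by
  apply ext3 <;> simp [toE_0, toE_1, toE_2, vsmul]

/-! ### combinatorics -/

theorem partner_ne : ∀ (p : PI) (k : Fin 5) (e : Fin 2), partner p k e ≠ p := by
  decide +kernel

theorem partner_hub : ∀ (p : PI) (k : Fin 5) (e : Fin 2), hubIx (partner p k e) k = hubIx p k := by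
  decide +kernel

/-! ### the links -/

variable (η : Fin 13 → V3 ℝ)

/-- direction of the link of `p` in slot `k` -/
noncomputable def d (p : PI) (k : Fin 5) : E3 := toE (dirOf η p k)

/-- the force -/
noncomputable def F (p : PI) (k : Fin 5) : E3 := toE (hrow (hub5 η p) k)

/-- the chain -/
noncomputable def X (p : PI) : T3 := hT (hub5 η p)

theorem link {η : Fin 13 → V3 ℝ} (hH : ∀ p, HubOk (hub5 η p)) :
    ∃ c : PI → Fin 5 → ℝ, (∀ p k, c p k ≠ 0) ∧ ∀ p k, lk (X η p) (slotLink k) = c p k • d η p k := by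
  have h : ∀ p k, ∃ c : ℝ, c ≠ 0 ∧ lk (X η p) (slotLink k) = c • d η p k := by
    intro p k
    obtain ⟨-, -, e0, e1, e2, -⟩ := hub_geo (hub5 η p) (hH p)
    have H := hH p
    have n0 : (3 / 2) * (hth (hub5 η p) / hDC (hub5 η p)) ≠ 0 := by
      have := H.t
      positivity
    have hs : hDA (hub5 η p) + hDC (hub5 η p) ≠ 0 := by
      intro h0
      have := H.b1
      rw [h0, div_zero] at this
      exact lt_irrefl _ this
    have n1 : -((hDA (hub5 η p) + hDC (hub5 η p)) / (hDA (hub5 η p) * hDC (hub5 η p))) ≠ 0 :=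
      neg_ne_zero.2 (div_ne_zero hs (mul_ne_zero H.a H.c))
    have n2 : (3 / 2) * (1 - hsh (hub5 η p) / hDA (hub5 η p)) ≠ 0 := by
      have h1 := H.s
      have : 0 < 1 - hsh (hub5 η p) / hDA (hub5 η p) := by linarith
      positivity
    fin_cases k
    · exact ⟨_, n0, e0⟩
    · exact ⟨_, n0, e0⟩
    · exact ⟨_, n1, e1⟩
    · exact ⟨_, n2, e2⟩
    · exact ⟨_, n2, e2⟩
  choose c hc hc' using h
  exact ⟨c, hc, hc'⟩

theorem F_perp (p : PI) (k : Fin 5) : (inner ℝ (F η p k) (d η p k) : ℝ) = 0 := by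
  obtain ⟨h1, h3, h2⟩ := hub_perp (hub5 η p)
  unfold F d
  fin_cases k
  · show (inner ℝ (toE (vsmul (hDC (hub5 η p) - hth (hub5 η p)) (hf1 (hub5 η p))))
      (toE (hd1 (hub5 η p))) : ℝ) = 0
    rw [toE_smul, inner_smul_left, inner_toE, h1, mul_zero]
  · show (inner ℝ (toE (vsmul (hth (hub5 η p)) (hf1 (hub5 η p))))
      (toE (hd1 (hub5 η p))) : ℝ) = 0
    rw [toE_smul, inner_smul_left, inner_toE, h1, mul_zero]
  · show (inner ℝ (toE (vsmul (-(hDA (hub5 η p) + hDC (hub5 η p))) (hpsi (hub5 η p))))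
      (toE (hq (hub5 η p))) : ℝ) = 0
    rw [toE_smul, inner_smul_left, inner_toE, h2, mul_zero]
  · show (inner ℝ (toE (vsmul (hDA (hub5 η p) - hsh (hub5 η p)) (hf3 (hub5 η p))))
      (toE (hd3 (hub5 η p))) : ℝ) = 0
    rw [toE_smul, inner_smul_left, inner_toE, h3, mul_zero]
  · show (inner ℝ (toE (vsmul (hsh (hub5 η p)) (hf3 (hub5 η p))))
      (toE (hd3 (hub5 η p))) : ℝ) = 0
    rw [toE_smul, inner_smul_left, inner_toE, h3, mul_zero]

theorem F_frc {η : Fin 13 → V3 ℝ} (hH : ∀ p, HubOk (hub5 η p)) (p : PI) (k : Fin 5) :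
    ∃ c : ℝ, c ≠ 0 ∧ F η p k = c • toE (frcOf η p k) := by
  have H := hH p
  have hs : hDA (hub5 η p) + hDC (hub5 η p) ≠ 0 := by
    intro h0
    have := H.b1
    rw [h0, div_zero] at this
    exact lt_irrefl _ this
  have hth0 : hth (hub5 η p) ≠ 0 := by
    intro h0
    have := H.t
    rw [h0, zero_div] at this
    linarith
  have hth1 : hDC (hub5 η p) - hth (hub5 η p) ≠ 0 := by
    intro h0
    have := H.t
    rw [← sub_eq_zero.1 h0, div_self H.c] at this
    exact lt_irrefl _ this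
  have hsh0 : hsh (hub5 η p) ≠ 0 := by
    intro h0
    have := H.s
    rw [h0, zero_div] at this
    exact lt_irrefl _ this
  have hsh1 : hDA (hub5 η p) - hsh (hub5 η p) ≠ 0 := by
    intro h0
    have := H.s
    rw [← sub_eq_zero.1 h0, div_self H.a] at this
    linarith
  unfold F
  fin_cases k
  · exact ⟨_, hth1, toE_smul _ _⟩
  · exact ⟨_, hth0, toE_smul _ _⟩
  · exact ⟨_, neg_ne_zero.2 hs, toE_smul _ _⟩
  · exact ⟨_, hsh1, toE_smul _ _⟩
  · exact ⟨_, hsh0, toE_smul _ _⟩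

theorem F_ne {η : Fin 13 → V3 ℝ} (hH : ∀ p, HubOk (hub5 η p)) (hc : ∀ c, cond η c ≠ 0)
    (p : PI) (k : Fin 5) (e : Fin 2) : (inner ℝ (F η p k) (d η (partner p k e) k) : ℝ) ≠ 0 := by
  obtain ⟨c, hc0, hF⟩ := F_frc hH p k
  have h1 : condB η p k e ≠ 0 := hc (.inr (.inl (p, k, e)))
  rw [hF, inner_smul_left]
  unfold d
  rw [inner_toE]
  exact mul_ne_zero hc0 h1

theorem dt_ne {η : Fin 13 → V3 ℝ} (hc : ∀ c, cond η c ≠ 0) (p : PI) (k : Fin 5) :
    dt (d η p k) (d η (partner p k 0) k) (d η (partner p k 1) k) ≠ 0 := by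
  have h1 : condA η p k ≠ 0 := hc (.inl (p, k))
  unfold d
  rw [dt_toE]
  exact h1

/-- the normal vectors in terms of the directions -/
theorem nv_dir {η : Fin 13 → V3 ℝ} {c : PI → Fin 5 → ℝ}
    (hl : ∀ p k, lk (X η p) (slotLink k) = c p k • d η p k) (p p' : PI) (k : Fin 5) :
    cr (lk (X η p) (slotLink k)) (lk (X η p') (slotLink k)) =
      (c p k * c p' k) • cr (d η p k) (d η p' k) := by
  rw [hl, hl, cr_smul_1, cr_smul_2, smul_smul]

theorem exists_sigma {η : Fin 13 → V3 ℝ} (hH : ∀ p, HubOk (hub5 η p)) (hc : ∀ c, cond η c ≠ 0)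
    {c : PI → Fin 5 → ℝ} (hc0 : ∀ p k, c p k ≠ 0)
    (hl : ∀ p k, lk (X η p) (slotLink k) = c p k • d η p k) :
    ∃ σ : PI → Fin 5 → Fin 2 → ℝ, (∀ p k e, σ p k e ≠ 0) ∧ ∀ p k, F η p k =
      ∑ e, σ p k e • cr (lk (X η p) (slotLink k)) (lk (X η (partner p k e)) (slotLink k)) := by
  have h : ∀ p k, ∃ σ : Fin 2 → ℝ, (∀ e, σ e ≠ 0) ∧ F η p k =
      ∑ e, σ e • cr (lk (X η p) (slotLink k)) (lk (X η (partner p k e)) (slotLink k)) := by
    intro p k
    have hΔ := dt_ne hc p k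
    have hF := expand_perp hΔ (F_perp η p k)
    have hF0 := F_ne hH hc p k 0
    have hF1 := F_ne hH hc p k 1
    refine ⟨![((inner ℝ (F η p k) (d η (partner p k 1) k) : ℝ) /
        dt (d η p k) (d η (partner p k 0) k) (d η (partner p k 1) k)) /
          (c p k * c (partner p k 0) k),
      (-(inner ℝ (F η p k) (d η (partner p k 0) k) : ℝ) /
        dt (d η p k) (d η (partner p k 0) k) (d η (partner p k 1) k)) /
          (c p k * c (partner p k 1) k)], ?_, ?_⟩
    · intro e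
      fin_cases e
      · exact div_ne_zero (div_ne_zero hF1 hΔ) (mul_ne_zero (hc0 _ _) (hc0 _ _))
      · exact div_ne_zero (div_ne_zero (neg_ne_zero.2 hF0) hΔ) (mul_ne_zero (hc0 _ _) (hc0 _ _))
    · rw [Fin.sum_univ_two, nv_dir hl, nv_dir hl, smul_smul, smul_smul]
      conv_lhs => rw [hF]
      congr 2
      · exact (div_mul_cancel₀ _ (mul_ne_zero (hc0 _ _) (hc0 _ _))).symm
      · exact (div_mul_cancel₀ _ (mul_ne_zero (hc0 _ _) (hc0 _ _))).symm
  choose σ h1 h2 using h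
  exact ⟨σ, h1, h2⟩

theorem hpt_eq (p : PI) (k : Fin 5) : hpt (hub5 η p) k = toE (η (hubIx p k)) := by
  fin_cases k <;> rfl

/-- the contact -/
noncomputable def con (σ : PI → Fin 5 → Fin 2 → ℝ) (a : PI × Fin 5 × Fin 2) : Con PI where
  i := a.1
  l := slotLink a.2.1
  θ := hθ (hub5 η a.1) a.2.1
  j := partner a.1 a.2.1 a.2.2
  m := slotLink a.2.1
  θ' := hθ (hub5 η (partner a.1 a.2.1 a.2.2)) a.2.1
  σ := σ a.1 a.2.1 a.2.2

theorem ptOn_sub (U V : T3) (l : Fin 3) (θ : ℝ) :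
    ptOn (U - V) l θ = ptOn U l θ - ptOn V l θ := by
  unfold ptOn
  simp only [Pi.sub_apply]
  module

/-- an infinitesimal rigid motion -/
theorem ptOn_rigid (T : T3) (ω τ : E3) (l : Fin 3) (θ : ℝ) :
    ptOn (fun k => cr ω (T k) + τ) l θ = cr ω (ptOn T l θ) + τ := by
  unfold ptOn
  rw [cr_add_2, cr_smul_2, cr_smul_2]
  module

theorem LP_rigid (T : T3) (ω τ : E3) : LP T (fun k => cr ω (T k) + τ) := by
  intro l
  have h : lk (fun k => cr ω (T k) + τ : T3) l = cr ω (lk T l) := by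
    unfold lk
    apply ext3 <;> simp <;> ring
  rw [h]
  exact inner_cr_right _ _

theorem LP_sub {T U V : T3} (hU : LP T U) (hV : LP T V) : LP T (U - V) := by
  intro l
  have h : lk (U - V) l = lk U l - lk V l := by
    unfold lk
    simp only [Pi.sub_apply]
    module
  rw [h, inner_sub_right, hU l, hV l, sub_zero]

theorem cr_smul_iff {c : ℝ} (hc : c ≠ 0) {u v : E3} : cr (c • u) v = 0 ↔ cr u v = 0 := by
  rw [cr_smul_1]
  constructor
  · intro h; exact (smul_eq_zero.1 h).resolve_left hc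
  · intro h; rw [h, smul_zero]

theorem main {η : Fin 13 → V3 ℝ} (hH : ∀ p, HubOk (hub5 η p)) (hc : ∀ c, cond η c ≠ 0) :
    ∃ s : PI × Fin 5 × Fin 2 → Con PI, PatOk (X η) s := by
  obtain ⟨c, hc0, hl⟩ := link hH
  obtain ⟨σ, hσ0, hσ⟩ := exists_sigma hH hc hc0 hl
  have hd0 : ∀ p k, d η p k ≠ 0 := fun p k => ne_zero_of_dt (dt_ne hc p k)
  -- the normal vector of a contact
  have hnv : ∀ p k e, nv (X η) (con η σ (p, k, e)) =
      (c p k * c (partner p k e) k) • cr (d η p k) (d η (partner p k e) k) := fun p k e =>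
    nv_dir hl p (partner p k e) k
  have hcc : ∀ p k e, c p k * c (partner p k e) k ≠ 0 := fun p k e =>
    mul_ne_zero (hc0 _ _) (hc0 _ _)
  have hcr : ∀ p k e, cr (d η p k) (d η (partner p k e) k) ≠ 0 := by
    intro p k e
    fin_cases e
    · exact cr_ne0 (dt_ne hc p k)
    · exact cr_ne1 (dt_ne hc p k)
  -- equations of the contacts determine the point up to the direction
  have hpar : ∀ p k (y : E3), (∀ e, (inner ℝ (nv (X η) (con η σ (p, k, e))) y : ℝ) = 0) →
      cr (d η p k) y = 0 := by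
    intro p k y hy
    have h : ∀ e, (inner ℝ (cr (d η p k) (d η (partner p k e) k)) y : ℝ) = 0 := by
      intro e
      have h1 := hy e
      rw [hnv, inner_smul_left] at h1
      exact (mul_eq_zero.1 h1).resolve_left (hcc p k e)
    exact perp_par (dt_ne hc p k) (h 0) (h 1)
  refine ⟨con η σ, ⟨?_, ?_, ?_, ?_, ?_⟩⟩
  · -- ok
    rintro ⟨p, k, e⟩
    obtain ⟨g1, g2, -⟩ := hub_geo (hub5 η p) (hH p)
    obtain ⟨g1', g2', -⟩ := hub_geo (hub5 η (partner p k e)) (hH _)
    refine ⟨(partner_ne p k e).symm, (g1 k).1, (g1 k).2, (g1' k).1, (g1' k).2, ?_, ?_, hσ0 p k e⟩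
    · have e1 := g2 k
      have e2 := g2' k
      rw [hpt_eq] at e1 e2
      rw [partner_hub] at e2
      exact e1.trans e2.symm
    · rw [hnv]
      exact smul_ne_zero (hcc p k e) (hcr p k e)
  · -- dep
    intro p V hV
    have h1 := hub_row (hub5 η p) (hH p) V hV
    rw [Fintype.sum_prod_type, Finset.sum_eq_single p]
    · rw [Fintype.sum_prod_type]
      refine Eq.trans ?_ h1
      refine Finset.sum_congr rfl fun k _ => ?_
      have h2 : toE (hrow (hub5 η p) k) = F η p k := rfl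
      rw [h2, hσ p k, sum_inner]
      refine Finset.sum_congr rfl fun e _ => ?_
      rw [inner_smul_left]
      exact if_pos (rfl : (con η σ (p, k, e)).i = p)
    · intro p' _ hp'
      refine Finset.sum_eq_zero fun x _ => ?_
      exact if_neg (show ¬ (con η σ (p', x)).i = p from hp')
    · intro h; exact absurd (Finset.mem_univ _) h
  · -- det
    intro p V hV h0
    refine hub_det (hub5 η p) (hH p) V hV fun k => ?_
    have h2 : lk (hT (hub5 η p)) (slotLink k) = c p k • d η p k := hl p k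
    rw [h2, cr_smul_iff (hc0 p k)]
    exact hpar p k _ fun e => h0 (p, k, e) rfl
  · -- dir
    intro p
    have hx : ∀ k, ∃ x : E3, ∀ e, (inner ℝ (nv (X η) (con η σ (p, k, e))) x : ℝ) = σ p k e := by
      intro k
      obtain ⟨x, h1, h2⟩ := exists_x (dt_ne hc p k) (hcc p k 0) (hcc p k 1) (σ p k 0) (σ p k 1)
      refine ⟨x, fun e => ?_⟩
      fin_cases e
      · show (inner ℝ (nv (X η) (con η σ (p, k, 0))) x : ℝ) = σ p k 0
        rw [hnv]; exact h1
      · show (inner ℝ (nv (X η) (con η σ (p, k, 1))) x : ℝ) = σ p k 1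
        rw [hnv]; exact h2
    choose x hx using hx
    obtain ⟨w, hw⟩ := hub_surj (hub5 η p) (hH p) x
    refine ⟨w, ?_⟩
    rintro ⟨p', k, e⟩ hp
    have hp' : p' = p := hp
    subst hp'
    have h1 := hw k
    have h2 : (inner ℝ (nv (X η) (con η σ (p', k, e)))
        (ptOn w (slotLink k) (hθ (hub5 η p') k) - x k) : ℝ) = 0 := by
      show (inner ℝ (cr (lk (X η p') (slotLink k)) (lk (X η (partner p' k e)) (slotLink k)))
        (ptOn w (slotLink k) (hθ (hub5 η p') k) - x k) : ℝ) = 0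
      rw [inner_cr_swap]
      have h3 : cr (lk (X η p') (slotLink k))
        (ptOn w (slotLink k) (hθ (hub5 η p') k) - x k) = 0 := h1
      rw [h3, inner_zero_left, neg_zero]
    rw [inner_sub_right, hx k e, sub_eq_zero] at h2
    show 0 < σ p' k e * (inner ℝ (nv (X η) (con η σ (p', k, e)))
        (ptOn w (slotLink k) (hθ (hub5 η p') k)) : ℝ)
    rw [h2]
    exact mul_self_pos.2 (hσ0 p' k e)
  · -- rigid
    intro u hu hcon
    obtain ⟨x, hxdef⟩ : ∃ x : PI → Fin 5 → E3,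
      x = fun p k => ptOn (u p) (slotLink k) (hθ (hub5 η p) k) := ⟨_, rfl⟩
    have hxe : ∀ p k e, (inner ℝ (cr (toE (dirOf η p k)) (toE (dirOf η (partner p k e) k)))
        (x p k - x (partner p k e) k) : ℝ) = 0 := by
      intro p k e
      have h1 : (inner ℝ (nv (X η) (con η σ (p, k, e))) (x p k) : ℝ) =
          inner ℝ (nv (X η) (con η σ (p, k, e))) (x (partner p k e) k) := by
        rw [hxdef]
        exact hcon (p, k, e)
      rw [← sub_eq_zero, ← inner_sub_right, hnv, inner_smul_left] at h1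
      exact (mul_eq_zero.1 h1).resolve_left (hcc p k e)
    obtain ⟨D, hD⟩ := hub_disp η (fun p k => hc (.inl (p, k))) x hxe
    have hDrow : ∀ p : PI, ∑ k : Fin 5,
        (inner ℝ (toE (hrow (hub5 η p) k)) (D (hubIx p k)) : ℝ) = 0 := by
      intro p
      have h1 := hub_row (hub5 η p) (hH p) (u p) (hu p)
      rw [← h1]
      refine Finset.sum_congr rfl fun k _ => ?_
      have h2 : (inner ℝ (F η p k) (x p k - D (hubIx p k)) : ℝ) = 0 :=
        par_perp (hd0 p k) (hD p k) (F_perp η p k)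
      rw [inner_sub_right, sub_eq_zero] at h2
      rw [hxdef] at h2
      exact h2.symm
    obtain ⟨ω, τ, hωτ⟩ := hub_kernel η (hc (.inr (.inr ()))) hH D hDrow
    refine ⟨ω, τ, ?_⟩
    intro p
    have hV : u p - (fun k => cr ω (X η p k) + τ : T3) = 0 := by
      refine hub_det (hub5 η p) (hH p) _
        (LP_sub (hu p) (LP_rigid (hT (hub5 η p)) ω τ)) fun k => ?_
      have h2 : lk (hT (hub5 η p)) (slotLink k) = c p k • d η p k := hl p k
      rw [h2, cr_smul_iff (hc0 p k), ptOn_sub]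
      have h3 : ptOn (fun k => cr ω (X η p k) + τ : T3) (slotLink k) (hθ (hub5 η p) k) =
          D (hubIx p k) := by
        rw [ptOn_rigid, hωτ]
        have h4 := (hub_geo (hub5 η p) (hH p)).2.1 k
        rw [hpt_eq] at h4
        have h5 : ptOn (X η p) (slotLink k) (hθ (hub5 η p) k) = toE (η (hubIx p k)) := h4
        rw [h5]
      rw [h3]
      have h6 := hD p k
      rw [hxdef] at h6
      exact h6
    intro k
    have := congrFun hV k
    simp only [Pi.sub_apply, Pi.zero_apply, sub_eq_zero] at this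
    exact this

end Patt

/-- PATT: assembly of the pattern -/
theorem pattern_ok (η : Fin 13 → V3 ℝ) (hH : ∀ p, HubOk (hub5 η p)) (hc : ∀ c, cond η c ≠ 0) :
    ∃ s : PI × Fin 5 × Fin 2 → Con PI, PatOk (fun p => hT (hub5 η p)) s :=
  Patt.main hH hc

end Pool.Agent.H834R6.CC
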