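import Pool.Agent.H834R6.CC.CGen
import Pool.Agent.H834R6.CC.NumAB
import Pool.Agent.H834R6.CC.NumDet
import Pool.Agent.H834R6.CC.HBase
import Pool.Agent.H834R6.CC.HCont
import Pool.Agent.H834R6.CC.HGeo
import Pool.Agent.H834R6.CC.NDeg
import Pool.Agent.H834R6.CC.Patt
import Pool.Agent.H834R6.CC.PatG

set_option autoImplicit false
set_option maxHeartbeats 4000000

namespace Pool.Agent.H834R6.CC

open Pool.Agent.H282R2 Set Filter Topology

/-- all polynomial conditions hold for the numerical instance -/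
theorem cond_etaZ (c : CI) : cond etaZ c ≠ 0 := by
  rcases c with c | c | c
  · exact num_ab.1 c.1 c.2
  · exact num_ab.2 c.1 c.2.1 c.2.2
  · exact num_det

/-- trapped families of three-link chains exist in every open set -/
theorem gadget (U : Set T3) (hU : IsOpen U) (hne : U.Nonempty) :
    ∃ X : PI × Fin 5 → T3, (∀ i, X i ∈ U) ∧ ∀ᶠ Y in 𝓝 X, Trap Y := by
  obtain ⟨T, hTU, hT0⟩ := nondeg_dense U hU hne
  obtain ⟨h, H, rfl⟩ := hub_base T hT0
  obtain ⟨δ, hδ, hcont⟩ := hub_cont h H U hU hTU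
  obtain ⟨t, ht0, ht1, hc⟩ := cond_generic cond_etaZ (baseEta h) δ hδ
  have hη := hcont t ht0 ht1
  obtain ⟨s, hs⟩ := pattern_ok (etaT (baseEta h) t) (fun p => (hη p).1) hc
  let p0 : PI := (0, 0, 0, 0)
  obtain ⟨-, -, -, g1, g2, g3⟩ := hub_geo (hub5 (etaT (baseEta h) t) p0) (hη p0).1
  refine pat_gadget (fun p => hT (hub5 (etaT (baseEta h) t) p)) s hs p0 ?_ U hU (fun p => (hη p).2)
  -- the joint of `p0` is not straight
  set X := hT (hub5 (etaT (baseEta h) t) p0) with hX
  intro h0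
  have e1 : lk X 1 = X 2 - X 1 := rfl
  have e2 : lk X 2 = X 3 - X 2 := rfl
  have e3 : cr (lk X 1) (lk X 2) = 0 := by
    have : cr (X 2 - X 1) (X 3 - X 1) = cr (lk X 1) (lk X 2) := by
      rw [e1, e2]
      apply ext3 <;> simp <;> ring
    rw [← this]; exact h0
  rw [g1, g2, cr_smul_1, cr_smul_2, smul_smul, smul_eq_zero] at e3
  have H0 := (hη p0).1
  have hΔ : hDA (hub5 (etaT (baseEta h) t) p0) + hDC (hub5 (etaT (baseEta h) t) p0) ≠ 0 := by
    intro e
    have := H0.b1
    rw [e, div_zero] at this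
    exact lt_irrefl _ this
  rcases e3 with e3 | e3
  · have hne2 : (3 / 2 : ℝ) * (1 - hsh (hub5 (etaT (baseEta h) t) p0) /
        hDA (hub5 (etaT (baseEta h) t) p0)) ≠ 0 := by
      have := H0.s
      apply ne_of_gt
      linarith
    have hne1 : -((hDA (hub5 (etaT (baseEta h) t) p0) + hDC (hub5 (etaT (baseEta h) t) p0)) /
        (hDA (hub5 (etaT (baseEta h) t) p0) * hDC (hub5 (etaT (baseEta h) t) p0))) ≠ 0 := by
      rw [neg_ne_zero]
      exact div_ne_zero hΔ (mul_ne_zero H0.a H0.c)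
    exact (mul_ne_zero hne1 hne2) e3
  · apply g3
    have e5 : dt (toE (hd1 (hub5 (etaT (baseEta h) t) p0))) (toE (hd3 (hub5 (etaT (baseEta h) t) p0)))
        (toE (hq (hub5 (etaT (baseEta h) t) p0))) =
        - inner ℝ (toE (hd1 (hub5 (etaT (baseEta h) t) p0)))
          (cr (toE (hq (hub5 (etaT (baseEta h) t) p0))) (toE (hd3 (hub5 (etaT (baseEta h) t) p0)))) := by
      rw [inner3, dt]; simp; ring
    rw [e5, e3]
    simp

end Pool.Agent.H834R6.CC
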