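import Pool.Agent.H834R6.CC.Defs

/-! Task PLACE: chains in general position (helper959). -/

set_option autoImplicit false
set_option maxHeartbeats 4000000

namespace Pool.Agent.H834R6.CC

open Pool.Agent.H282R2 Set Filter Topology MeasureTheory

namespace Place

theorem disjoint_of_dt {a b c d : E3} (h : dt (b - a) (d - c) (c - a) ≠ 0) :
    Disjoint (segment ℝ a b) (segment ℝ c d) := by
  rw [Set.disjoint_left]
  intro x hx hy
  rw [segment_eq_image'] at hx hy
  obtain ⟨s, _, hs⟩ := hx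
  obtain ⟨t, _, ht⟩ := hy
  apply h
  simp only at hs ht
  have e : c - a = s • (b - a) + (-t) • (d - c) := by
    have : c - a = (a + s • (b - a)) - (c + t • (d - c)) + (c - a) := by rw [hs, ht]; simp
    rw [this]; module
  rw [e, dt_add_3, dt_smul_3, dt_smul_3, dt_self_13, dt_self_23]; ring

theorem inter_of_cr {a b c : E3} (h : cr (b - a) (c - b) ≠ 0) :
    segment ℝ a b ∩ segment ℝ b c = {b} := by
  apply Set.eq_singleton_iff_unique_mem.2
  refine ⟨⟨right_mem_segment ℝ a b, left_mem_segment ℝ b c⟩, ?_⟩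
  rintro x ⟨hx, hy⟩
  rw [segment_eq_image'] at hx hy
  obtain ⟨s, _, hs⟩ := hx
  obtain ⟨t, _, ht⟩ := hy
  simp only at hs ht
  have e : (1 - s) • (b - a) = (-t) • (c - b) := by
    have : (1 - s) • (b - a) = b - (a + s • (b - a)) := by module
    rw [this, hs, ← ht]; module
  have e1 : cr ((1 - s) • (b - a)) (c - b) = 0 := by
    rw [e, cr_smul_1, cr_self, smul_zero]
  rw [cr_smul_1, smul_eq_zero] at e1
  have e2 : 1 - s = 0 := e1.resolve_right h
  rw [← hs]
  have : s = 1 := by linarith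
  rw [this]; module

theorem dt_inner (u w y : E3) : dt u w y = inner ℝ (cr u w) y := by
  rw [inner3]
  simp [dt]
  ring

theorem null_plane (a u w : E3) (h : cr u w ≠ 0) :
    (volume : Measure E3) {x | dt u w (x - a) = 0} = 0 := by
  have h1 : {x : E3 | dt u w (x - a) = 0} =
      (fun x : E3 => x + (-a)) ⁻¹' (((ℝ ∙ (cr u w))ᗮ : Submodule ℝ E3) : Set E3) := by
    ext x
    show dt u w (x - a) = 0 ↔ (x + (-a)) ∈ ((ℝ ∙ (cr u w))ᗮ : Submodule ℝ E3)
    rw [Submodule.mem_orthogonal_singleton_iff_inner_right, dt_inner, sub_eq_add_neg]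
  rw [h1, measure_preimage_add_right]
  apply Measure.addHaar_submodule
  intro htop
  have h2 : cr u w ∈ ((ℝ ∙ (cr u w))ᗮ : Submodule ℝ E3) := by rw [htop]; trivial
  rw [Submodule.mem_orthogonal_singleton_iff_inner_right, inner_self_eq_zero] at h2
  exact h h2

theorem exists_good (O : Set E3) (hO : IsOpen O) (hne : O.Nonempty) (T : Set (E3 × E3 × E3))
    (hT : T.Countable) (h : ∀ t ∈ T, cr t.2.1 t.2.2 ≠ 0) :
    ∃ x ∈ O, ∀ t ∈ T, dt t.2.1 t.2.2 (x - t.1) ≠ 0 := by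
  by_contra hcon
  push Not at hcon
  have h1 : O ⊆ ⋃ t ∈ T, {x : E3 | dt t.2.1 t.2.2 (x - t.1) = 0} := by
    intro x hx
    obtain ⟨t, ht, hxt⟩ := hcon x hx
    exact Set.mem_biUnion ht hxt
  have h2 : (volume : Measure E3) (⋃ t ∈ T, {x : E3 | dt t.2.1 t.2.2 (x - t.1) = 0}) = 0 := by
    rw [measure_biUnion_null_iff hT]
    intro t ht
    exact null_plane _ _ _ (h t ht)
  have h3 : 0 < (volume : Measure E3) O := hO.measure_pos volume hne
  exact absurd (measure_mono_null h1 h2) h3.ne'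

theorem exists_w (u : E3) (hu : u ≠ 0) : ∃ w : E3, cr u w ≠ 0 := by
  by_contra hcon
  push Not at hcon
  have h1 := hcon !₂[(1 : ℝ), 0, 0]
  have h2 := hcon !₂[(0 : ℝ), 1, 0]
  have e1 : cr u !₂[(1 : ℝ), 0, 0] 1 = 0 := by rw [h1]; rfl
  have e2 : cr u !₂[(1 : ℝ), 0, 0] 2 = 0 := by rw [h1]; rfl
  have e3 : cr u !₂[(0 : ℝ), 1, 0] 2 = 0 := by rw [h2]; rfl
  apply hu
  apply ext3
  · simpa using e3
  · simpa using e2
  · simpa using e1

theorem cr_e12 : cr !₂[(1 : ℝ), 0, 0] !₂[(0 : ℝ), 1, 0] ≠ 0 := by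
  intro h
  have : cr !₂[(1 : ℝ), 0, 0] !₂[(0 : ℝ), 1, 0] 2 = 0 := by rw [h]; rfl
  simp at this

/-- a point in general position with respect to a finite set -/
def Gd (F : Finset E3) (x : E3) : Prop :=
  (∀ a ∈ F, a ≠ x) ∧ (∀ a ∈ F, ∀ b ∈ F, a ≠ b → cr (b - a) (x - b) ≠ 0) ∧
    ∀ a ∈ F, ∀ b ∈ F, ∀ c ∈ F, cr (b - a) (c - a) ≠ 0 → dt (b - a) (c - a) (x - a) ≠ 0

theorem step (O : Set E3) (hO : IsOpen O) (hne : O.Nonempty) (F : Finset E3) :
    ∃ x ∈ O, Gd F x := by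
  classical
  have hW : ∀ u : E3, ∃ w : E3, u ≠ 0 → cr u w ≠ 0 := by
    intro u
    by_cases hu : u = 0
    · exact ⟨0, fun h => absurd hu h⟩
    · obtain ⟨w, hw⟩ := exists_w u hu
      exact ⟨w, fun _ => hw⟩
  choose W hW using hW
  let S : Set (E3 × E3 × E3) := ((F ×ˢ F ×ˢ F : Finset (E3 × E3 × E3)) : Set (E3 × E3 × E3))
  let f1 : E3 × E3 × E3 → E3 × E3 × E3 := fun p => (p.1, !₂[(1 : ℝ), 0, 0], !₂[(0 : ℝ), 1, 0])
  let f2 : E3 × E3 × E3 → E3 × E3 × E3 := fun p => (p.2.1, p.2.1 - p.1, W (p.2.1 - p.1))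
  let f3 : E3 × E3 × E3 → E3 × E3 × E3 := fun p => (p.1, p.2.1 - p.1, p.2.2 - p.1)
  let T : Set (E3 × E3 × E3) := {t | cr t.2.1 t.2.2 ≠ 0} ∩ (f1 '' S ∪ f2 '' S ∪ f3 '' S)
  have hSf : S.Finite := Finset.finite_toSet _
  have hTc : T.Countable :=
    ((((hSf.image f1).union (hSf.image f2)).union (hSf.image f3)).countable).mono
      Set.inter_subset_right
  obtain ⟨x, hx, hgood⟩ := exists_good O hO hne T hTc (fun t ht => ht.1)
  have hmem : ∀ a ∈ F, ∀ b ∈ F, ∀ c ∈ F, (a, b, c) ∈ S := by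
    intro a ha b hb c hc
    show (a, b, c) ∈ ((F ×ˢ F ×ˢ F : Finset (E3 × E3 × E3)) : Set (E3 × E3 × E3))
    rw [Finset.mem_coe, Finset.mem_product, Finset.mem_product]
    exact ⟨ha, hb, hc⟩
  refine ⟨x, hx, ?_, ?_, ?_⟩
  · intro a ha hax
    have h1 := hgood (f1 (a, a, a)) ⟨cr_e12, Or.inl (Or.inl ⟨(a, a, a), hmem a ha a ha a ha, rfl⟩)⟩
    apply h1
    show dt _ _ (x - a) = 0
    rw [hax, sub_self, dt_inner, inner_zero_right]
  · intro a ha b hb hab
    have hne' : b - a ≠ 0 := sub_ne_zero.2 (Ne.symm hab)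
    have h1 := hgood (f2 (a, b, a)) ⟨hW _ hne', Or.inl (Or.inr ⟨(a, b, a), hmem a ha b hb a ha, rfl⟩)⟩
    intro h0
    apply h1
    show dt (b - a) (W (b - a)) (x - b) = 0
    have h2 : dt (b - a) (W (b - a)) (x - b) = - inner ℝ (W (b - a)) (cr (b - a) (x - b)) := by
      rw [inner3]
      simp [dt]
      ring
    rw [h2, h0, inner_zero_right, neg_zero]
  · intro a ha b hb c hc habc
    exact hgood (f3 (a, b, c)) ⟨habc, Or.inr ⟨(a, b, c), hmem a ha b hb c hc, rfl⟩⟩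

theorem exists_seq (O : ℕ → Set E3) (hO : ∀ i, IsOpen (O i)) (hne : ∀ i, (O i).Nonempty) :
    ∃ v : ℕ → E3, (∀ i, v i ∈ O i) ∧
      (∀ m, ∀ i < m, v i ≠ v m) ∧
      (∀ m, ∀ i < m, ∀ j < m, v i ≠ v j → cr (v j - v i) (v m - v j) ≠ 0) ∧
      ∀ m, ∀ i < m, ∀ j < m, ∀ k < m, cr (v j - v i) (v k - v i) ≠ 0 →
        dt (v j - v i) (v k - v i) (v m - v i) ≠ 0 := by
  classical
  have hch : ∀ (m : ℕ) (F : Finset E3), ∃ x, x ∈ O m ∧ Gd F x := fun m F =>
    step (O m) (hO m) (hne m) F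
  choose ch hch1 hch2 using hch
  let g : ℕ → Finset E3 := fun m => Nat.rec ∅ (fun m F => insert (ch m F) F) m
  have hg : ∀ m, g (m + 1) = insert (ch m (g m)) (g m) := fun m => rfl
  have hmem : ∀ m, ∀ i < m, ch i (g i) ∈ g m := by
    intro m
    induction m with
    | zero => intro i hi; omega
    | succ m ih =>
      intro i hi
      rw [hg]
      by_cases him : i = m
      · subst him
        exact Finset.mem_insert_self _ _
      · exact Finset.mem_insert_of_mem (ih i (by omega))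
  refine ⟨fun m => ch m (g m), fun i => hch1 i (g i), ?_, ?_, ?_⟩
  · intro m i hi
    exact (hch2 m (g m)).1 _ (hmem m i hi)
  · intro m i hi j hj
    exact (hch2 m (g m)).2.1 _ (hmem m i hi) _ (hmem m j hj)
  · intro m i hi j hj k hk
    exact (hch2 m (g m)).2.2 _ (hmem m i hi) _ (hmem m j hj) _ (hmem m k hk)

end Place

/-- PLACE: general position -/
theorem place (n : ℕ) (O : ℕ → Set E3) (hO : ∀ i, IsOpen (O i)) (hne : ∀ i, (O i).Nonempty) :
    ∃ v : ℕ → E3, (∀ i, v i ∈ O i) ∧ IsChain n v := by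
  obtain ⟨v, hv, h1, h2, h3⟩ := Place.exists_seq O hO hne
  refine ⟨v, hv, ?_, ?_, ?_⟩
  · intro i _
    exact h1 (i + 1) i (by omega)
  · intro i j hij _
    apply Place.disjoint_of_dt
    have e1 : cr (v (i + 1) - v i) (v j - v (i + 1)) ≠ 0 :=
      h2 j i (by omega) (i + 1) (by omega) (h1 (i + 1) i (by omega))
    have e2 : cr (v (i + 1) - v i) (v j - v i) ≠ 0 := by
      have : v j - v i = (v j - v (i + 1)) + (v (i + 1) - v i) := by abel
      rw [this, cr_add_2, cr_self, add_zero]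
      exact e1
    have e3 := h3 (j + 1) i (by omega) (i + 1) (by omega) j (by omega) e2
    have e4 : dt (v (i + 1) - v i) (v (j + 1) - v j) (v j - v i) =
        - dt (v (i + 1) - v i) (v j - v i) (v (j + 1) - v i) := by
      simp only [dt, PiLp.sub_apply]
      ring
    rw [e4]
    exact neg_ne_zero.2 e3
  · intro i _
    apply Place.inter_of_cr
    exact h2 (i + 2) i (by omega) (i + 1) (by omega) (h1 (i + 1) i (by omega))

end Pool.Agent.H834R6.CC
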