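import Pool.Agent.H834R6.CC.Defs

set_option autoImplicit false
set_option maxHeartbeats 4000000

namespace Pool.Agent.H834R6.CC

open Pool.Agent.H282R2 Set Filter Topology

namespace TreeAux

/-- the number of words is the sum over the first letter of the number of tails -/
theorem card_split {A : Type} [Fintype A] [DecidableEq A] (h : ℕ) (Z : Finset (Fin (h + 1) → A)) :
    Z.card = ∑ a : A, ((Z.filter (fun w => w 0 = a)).image Fin.tail).card := by
  rw [Finset.card_eq_sum_card_fiberwise (f := fun w : Fin (h + 1) → A => w 0)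
    (t := Finset.univ) (fun w _ => Finset.mem_univ _)]
  refine Finset.sum_congr rfl fun a _ => ?_
  rw [Finset.card_image_of_injOn]
  intro w hw w' hw' heq
  rw [Finset.mem_coe, Finset.mem_filter] at hw hw'
  rw [← Fin.cons_self_tail w, ← Fin.cons_self_tail w', hw.2, hw'.2, heq]

end TreeAux

open TreeAux in
/-- TREE -/
theorem tree {𝔹 T ι J : Type} [TopologicalSpace 𝔹] [TopologicalSpace T] [Fintype ι] [Fintype J]
    [DecidableEq ι] [DecidableEq J] (π : J → 𝔹 → T) (hc : ∀ j, Continuous (π j))
    (ho : ∀ j, IsOpenMap (π j)) (Good : (ι → T) → Prop)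
    (hG : ∀ U : Set T, IsOpen U → U.Nonempty → ∃ X : ι → T, (∀ i, X i ∈ U) ∧ ∀ᶠ Y in 𝓝 X, Good Y)
    (h : ℕ) (U : Set 𝔹) (hU : IsOpen U) (hne : U.Nonempty) :
    ∃ W : (Fin h → J × ι) → Set 𝔹, (∀ w, IsOpen (W w) ∧ (W w).Nonempty ∧ W w ⊆ U) ∧
      ∀ j : J, ∀ Z : Finset (Fin h → J × ι), (Fintype.card (J × ι) - 1) ^ h < Z.card →
        ∃ w : ι → (Fin h → J × ι), Function.Injective w ∧ (∀ i, w i ∈ Z) ∧
          ∀ K : ι → 𝔹, (∀ i, K i ∈ W (w i)) → Good (fun i => π j (K i)) := by
  induction h generalizing U with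
  | zero =>
    refine ⟨fun _ => U, fun _ => ⟨hU, hne, subset_rfl⟩, fun j Z hZ => ?_⟩
    exfalso
    have h1 : Z.card ≤ 1 := Finset.card_le_one_of_subsingleton Z
    rw [pow_zero] at hZ
    omega
  | succ h ih =>
    -- the boxes
    have hbox : ∀ j : J, ∃ O : ι → Set T, (∀ i, IsOpen (O i)) ∧
        (∀ i, (U ∩ π j ⁻¹' (O i)).Nonempty) ∧ ∀ Y : ι → T, (∀ i, Y i ∈ O i) → Good Y := by
      intro j
      obtain ⟨X, hX, hev⟩ := hG (π j '' U) (ho j U hU) (hne.image _)
      obtain ⟨t, ht, hto, hXt⟩ := mem_nhds_iff.1 hev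
      obtain ⟨O, hO, hOt⟩ := (isOpen_pi_iff'.1 hto) X hXt
      refine ⟨O, fun i => (hO i).1, fun i => ?_, fun Y hY => ht (hOt fun i _ => hY i)⟩
      obtain ⟨b, hbU, hb⟩ := hX i
      refine ⟨b, hbU, ?_⟩
      rw [Set.mem_preimage, hb]
      exact (hO i).2
    choose O hO1 hO2 hO3 using hbox
    have hch : ∀ a : J × ι, ∃ W : (Fin h → J × ι) → Set 𝔹,
        (∀ w, IsOpen (W w) ∧ (W w).Nonempty ∧ W w ⊆ U ∩ π a.1 ⁻¹' (O a.1 a.2)) ∧
        ∀ j : J, ∀ Z : Finset (Fin h → J × ι), (Fintype.card (J × ι) - 1) ^ h < Z.card →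
        ∃ w : ι → (Fin h → J × ι), Function.Injective w ∧ (∀ i, w i ∈ Z) ∧
          ∀ K : ι → 𝔹, (∀ i, K i ∈ W (w i)) → Good (fun i => π j (K i)) := fun a =>
      ih (U ∩ π a.1 ⁻¹' (O a.1 a.2)) (hU.inter ((hO1 a.1 a.2).preimage (hc a.1))) (hO2 a.1 a.2)
    choose W hW1 hW2 using hch
    refine ⟨fun w => W (w 0) (Fin.tail w), fun w => ?_, fun j Z hZ => ?_⟩
    · obtain ⟨h1, h2, h3⟩ := hW1 (w 0) (Fin.tail w)
      exact ⟨h1, h2, h3.trans inter_subset_left⟩
    · by_cases hbig : ∃ a : J × ι, (Fintype.card (J × ι) - 1) ^ h <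
        ((Z.filter (fun w => w 0 = a)).image Fin.tail).card
      · obtain ⟨a, ha⟩ := hbig
        obtain ⟨w, hw1, hw2, hw3⟩ := hW2 a j _ ha
        refine ⟨fun i => Fin.cons a (w i), ?_, ?_, ?_⟩
        · intro i i' hii
          refine hw1 ?_
          have := congrArg Fin.tail hii
          simpa using this
        · intro i
          have h1 := hw2 i
          rw [Finset.mem_image] at h1
          obtain ⟨v, hv, hv'⟩ := h1
          rw [Finset.mem_filter] at hv
          have h2 : (Fin.cons a (w i) : Fin (h + 1) → J × ι) = v := by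
            rw [← hv', ← hv.2, Fin.cons_self_tail]
          change (Fin.cons a (w i) : Fin (h + 1) → J × ι) ∈ Z
          rw [h2]
          exact hv.1
        · intro K hK
          refine hw3 K fun i => ?_
          have := hK i
          simpa using this
      · push Not at hbig
        have hall : ∀ a : J × ι, (Z.filter (fun w => w 0 = a)).Nonempty := by
          intro a
          by_contra hemp
          rw [Finset.not_nonempty_iff_eq_empty] at hemp
          have h1 := card_split h Z
          rw [← Finset.add_sum_erase Finset.univ _ (Finset.mem_univ a), hemp] at h1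
          simp only [Finset.image_empty, Finset.card_empty, zero_add] at h1
          have h2 : ∑ b ∈ Finset.univ.erase a,
              ((Z.filter (fun w => w 0 = b)).image Fin.tail).card ≤
              ∑ _b ∈ Finset.univ.erase a, (Fintype.card (J × ι) - 1) ^ h :=
            Finset.sum_le_sum fun b _ => hbig b
          rw [Finset.sum_const, Finset.card_erase_of_mem (Finset.mem_univ a), Finset.card_univ,
            smul_eq_mul, ← pow_succ'] at h2
          omega
        choose v hv using hall
        refine ⟨fun i => v (j, i), ?_, ?_, ?_⟩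
        · intro i i' hii
          have h1 := (Finset.mem_filter.1 (hv (j, i))).2
          have h2 := (Finset.mem_filter.1 (hv (j, i'))).2
          have h3 : v (j, i) = v (j, i') := hii
          rw [h3, h2] at h1
          exact (Prod.mk.inj h1).2.symm
        · intro i
          exact (Finset.mem_filter.1 (hv (j, i))).1
        · intro K hK
          refine hO3 j _ fun i => ?_
          have h1 := hK i
          have h2 := (Finset.mem_filter.1 (hv (j, i))).2
          have h3 := (hW1 (v (j, i) 0) (Fin.tail (v (j, i)))).2.2 h1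
          rw [h2] at h3
          exact h3.2

end Pool.Agent.H834R6.CC
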