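import Pool.Agent.H834R6.CC.Defs

/-!
# Task WINDOW (by helper403)

A family of uncut windows of a chain that can be unlocked is not trapped.
-/

set_option autoImplicit false
set_option maxHeartbeats 4000000

namespace Pool.Agent.H834R6.CC

open Pool.Agent.H282R2 Set Filter Topology

namespace Window

/-- the motion of a window -/
noncomputable def gam {ι : Type} (s e : ℝ → ℕ → E3) (a : ι → ℕ) (t : ℝ) (i : ι) : T3 :=
  ![s t (a i), s t (a i + 1), s t (a i + 2), e t (a i + 2)]

theorem castSucc_eq {ι : Type} (s e : ℝ → ℕ → E3) (a : ι → ℕ) (t : ℝ) (i : ι) (l : Fin 3) :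
    gam s e a t i l.castSucc = s t (a i + l) := by
  fin_cases l <;> rfl

theorem succ_eq {ι : Type} (s e : ℝ → ℕ → E3) (a : ι → ℕ) (t : ℝ) (i : ι)
    (h : ∀ m, m < 2 → e t (a i + m) = s t (a i + m + 1)) (l : Fin 3) :
    gam s e a t i l.succ = e t (a i + l) := by
  fin_cases l
  · exact (h 0 (by norm_num)).symm
  · exact (h 1 (by norm_num)).symm
  · rfl

end Window

open Window in
/-- WINDOW -/
theorem window {ι : Type} (n : ℕ) (v : ℕ → E3) (hv : IsChain n v) (C : Finset ℕ)
    (hU : Unlockable n C v) (a : ι → ℕ) (ha : ∀ i j, i ≠ j → a i + 4 ≤ a j ∨ a j + 4 ≤ a i)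
    (hn : ∀ i, a i + 3 ≤ n) (hC : ∀ i, a i + 1 ∉ C ∧ a i + 2 ∉ C) :
    ¬ Trap (fun i => (fun k : Fin 4 => v (a i + k) : T3)) := by
  intro hT
  obtain ⟨s, e, hs, he, h0, hd, hp, hr, -⟩ := hU 1 one_pos
  have hjoint : ∀ t ∈ Icc (0 : ℝ) 1, ∀ i : ι, ∀ m, m < 2 →
      e t (a i + m) = s t (a i + m + 1) := by
    intro t ht i m hm
    have hn' := hn i
    rcases eq_or_lt_of_le ht.1 with h | h
    · subst h
      rw [(h0 (a i + m) (by omega)).2, (h0 (a i + m + 1) (by omega)).1]
    · refine (hp t ⟨h, ht.2⟩).joint (a i + m) (by omega) ?_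
      have hC' := hC i
      interval_cases m
      · exact hC'.1
      · exact hC'.2
  have hcs : ∀ (t : ℝ) (i : ι) (l : Fin 3), gam s e a t i l.castSucc = s t (a i + l) :=
    castSucc_eq s e a
  have hsc : ∀ t ∈ Icc (0 : ℝ) 1, ∀ (i : ι) (l : Fin 3), gam s e a t i l.succ = e t (a i + l) :=
    fun t ht i l => succ_eq s e a t i (hjoint t ht i) l
  have hl : ∀ (i : ι) (l : Fin 3), a i + (l : ℕ) < n := by
    intro i l
    have h1 := hn i
    have h2 := l.2
    omega
  have hfar : ∀ t ∈ Icc (0 : ℝ) 1, ∀ k k', k + 1 < k' → k' < n →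
      Disjoint (segment ℝ (s t k) (e t k)) (segment ℝ (s t k') (e t k')) := by
    intro t ht k k' hk hk'
    rcases eq_or_lt_of_le ht.1 with h | h
    · subst h
      rw [(h0 k (by omega)).1, (h0 k (by omega)).2, (h0 k' hk').1, (h0 k' hk').2]
      exact hv.far k k' hk hk'
    · exact (hp t ⟨h, ht.2⟩).far k k' hk hk'
  have g1 : ∀ i k, ContinuousOn (fun t => gam s e a t i k) (Icc 0 1) := by
    intro i k
    have hn' := hn i
    fin_cases k
    · exact hs (a i) (by omega)
    · exact hs (a i + 1) (by omega)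
    · exact hs (a i + 2) (by omega)
    · exact he (a i + 2) (by omega)
  have g2 : gam s e a 0 = (fun i => (fun k : Fin 4 => v (a i + k) : T3)) := by
    funext i k
    have hn' := hn i
    fin_cases k
    · exact (h0 (a i) (by omega)).1
    · exact (h0 (a i + 1) (by omega)).1
    · exact (h0 (a i + 2) (by omega)).1
    · exact (h0 (a i + 2) (by omega)).2
  have g3 : ∀ t ∈ Icc (0 : ℝ) 1, ∀ i l, ‖lk (gam s e a t i) l‖ =
      ‖lk (fun k : Fin 4 => v (a i + k) : T3) l‖ := by
    intro t ht i l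
    have h1 := hd t ht (a i + l) (hl i l)
    have e1 : lk (gam s e a t i) l = e t (a i + l) - s t (a i + l) := by
      unfold lk
      rw [hcs, hsc t ht]
    have e2 : lk (fun k : Fin 4 => v (a i + k) : T3) l = v (a i + l + 1) - v (a i + l) := by
      unfold lk
      simp only [Fin.val_succ, Fin.val_castSucc]
      rfl
    rw [e1, e2]
    rw [dist_comm, dist_eq_norm, dist_comm, dist_eq_norm] at h1
    exact h1
  have g4 : ∀ t ∈ Icc (0 : ℝ) 1, ∀ i j, i ≠ j → ∀ l m,
      Disjoint (sg (gam s e a t i) l) (sg (gam s e a t j) m) := by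
    intro t ht i j hij l m
    unfold sg
    rw [hcs, hcs, hsc t ht, hsc t ht]
    rcases ha i j hij with h | h
    · exact hfar t ht _ _ (by have := l.2; omega) (hl j m)
    · exact (hfar t ht _ _ (by have := m.2; omega) (hl i l)).symm
  obtain ⟨i, hi⟩ := hT (gam s e a) g1 g2 g3 g4
  apply hi
  have h1 : (1 : ℝ) ∈ Icc (0 : ℝ) 1 := ⟨zero_le_one, le_rfl⟩
  have e1 : lk (gam s e a 1 i) 1 = e 1 (a i + 1) - s 1 (a i + 1) := by
    unfold lk
    rw [hcs, hsc 1 h1]
    rfl
  have e2 : lk (gam s e a 1 i) 2 = e 1 (a i + 2) - s 1 (a i + 2) := by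
    unfold lk
    rw [hcs, hsc 1 h1]
    rfl
  rw [e1, e2]
  exact hr (a i + 1) (by have := hn i; omega) (hC i).2

end Pool.Agent.H834R6.CC
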