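import Pool.Agent.H834R6.CC.LowerCore
import Pool.Agent.H834R6.CC.Tree
import Pool.Agent.H834R6.CC.Count
import Pool.Agent.H834R6.CC.Place
import Pool.Agent.H834R6.CC.Window

/-!
# LOWER: assembly of TREE, COUNT, PLACE, WINDOW
-/

set_option autoImplicit false
set_option maxHeartbeats 4000000

namespace Pool.Agent.H834R6.CC

open Pool.Agent.H282R2 Pool.Agent.H834R6.CC Set Filter Topology

theorem lower (G : Type) [Fintype G] [DecidableEq G] [Nonempty G]
    (gadget : ∀ U : Set T3, IsOpen U → U.Nonempty →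
      ∃ X : G → T3, (∀ i, X i ∈ U) ∧ ∀ᶠ Y in 𝓝 X, Trap Y) (ε : ℝ) (hε : 0 < ε) :
    ∃ N : ℕ, ∀ n, N ≤ n → ∃ v : ℕ → E3, IsChain n v ∧ ∀ C : Finset ℕ, C ⊆ Finset.Ioo 0 n →
      (C.card : ℝ) ≤ (1 / 2 - ε) * n → ¬ Unlockable n C v :=
  Lower.lower_core (fun n O hO hne => place n O hO hne)
    (fun π hc ho Good hG h U hU hne => tree π hc ho Good hG h U hU hne)
    (fun ε hε r Q h hr hr' hQ hh => count ε hε r Q h hr hr' hQ hh)
    (fun n v hv C hU a ha hn hC => window n v hv C hU a ha hn hC) G gadget ε hε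

end Pool.Agent.H834R6.CC
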