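import Pool.Agent.H834R6.CC.Defs

/-!
# Assembly of the lower bound from TREE, COUNT, PLACE, WINDOW (as hypotheses)
-/

set_option autoImplicit false
set_option maxHeartbeats 4000000

namespace Pool.Agent.H834R6.CC.Lower

open Pool.Agent.H282R2 Pool.Agent.H834R6.CC Set Filter Topology

/-- statement of PLACE -/
def SPlace : Prop := ∀ (n : ℕ) (O : ℕ → Set E3), (∀ i, IsOpen (O i)) →
  (∀ i, (O i).Nonempty) → ∃ v : ℕ → E3, (∀ i, v i ∈ O i) ∧ IsChain n v

/-- statement of TREE -/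
def STree : Prop := ∀ {𝔹 T ι J : Type} [TopologicalSpace 𝔹] [TopologicalSpace T] [Fintype ι]
    [Fintype J] [DecidableEq ι] [DecidableEq J] (π : J → 𝔹 → T) (_hc : ∀ j, Continuous (π j))
    (_ho : ∀ j, IsOpenMap (π j)) (Good : (ι → T) → Prop)
    (_hG : ∀ U : Set T, IsOpen U → U.Nonempty → ∃ X : ι → T, (∀ i, X i ∈ U) ∧ ∀ᶠ Y in 𝓝 X, Good Y)
    (h : ℕ) (U : Set 𝔹) (_hU : IsOpen U) (_hne : U.Nonempty),
    ∃ W : (Fin h → J × ι) → Set 𝔹, (∀ w, IsOpen (W w) ∧ (W w).Nonempty ∧ W w ⊆ U) ∧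
      ∀ j : J, ∀ Z : Finset (Fin h → J × ι), (Fintype.card (J × ι) - 1) ^ h < Z.card →
        ∃ w : ι → (Fin h → J × ι), Function.Injective w ∧ (∀ i, w i ∈ Z) ∧
          ∀ K : ι → 𝔹, (∀ i, K i ∈ W (w i)) → Good (fun i => π j (K i))

/-- statement of COUNT -/
def SCount : Prop := ∀ (ε : ℝ) (_hε : 0 < ε) (r Q h : ℕ) (_hr : 4 ≤ r) (_hr' : 3 ≤ ε * r)
    (_hQ : 1 ≤ Q) (_hh : ((Q : ℝ) - 1) ^ h ≤ (ε / 4) * (Q : ℝ) ^ h),
    ∃ N : ℕ, ∀ n, N ≤ n → ∀ C : Finset ℕ, C ⊆ Finset.Ioo 0 n → (C.card : ℝ) ≤ (1 / 2 - ε) * n →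
      ∃ j < r - 3, (Q - 1) ^ h < (((Finset.range ((n + 1) / r)).filter
        (fun β => r * β + j + 1 ∉ C ∧ r * β + j + 2 ∉ C)).image (fun β => β % (Q ^ h))).card

/-- statement of WINDOW -/
def SWindow : Prop := ∀ {ι : Type} (n : ℕ) (v : ℕ → E3) (_hv : IsChain n v) (C : Finset ℕ)
    (_hU : Unlockable n C v) (a : ι → ℕ) (_ha : ∀ i j, i ≠ j → a i + 4 ≤ a j ∨ a j + 4 ≤ a i)
    (_hn : ∀ i, a i + 3 ≤ n) (_hC : ∀ i, a i + 1 ∉ C ∧ a i + 2 ∉ C),
    ¬ Trap (fun i => (fun k : Fin 4 => v (a i + k) : T3))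

/-- the window of four consecutive vertices of a block -/
def pr {r : ℕ} (j : Fin (r - 3)) (K : Fin r → E3) : T3 :=
  fun k => K ⟨j + k, by have := j.2; have := k.2; omega⟩

theorem pr_cont {r : ℕ} (j : Fin (r - 3)) : Continuous (pr j : (Fin r → E3) → T3) :=
  continuous_pi fun _ => continuous_apply _

theorem pr_open {r : ℕ} (j : Fin (r - 3)) : IsOpenMap (pr j : (Fin r → E3) → T3) := by
  let e : Fin 4 → Fin r := fun k => ⟨j + k, by have := j.2; have := k.2; omega⟩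
  have he : Function.Injective e := by
    intro a b h
    have h1 : (j : ℕ) + a = j + b := congrArg Fin.val h
    exact Fin.ext (by omega)
  let f : (Fin r → E3) →L[ℝ] T3 := LinearMap.toContinuousLinearMap (LinearMap.funLeft ℝ E3 e)
  have hs : Function.Surjective f := LinearMap.funLeft_surjective_of_injective ℝ E3 e he
  exact f.isOpenMap hs

theorem lower_core (hplace : SPlace) (htree : STree) (hcount : SCount) (hwindow : SWindow)
    (G : Type) [Fintype G] [DecidableEq G] [Nonempty G]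
    (gadget : ∀ U : Set T3, IsOpen U → U.Nonempty →
      ∃ X : G → T3, (∀ i, X i ∈ U) ∧ ∀ᶠ Y in 𝓝 X, Trap Y) (ε : ℝ) (hε : 0 < ε) :
    ∃ N : ℕ, ∀ n, N ≤ n → ∃ v : ℕ → E3, IsChain n v ∧ ∀ C : Finset ℕ, C ⊆ Finset.Ioo 0 n →
      (C.card : ℝ) ≤ (1 / 2 - ε) * n → ¬ Unlockable n C v := by
  classical
  obtain ⟨r, hr, hr'⟩ : ∃ r : ℕ, 4 ≤ r ∧ 3 ≤ ε * r := by
    refine ⟨max 4 ⌈3 / ε⌉₊, le_max_left _ _, ?_⟩
    have h1 : (3 / ε : ℝ) ≤ ((max 4 ⌈3 / ε⌉₊ : ℕ) : ℝ) :=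
      (Nat.le_ceil _).trans (by exact_mod_cast le_max_right _ _)
    rw [div_le_iff₀ hε] at h1
    linarith
  have hJ : Nonempty (Fin (r - 3)) := ⟨⟨0, by omega⟩⟩
  set Q : ℕ := Fintype.card (Fin (r - 3) × G) with hQdef
  have hQ : 1 ≤ Q := Fintype.card_pos
  have hQ' : (1 : ℝ) ≤ Q := by exact_mod_cast hQ
  obtain ⟨h, hh⟩ : ∃ h : ℕ, ((Q : ℝ) - 1) ^ h ≤ (ε / 4) * (Q : ℝ) ^ h := by
    have h1 : ((Q : ℝ) - 1) / Q < 1 := by
      rw [div_lt_one (by linarith)]
      linarith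
    obtain ⟨h, hh⟩ := exists_pow_lt_of_lt_one (show (0 : ℝ) < ε / 4 by positivity) h1
    refine ⟨h, ?_⟩
    rw [div_pow, div_lt_iff₀ (by positivity)] at hh
    exact hh.le
  obtain ⟨N, hN⟩ := hcount ε hε r Q h hr hr' hQ hh
  obtain ⟨W, hW, hWj⟩ := htree (𝔹 := Fin r → E3) (T := T3) (ι := G) (J := Fin (r - 3))
    (fun j => pr j) (fun j => pr_cont j) (fun j => pr_open j) Trap gadget h Set.univ isOpen_univ
    Set.univ_nonempty
  -- boxes
  have hbox : ∀ w : Fin h → Fin (r - 3) × G, ∃ u : Fin r → Set E3,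
      (∀ x, IsOpen (u x) ∧ (u x).Nonempty) ∧ Set.univ.pi u ⊆ W w := by
    intro w
    obtain ⟨h1, ⟨f, hf⟩, -⟩ := hW w
    obtain ⟨u, hu, hu'⟩ := (isOpen_pi_iff'.mp h1) f hf
    exact ⟨u, fun x => ⟨(hu x).1, ⟨f x, (hu x).2⟩⟩, hu'⟩
  choose O hO hO' using hbox
  -- words
  have hcard : Fintype.card (Fin h → Fin (r - 3) × G) = Q ^ h := by
    rw [Fintype.card_fun, Fintype.card_fin]
  have hQh : 0 < Q ^ h := Nat.pow_pos hQ
  let e : (Fin h → Fin (r - 3) × G) ≃ Fin (Q ^ h) := Fintype.equivFinOfCardEq hcard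
  let wd : ℕ → (Fin h → Fin (r - 3) × G) := fun m => e.symm ⟨m % Q ^ h, Nat.mod_lt _ hQh⟩
  have hwd : ∀ m, wd (m % Q ^ h) = wd m := by
    intro m
    simp only [wd, Nat.mod_mod]
  have hwinj : ∀ a b, a < Q ^ h → b < Q ^ h → wd a = wd b → a = b := by
    intro a b ha hb hab
    have h1 := e.symm.injective hab
    have h2 : a % Q ^ h = b % Q ^ h := congrArg Fin.val h1
    rwa [Nat.mod_eq_of_lt ha, Nat.mod_eq_of_lt hb] at h2
  have hr0 : 0 < r := by omega
  refine ⟨N, fun n hn => ?_⟩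
  obtain ⟨v, hv, hchain⟩ := hplace n (fun x => O (wd (x / r)) ⟨x % r, Nat.mod_lt _ hr0⟩)
    (fun x => (hO _ _).1) (fun x => (hO _ _).2)
  refine ⟨v, hchain, fun C hC hCc hU => ?_⟩
  obtain ⟨j, hj, hjc⟩ := hN n hn C hC hCc
  set F := (Finset.range ((n + 1) / r)).filter
        (fun β => r * β + j + 1 ∉ C ∧ r * β + j + 2 ∉ C) with hF
  have hZc : (Fintype.card (Fin (r - 3) × G) - 1) ^ h < (F.image wd).card := by
    have h1 : (F.image wd) = (F.image (fun β => β % (Q ^ h))).image wd := by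
      rw [Finset.image_image]
      apply Finset.image_congr
      intro β _
      exact (hwd β).symm
    rw [h1, Finset.card_image_of_injOn]
    · exact hjc
    · intro a ha b hb hab
      simp only [Finset.coe_image, Set.mem_image] at ha hb
      obtain ⟨x, -, rfl⟩ := ha
      obtain ⟨y, -, rfl⟩ := hb
      exact hwinj _ _ (Nat.mod_lt _ hQh) (Nat.mod_lt _ hQh) hab
  obtain ⟨w, hwi, hwZ, hwK⟩ := hWj ⟨j, hj⟩ (F.image wd) hZc
  have hβ : ∀ i, ∃ β ∈ F, wd β = w i := by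
    intro i
    exact Finset.mem_image.mp (hwZ i)
  choose β hβF hβw using hβ
  have hβi : ∀ i i', i ≠ i' → β i ≠ β i' := by
    intro i i' hii h1
    apply hii
    apply hwi
    rw [← hβw, ← hβw, h1]
  have htrap := hwK (fun i => fun x : Fin r => v (r * β i + x)) (by
    intro i
    apply hO' (w i)
    intro x _
    have h1 := hv (r * β i + x)
    have h2 : (r * β i + x) / r = β i := by
      rw [Nat.mul_add_div hr0, Nat.div_eq_of_lt x.2, add_zero]
    have h3 : (r * β i + x) % r = x := by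
      rw [Nat.mul_add_mod, Nat.mod_eq_of_lt x.2]
    simp only [h2, h3, Fin.eta, hβw] at h1
    exact h1)
  have hmem : ∀ i, β i < (n + 1) / r ∧ (r * β i + j + 1 ∉ C ∧ r * β i + j + 2 ∉ C) := by
    intro i
    have := hβF i
    rw [hF, Finset.mem_filter, Finset.mem_range] at this
    exact this
  refine hwindow n v hchain C hU (fun i => r * β i + j) ?_ ?_ (fun i => (hmem i).2) ?_
  · intro i i' hii
    have h1 := hβi i i' hii
    rcases lt_or_gt_of_ne h1 with h2 | h2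
    · left
      have : r * (β i + 1) ≤ r * β i' := Nat.mul_le_mul_left r h2
      rw [mul_add] at this
      show r * β i + j + 4 ≤ r * β i' + j
      omega
    · right
      have : r * (β i' + 1) ≤ r * β i := Nat.mul_le_mul_left r h2
      rw [mul_add] at this
      show r * β i' + j + 4 ≤ r * β i + j
      omega
  · intro i
    have h1 : (β i + 1) * r ≤ n + 1 :=
      (Nat.mul_le_mul_right r (hmem i).1).trans (Nat.div_mul_le_self _ _)
    have h2 : (β i + 1) * r = r * β i + r := by ring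
    rw [h2] at h1
    show r * β i + j + 3 ≤ n
    omega
  · have h1 : (fun i => (fun k : Fin 4 => v (r * β i + j + k) : T3)) =
        fun i => pr (r := r) ⟨j, hj⟩ (fun x : Fin r => v (r * β i + x)) := by
      funext i k
      simp only [pr, add_assoc]
    rw [h1]
    exact htrap

end Pool.Agent.H834R6.CC.Lower
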