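import Pool.Agent.H834R6.CC.Defs

/-!
# The upper bound: cutting at the even vertices
-/

set_option autoImplicit false
set_option maxHeartbeats 4000000

namespace Pool.Agent.H834R6.CC

open Pool.Agent.H282R2 Set Filter Topology

namespace Upper

lemma mem_seg (a w x : E3) : x ∈ segment ℝ a (a + w) ↔ ∃ θ : ℝ, 0 ≤ θ ∧ θ ≤ 1 ∧ x = a + θ • w := by
  rw [segment_eq_image']
  constructor
  · rintro ⟨θ, ⟨h0, h1⟩, rfl⟩
    exact ⟨θ, h0, h1, by simp⟩
  · rintro ⟨θ, h0, h1, rfl⟩
    exact ⟨θ, ⟨h0, h1⟩, by simp⟩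

lemma key (p r : E3) (hp : ‖p‖ = 1) (hr : ‖r‖ = 1) (hne : r ≠ p) (σ μ : ℝ) (h0 : 0 ≤ σ)
    (h1 : σ ≤ 1) (hμ : 0 ≤ μ) : (1 - σ) • r - σ • p ≠ μ • p := by
  intro h
  have h2 : (1 - σ) • r = (μ + σ) • p := by
    rw [add_smul, ← h]; abel
  have h3 : 1 - σ = μ + σ := by
    have := congrArg norm h2
    rw [norm_smul, norm_smul, hp, hr, mul_one, mul_one, Real.norm_of_nonneg (by linarith),
      Real.norm_of_nonneg (by linarith)] at this
    exact this
  have h4 : 0 < 1 - σ := by
    rcases h1.lt_or_eq with h1 | h1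
    · linarith
    · subst h1; linarith
  rw [← h3] at h2
  exact hne (smul_right_injective E3 h4.ne' h2)

/-- the apex of a link -/
def ap (v : ℕ → E3) (i : ℕ) : E3 := v (2 * (i / 2) + 1)

/-- the vector of a link from the apex -/
noncomputable def w (v : ℕ → E3) (i : ℕ) : E3 := if Even i then v i - v (i + 1) else v (i + 1) - v i

lemma ap_even (v : ℕ → E3) {i : ℕ} (hi : Even i) : ap v i = v (i + 1) := by
  unfold ap
  obtain ⟨k, rfl⟩ := hi
  congr 1
  omega

lemma ap_odd (v : ℕ → E3) {i : ℕ} (hi : ¬ Even i) : ap v i = v i := by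
  unfold ap
  rw [Nat.not_even_iff_odd] at hi
  obtain ⟨k, rfl⟩ := hi
  congr 1
  omega

lemma w_even (v : ℕ → E3) {i : ℕ} (hi : Even i) : w v i = v i - v (i + 1) := if_pos hi

lemma w_odd (v : ℕ → E3) {i : ℕ} (hi : ¬ Even i) : w v i = v (i + 1) - v i := if_neg hi

lemma seg_eq (v : ℕ → E3) (i : ℕ) :
    segment ℝ (v i) (v (i + 1)) = segment ℝ (ap v i) (ap v i + w v i) := by
  by_cases hi : Even i
  · rw [ap_even v hi, w_even v hi, add_sub_cancel, segment_symm]
  · rw [ap_odd v hi, w_odd v hi, add_sub_cancel]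

lemma norm_w (v : ℕ → E3) (i : ℕ) : ‖w v i‖ = dist (v i) (v (i + 1)) := by
  by_cases hi : Even i
  · rw [w_even v hi, dist_eq_norm]
  · rw [w_odd v hi, dist_eq_norm, norm_sub_rev]

lemma w_ne {n : ℕ} {v : ℕ → E3} (hv : IsChain n v) {i : ℕ} (hi : i < n) : w v i ≠ 0 := by
  intro h
  have h1 : ‖w v i‖ = 0 := by rw [h, norm_zero]
  rw [norm_w, dist_eq_zero] at h1
  exact hv.pos i hi h1

/-- unit vector -/
noncomputable def u (v : ℕ → E3) (i : ℕ) : E3 := ‖w v i‖⁻¹ • w v i

lemma norm_u {n : ℕ} {v : ℕ → E3} (hv : IsChain n v) {i : ℕ} (hi : i < n) : ‖u v i‖ = 1 := by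
  unfold u
  rw [norm_smul, norm_inv, norm_norm, inv_mul_cancel₀ (norm_ne_zero_iff.2 (w_ne hv hi))]

lemma w_eq {n : ℕ} {v : ℕ → E3} (hv : IsChain n v) {i : ℕ} (hi : i < n) :
    w v i = ‖w v i‖ • u v i := by
  unfold u
  rw [smul_smul, mul_inv_cancel₀ (norm_ne_zero_iff.2 (w_ne hv hi)), one_smul]

lemma u_ne {n : ℕ} {v : ℕ → E3} (hv : IsChain n v) {i : ℕ} (hi : i + 1 < n) (he : Even i) :
    u v (i + 1) ≠ u v i := by
  intro h
  have ho : ¬ Even (i + 1) := by
    rw [Nat.even_add_one]; exact not_not.2 he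
  have hn := hv.near i hi
  have hwi := norm_pos_iff.2 (w_ne hv (by omega : i < n))
  have hwi' := norm_pos_iff.2 (w_ne hv hi)
  set ε := min ‖w v i‖ ‖w v (i + 1)‖ with hε
  have hεpos : 0 < ε := lt_min hwi hwi'
  have hap : ap v (i + 1) = ap v i := by rw [ap_even v he, ap_odd v ho]
  have m1 : ap v i + ε • u v i ∈ segment ℝ (v i) (v (i + 1)) := by
    rw [seg_eq, mem_seg]
    refine ⟨ε / ‖w v i‖, by positivity, ?_, ?_⟩
    · rw [div_le_one hwi]; exact min_le_left _ _
    · unfold u
      rw [smul_smul, div_eq_mul_inv]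
  have m2 : ap v i + ε • u v i ∈ segment ℝ (v (i + 1)) (v (i + 2)) := by
    rw [show i + 2 = (i + 1) + 1 by ring, seg_eq, mem_seg]
    refine ⟨ε / ‖w v (i + 1)‖, by positivity, ?_, ?_⟩
    · rw [div_le_one hwi']; exact min_le_right _ _
    · rw [hap, ← h]
      unfold u
      rw [smul_smul, div_eq_mul_inv]
  have m3 : ap v i + ε • u v i ∈ ({v (i + 1)} : Set E3) := hn ▸ ⟨m1, m2⟩
  rw [mem_singleton_iff, ap_even v he, add_eq_left, smul_eq_zero] at m3
  rcases m3 with m3 | m3
  · exact hεpos.ne' m3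
  · have := norm_u hv (by omega : i < n)
    rw [m3, norm_zero] at this
    exact zero_ne_one this

/-- the direction of an odd link, not normalised -/
noncomputable def q (v : ℕ → E3) (σ : ℝ) (i : ℕ) : E3 := (1 - σ) • u v i - σ • u v (i - 1)

/-- the vector of a link -/
noncomputable def W (v : ℕ → E3) (σ : ℝ) (i : ℕ) : E3 :=
  if Even i then w v i else (‖w v i‖ / ‖q v σ i‖) • q v σ i

lemma q_ne_smul {n : ℕ} {v : ℕ → E3} (hv : IsChain n v) {i : ℕ} (hi : i < n) (ho : ¬ Even i)
    (σ μ : ℝ) (h0 : 0 ≤ σ) (h1 : σ ≤ 1) (hμ : 0 ≤ μ) : q v σ i ≠ μ • u v (i - 1) := by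
  have hi1 : 1 ≤ i := by
    rcases i with _ | i
    · simp at ho
    · omega
  have he : Even (i - 1) := by
    have : ¬ Even ((i - 1) + 1) := by rwa [Nat.sub_add_cancel hi1]
    rw [Nat.even_add_one] at this
    exact not_not.1 this
  refine key _ _ (norm_u hv (by omega)) (norm_u hv hi) ?_ σ μ h0 h1 hμ
  have := u_ne hv (i := i - 1) (by omega) he
  rwa [Nat.sub_add_cancel hi1] at this

lemma q_ne {n : ℕ} {v : ℕ → E3} (hv : IsChain n v) {i : ℕ} (hi : i < n) (ho : ¬ Even i)
    (σ : ℝ) (h0 : 0 ≤ σ) (h1 : σ ≤ 1) : q v σ i ≠ 0 := by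
  have := q_ne_smul hv hi ho σ 0 h0 h1 le_rfl
  rwa [zero_smul] at this

lemma norm_W {n : ℕ} {v : ℕ → E3} (hv : IsChain n v) {i : ℕ} (hi : i < n)
    (σ : ℝ) (h0 : 0 ≤ σ) (h1 : σ ≤ 1) : ‖W v σ i‖ = ‖w v i‖ := by
  unfold W
  split_ifs with he
  · rfl
  · have hq := norm_ne_zero_iff.2 (q_ne hv hi he σ h0 h1)
    rw [norm_smul, norm_div, norm_norm, norm_norm, div_mul_cancel₀ _ hq]

lemma W_zero {n : ℕ} {v : ℕ → E3} (hv : IsChain n v) {i : ℕ} (hi : i < n) : W v 0 i = w v i := by
  unfold W
  split_ifs with he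
  · rfl
  · have hq : q v 0 i = u v i := by
      unfold q
      simp
    rw [hq, norm_u hv hi, div_one, ← w_eq hv hi]

/-- the scale -/
noncomputable def lam (L t : ℝ) : ℝ := 1 + min (2 * t) 1 * (L - 1)

/-- the angle parameter -/
noncomputable def sig (t : ℝ) : ℝ := max (2 * t - 1) 0

lemma sig0 (t : ℝ) : 0 ≤ sig t := le_max_right _ _

lemma sig1 {t : ℝ} (ht : t ≤ 1) : sig t ≤ 1 := max_le (by linarith) zero_le_one

/-- first end -/
noncomputable def S (v : ℕ → E3) (L t : ℝ) (i : ℕ) : E3 :=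
  if Even i then lam L t • ap v i + W v (sig t) i else lam L t • ap v i

/-- second end -/
noncomputable def T (v : ℕ → E3) (L t : ℝ) (i : ℕ) : E3 :=
  if Even i then lam L t • ap v i else lam L t • ap v i + W v (sig t) i

lemma seg_ST (v : ℕ → E3) (L t : ℝ) (i : ℕ) : segment ℝ (S v L t i) (T v L t i) =
    segment ℝ (lam L t • ap v i) (lam L t • ap v i + W v (sig t) i) := by
  unfold S T
  split_ifs
  · rw [segment_symm]
  · rfl

lemma ap_ne {n : ℕ} {v : ℕ → E3} (hv : IsChain n v) {i j : ℕ} (hi : i < n) (hj : j < n)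
    (hij : i / 2 ≠ j / 2) : ap v i ≠ ap v j := by
  have main : ∀ i j, j < n → i / 2 < j / 2 → ap v i ≠ ap v j := by
    intro i j hj hij h
    have h1 := hv.far (2 * (i / 2)) (2 * (j / 2)) (by omega) (by omega)
    rw [Set.disjoint_left] at h1
    refine h1 (a := ap v i) (right_mem_segment ℝ _ _) ?_
    rw [h]
    exact right_mem_segment ℝ _ _
  rcases Nat.lt_or_gt_of_ne hij with h | h
  · exact main i j hj h
  · exact (main j i hi h).symm

/-- distances of points of different pieces in the second phase -/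
lemma dist_far {n : ℕ} {v : ℕ → E3} (hv : IsChain n v) {L d : ℝ} {i j : ℕ} (hi : i < n)
    (hj : j < n) (hL : ‖w v i‖ + ‖w v j‖ + d ≤ L * dist (ap v i) (ap v j)) (hL0 : 0 ≤ L)
    {σ : ℝ} (h0 : 0 ≤ σ) (h1 : σ ≤ 1) {x y : E3}
    (hx : x ∈ segment ℝ (L • ap v i) (L • ap v i + W v σ i))
    (hy : y ∈ segment ℝ (L • ap v j) (L • ap v j + W v σ j)) : d ≤ dist x y := by
  rw [mem_seg] at hx hy
  obtain ⟨θ, a1, a2, rfl⟩ := hx
  obtain ⟨θ', b1, b2, rfl⟩ := hy
  have e1 : dist (L • ap v i) (L • ap v j) = L * dist (ap v i) (ap v j) := by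
    rw [dist_smul₀, Real.norm_of_nonneg hL0]
  have e2 : dist (L • ap v i) (L • ap v i + θ • W v σ i) ≤ ‖w v i‖ := by
    rw [dist_self_add_right, norm_smul, norm_W hv hi σ h0 h1, Real.norm_of_nonneg a1]
    nlinarith [norm_nonneg (w v i)]
  have e3 : dist (L • ap v j + θ' • W v σ j) (L • ap v j) ≤ ‖w v j‖ := by
    rw [dist_self_add_left, norm_smul, norm_W hv hj σ h0 h1, Real.norm_of_nonneg b1]
    nlinarith [norm_nonneg (w v j)]
  have e4 := dist_triangle4 (L • ap v i) (L • ap v i + θ • W v σ i) (L • ap v j + θ' • W v σ j)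
    (L • ap v j)
  linarith

/-- different pieces are disjoint in the first phase -/
lemma disj_near {n : ℕ} {v : ℕ → E3} (hv : IsChain n v) {l : ℝ} (hl : 1 < l) {i j : ℕ}
    (hij : i < j) (hj : j < n) (h2 : i / 2 ≠ j / 2) :
    Disjoint (segment ℝ (l • ap v i) (l • ap v i + w v i))
      (segment ℝ (l • ap v j) (l • ap v j + w v j)) := by
  rw [Set.disjoint_left]
  intro x hx hy
  rw [mem_seg] at hx hy
  obtain ⟨θ, a1, a2, hx⟩ := hx
  obtain ⟨θ', b1, b2, hy⟩ := hy
  have hl0 : 0 < l := by linarith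
  have m1 : l⁻¹ • x ∈ segment ℝ (v i) (v (i + 1)) := by
    rw [seg_eq, mem_seg]
    refine ⟨θ / l, by positivity, ?_, ?_⟩
    · rw [div_le_one hl0]; linarith
    · rw [hx, smul_add, smul_smul, smul_smul, inv_mul_cancel₀ hl0.ne', one_smul, div_eq_inv_mul]
  have m2 : l⁻¹ • x ∈ segment ℝ (v j) (v (j + 1)) := by
    rw [seg_eq, mem_seg]
    refine ⟨θ' / l, by positivity, ?_, ?_⟩
    · rw [div_le_one hl0]; linarith
    · rw [hy, smul_add, smul_smul, smul_smul, inv_mul_cancel₀ hl0.ne', one_smul, div_eq_inv_mul]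
  rcases (Nat.succ_le_of_lt hij).lt_or_eq with h3 | h3
  · exact Set.disjoint_left.1 (hv.far i j h3 hj) m1 m2
  · have h3 : j = i + 1 := h3.symm
    subst h3
    have ho : ¬ Even i := by
      rintro ⟨k, rfl⟩
      omega
    have m3 : l⁻¹ • x ∈ ({v (i + 1)} : Set E3) := (hv.near i hj) ▸ ⟨m1, m2⟩
    rw [mem_singleton_iff, hx, smul_add, smul_smul, smul_smul, inv_mul_cancel₀ hl0.ne', one_smul,
      ap_odd v ho] at m3
    have h4 : w v i = (l⁻¹ * θ) • w v i := by
      conv_lhs => rw [w_odd v ho, ← m3]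
      rw [add_sub_cancel_left]
    have h5 : (1 - l⁻¹ * θ) • w v i = 0 := by
      rw [sub_smul, one_smul, ← h4, sub_self]
    rcases smul_eq_zero.1 h5 with h6 | h6
    · have h7 : l⁻¹ * θ = 1 := by linarith
      have h8 : θ = l := by
        field_simp at h7
        exact h7
      linarith
    · exact w_ne hv (by omega) h6

end Upper

open Upper in
theorem upper (n : ℕ) (v : ℕ → E3) (hv : IsChain n v) :
    Unlockable n ((Finset.Ioo 0 n).filter Even) v := by
  intro d hd
  -- the dilation factor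
  obtain ⟨L, hL1, hL⟩ : ∃ L : ℝ, 1 < L ∧ ∀ i < n, ∀ j < n, i / 2 ≠ j / 2 →
      ‖w v i‖ + ‖w v j‖ + d ≤ L * dist (ap v i) (ap v j) := by
    have h1 : ∀ x ∈ Finset.range n ×ˢ Finset.range n, ∀ᶠ L : ℝ in atTop, x.1 / 2 ≠ x.2 / 2 →
        ‖w v x.1‖ + ‖w v x.2‖ + d ≤ L * dist (ap v x.1) (ap v x.2) := by
      intro x hx
      rw [Finset.mem_product, Finset.mem_range, Finset.mem_range] at hx
      by_cases h2 : x.1 / 2 = x.2 / 2
      · exact Filter.Eventually.of_forall fun L h => absurd h2 h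
      · have h3 : 0 < dist (ap v x.1) (ap v x.2) := dist_pos.2 (ap_ne hv hx.1 hx.2 h2)
        have h4 := (tendsto_id.atTop_mul_const h3 :
          Tendsto (fun L : ℝ => L * dist (ap v x.1) (ap v x.2)) atTop atTop)
        filter_upwards [h4.eventually_ge_atTop (‖w v x.1‖ + ‖w v x.2‖ + d)] with L hL _
        exact hL
    have h2 := (Filter.eventually_all_finset (Finset.range n ×ˢ Finset.range n)).2 h1
    obtain ⟨L, hL⟩ := (h2.and (eventually_gt_atTop 1)).exists
    refine ⟨L, hL.2, fun i hi j hj hij => hL.1 (i, j) ?_ hij⟩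
    rw [Finset.mem_product, Finset.mem_range, Finset.mem_range]
    exact ⟨hi, hj⟩
  have hC : ∀ k, k ∈ (Finset.Ioo 0 n).filter Even ↔ (0 < k ∧ k < n) ∧ Even k := by
    intro k
    rw [Finset.mem_filter, Finset.mem_Ioo]
  -- continuity
  have clam : Continuous (lam L) := by unfold lam; fun_prop
  have csig : Continuous sig := by unfold sig; fun_prop
  have cW : ∀ i, i < n → ContinuousOn (fun t => W v (sig t) i) (Icc 0 1) := by
    intro i hi
    unfold W
    split_ifs with he
    · exact continuousOn_const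
    · have cq : Continuous fun t => q v (sig t) i := by unfold q; fun_prop
      refine ContinuousOn.smul (ContinuousOn.div continuousOn_const cq.norm.continuousOn ?_)
        cq.continuousOn
      intro t ht
      exact norm_ne_zero_iff.2 (q_ne hv hi he _ (sig0 t) (sig1 ht.2))
  have c1 : ∀ i, Continuous fun t => lam L t • ap v i := fun i => clam.smul continuous_const
  -- different pieces are disjoint
  have hdis : ∀ t ∈ Ioc (0 : ℝ) 1, ∀ i j, i < j → j < n → i / 2 ≠ j / 2 →
      Disjoint (segment ℝ (S v L t i) (T v L t i)) (segment ℝ (S v L t j) (T v L t j)) := by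
    intro t ht i j hij hj h2
    rw [seg_ST, seg_ST]
    by_cases ht2 : t ≤ 1 / 2
    · have hs : sig t = 0 := max_eq_right (by linarith)
      rw [hs, W_zero hv (by omega : i < n), W_zero hv hj]
      refine disj_near hv ?_ hij hj h2
      unfold lam
      have : 0 < min (2 * t) 1 := lt_min (by linarith [ht.1]) one_pos
      nlinarith
    · have hlam : lam L t = L := by
        unfold lam
        rw [min_eq_right (by linarith)]; ring
      rw [hlam, Set.disjoint_left]
      intro x hx hy
      have := dist_far hv (by omega : i < n) hj (hL i (by omega) j hj h2) (by linarith) (sig0 t)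
        (sig1 ht.2) hx hy
      rw [dist_self] at this
      linarith
  refine ⟨S v L, T v L, ?_, ?_, ?_, ?_, ?_, ?_, ?_⟩
  · intro i hi
    unfold S
    split_ifs
    · exact (c1 i).continuousOn.add (cW i hi)
    · exact (c1 i).continuousOn
  · intro i hi
    unfold T
    split_ifs
    · exact (c1 i).continuousOn
    · exact (c1 i).continuousOn.add (cW i hi)
  · intro i hi
    have hlam : lam L 0 = 1 := by
      unfold lam
      rw [mul_zero, min_eq_left zero_le_one]; ring
    have hs : sig 0 = 0 := by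
      unfold sig
      rw [max_eq_right (by norm_num)]
    unfold S T
    rw [hlam, hs, W_zero hv hi, one_smul]
    split_ifs with he
    · rw [ap_even v he, w_even v he]
      exact ⟨by abel, rfl⟩
    · rw [ap_odd v he, w_odd v he]
      exact ⟨rfl, by abel⟩
  · intro t ht i hi
    have h1 := norm_W hv hi (sig t) (sig0 t) (sig1 ht.2)
    rw [← norm_w, ← h1]
    unfold S T
    split_ifs
    · rw [dist_eq_norm, add_sub_cancel_left]
    · rw [dist_eq_norm, sub_add_cancel_left, norm_neg]
  · intro t ht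
    have hodd : ∀ i, i + 1 < n → i + 1 ∉ (Finset.Ioo 0 n).filter Even → Even i := by
      intro i hi hi2
      rw [hC] at hi2
      have : ¬ Even (i + 1) := fun h => hi2 ⟨⟨by omega, hi⟩, h⟩
      rw [Nat.even_add_one] at this
      exact not_not.1 this
    refine ⟨?_, ?_, ?_, ?_⟩
    · intro i hi hi2
      have he := hodd i hi hi2
      have ho : ¬ Even (i + 1) := by
        rw [Nat.even_add_one]; exact not_not.2 he
      unfold S T
      rw [if_pos he, if_neg ho, ap_even v he, ap_odd v ho]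
    · intro i hi hi2
      have he := hodd i hi hi2
      have ho : ¬ Even (i + 1) := by
        rw [Nat.even_add_one]; exact not_not.2 he
      have hap : ap v (i + 1) = ap v i := by rw [ap_even v he, ap_odd v ho]
      have hT : T v L t i = lam L t • ap v i := if_pos he
      rw [seg_ST, seg_ST, hap, hT]
      apply Set.Subset.antisymm
      · rintro x ⟨hx, hy⟩
        rw [mem_seg] at hx hy
        obtain ⟨θ, a1, a2, hx⟩ := hx
        obtain ⟨θ', b1, b2, hy⟩ := hy
        rw [mem_singleton_iff]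
        rcases b1.lt_or_eq with b1 | b1
        · exfalso
          have h3 : θ • W v (sig t) i = θ' • W v (sig t) (i + 1) := by
            have := hx.symm.trans hy
            exact add_left_cancel this
          have hW1 : W v (sig t) i = w v i := if_pos he
          have hW2 : W v (sig t) (i + 1) =
            (‖w v (i + 1)‖ / ‖q v (sig t) (i + 1)‖) • q v (sig t) (i + 1) := if_neg ho
          have hqpos := norm_pos_iff.2 (q_ne hv hi ho (sig t) (sig0 t) (sig1 ht.2))
          have hwpos := norm_pos_iff.2 (w_ne hv hi)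
          rw [hW1, hW2, w_eq hv (by omega : i < n), smul_smul, smul_smul] at h3
          set c := θ' * (‖w v (i + 1)‖ / ‖q v (sig t) (i + 1)‖) with hc
          have hcpos : 0 < c := by positivity
          have h4 : q v (sig t) (i + 1) = (c⁻¹ * (θ * ‖w v i‖)) • u v i := by
            rw [mul_smul, h3, smul_smul, inv_mul_cancel₀ hcpos.ne', one_smul]
          exact q_ne_smul hv hi ho (sig t) _ (sig0 t) (sig1 ht.2) (by positivity) h4
        · rw [hy, ← b1, zero_smul, add_zero]
      · intro x hx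
        rw [mem_singleton_iff] at hx
        rw [hx]
        exact ⟨left_mem_segment ℝ _ _, left_mem_segment ℝ _ _⟩
    · intro i hi hi2
      rw [hC] at hi2
      obtain ⟨k, hk⟩ := hi2.2
      exact hdis t ht i (i + 1) (by omega) hi (by omega)
    · intro i j hij hj
      exact hdis t ht i j (by omega) hj (by omega)
  · intro i hi hi2
    rw [hC] at hi2
    have ho : ¬ Even (i + 1) := fun h => hi2 ⟨⟨by omega, hi⟩, h⟩
    have he : Even i := by
      have := ho
      rw [Nat.even_add_one] at this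
      exact not_not.1 this
    have hs : sig 1 = 1 := by
      unfold sig
      norm_num
    have hq : q v 1 (i + 1) = - u v i := by
      unfold q
      simp
    unfold S T
    rw [if_pos he, if_pos he, if_neg ho, if_neg ho, add_sub_cancel_left, sub_add_cancel_left, hs]
    unfold W
    rw [if_pos he, if_neg ho, hq, norm_neg, norm_u hv (by omega : i < n), div_one]
    conv_lhs => rw [w_eq hv (by omega : i < n)]
    rw [← smul_neg]
    exact (SameRay.sameRay_nonneg_smul_left (-u v i) (norm_nonneg (w v i))).trans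
      (SameRay.sameRay_nonneg_smul_right (-u v i) (norm_nonneg (w v (i + 1)))) (by
        intro h
        exfalso
        have h1 := norm_u hv (by omega : i < n)
        rw [neg_eq_zero] at h
        rw [h, norm_zero] at h1
        exact zero_ne_one h1)
  · intro i j k hik hkj hj hk x hx y hy
    rw [hC] at hk
    obtain ⟨m, hm⟩ := hk.2
    have h2 : i / 2 ≠ j / 2 := by omega
    have hlam : lam L 1 = L := by
      unfold lam
      norm_num
    rw [seg_ST, hlam] at hx hy
    exact dist_far hv (by omega : i < n) hj (hL i (by omega) j hj h2) (by linarith) (sig0 1)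
      (sig1 le_rfl) hx hy

end Pool.Agent.H834R6.CC
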