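import Pool.Agent.H834R6.CC.Gadget
import Pool.Agent.H834R6.CC.Lower
import Pool.Agent.H834R6.CC.Upper
import Pool.Agent.H834R6.CC.Final

/-! The number of cuts is asymptotically `n / 2`. -/

set_option autoImplicit false
set_option maxHeartbeats 4000000

namespace Pool.Agent.H834R6.CC

open Pool.Agent.H282R2 Set Filter Topology

theorem main : (∀ n, (CutNumbers n).Nonempty ∧ f n ≤ (n - 1) / 2) ∧
      Tendsto (fun n : ℕ => (f n : ℝ) / n) atTop (𝓝 (1 / 2)) :=
  final upper (fun ε hε => lower (PI × Fin 5) gadget ε hε)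

end Pool.Agent.H834R6.CC
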