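import Pool.Agent.H834R6.CC.Defs

/-! From patterns to gadgets, with the first order theorem and the cluster lemma as hypotheses
(helper747). -/

set_option autoImplicit false
set_option maxHeartbeats 4000000

namespace Pool.Agent.H834R6.CC

open Pool.Agent.H282R2 Set Filter Topology

namespace PatG

theorem lk_comb (T V : T3) (κ : ℝ) (l : Fin 3) : lk (T + κ • V) l = lk T l + κ • lk V l := by
  simp only [lk, Pi.add_apply, Pi.smul_apply]
  module

theorem ptOn_eq (T : T3) (l : Fin 3) (θ : ℝ) : ptOn T l θ = T l.castSucc + θ • lk T l := by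
  simp only [ptOn, lk]
  module

theorem ptOn_smul (T : T3) (l : Fin 3) (θ c : ℝ) : ptOn (c • T) l θ = c • ptOn T l θ := by
  simp only [ptOn, Pi.smul_apply]
  module

theorem dt_comb (a0 a1 b0 b1 d0 d1 : E3) (κ : ℝ) :
    dt (a0 + κ • a1) (b0 + κ • b1) (d0 + κ • d1) = dt a0 b0 d0 +
      κ * (dt a1 b0 d0 + dt a0 b1 d0 + dt a0 b0 d1) +
      κ ^ 2 * (dt a1 b1 d0 + dt a1 b0 d1 + dt a0 b1 d1) + κ ^ 3 * dt a1 b1 d1 := by
  simp only [dt_add_1, dt_add_2, dt_add_3, dt_smul_1, dt_smul_2, dt_smul_3]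
  ring

theorem dt_touch (a0 b0 : E3) (θ θ' : ℝ) : dt a0 b0 (θ' • b0 - θ • a0) = 0 := by
  rw [dt_sub_3, dt_smul_3, dt_smul_3, dt_self_23, dt_self_13]
  ring

theorem dt_deriv (a0 a1 b0 b1 v w : E3) (θ θ' : ℝ) :
    dt a1 b0 (θ' • b0 - θ • a0) + dt a0 b1 (θ' • b0 - θ • a0) + dt a0 b0 (v - w) =
      inner ℝ (cr a0 b0) (v + θ • a1) - inner ℝ (cr a0 b0) (w + θ' • b1) := by
  simp [dt, inner3]
  ring

theorem cx_expand {ι : Type} (X V : ι → T3) (c : Con ι)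
    (ht : ptOn (X c.i) c.l c.θ = ptOn (X c.j) c.m c.θ') :
    ∃ q r : ℝ, ∀ κ : ℝ, cx (fun i => X i + κ • V i) c =
      κ * (af X c (V c.i) - bf X c (V c.j)) + κ ^ 2 * q + κ ^ 3 * r := by
  have hd : X c.i c.l.castSucc - X c.j c.m.castSucc =
      c.θ' • lk (X c.j) c.m - c.θ • lk (X c.i) c.l := by
    rw [ptOn_eq, ptOn_eq] at ht
    rw [sub_eq_sub_iff_add_eq_add, ht, add_comm]
  refine ⟨dt (lk (V c.i) c.l) (lk (V c.j) c.m) (X c.i c.l.castSucc - X c.j c.m.castSucc) +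
    dt (lk (V c.i) c.l) (lk (X c.j) c.m) (V c.i c.l.castSucc - V c.j c.m.castSucc) +
    dt (lk (X c.i) c.l) (lk (V c.j) c.m) (V c.i c.l.castSucc - V c.j c.m.castSucc),
    dt (lk (V c.i) c.l) (lk (V c.j) c.m) (V c.i c.l.castSucc - V c.j c.m.castSucc), fun κ => ?_⟩
  have e1 : (X c.i + κ • V c.i) c.l.castSucc - (X c.j + κ • V c.j) c.m.castSucc =
      (X c.i c.l.castSucc - X c.j c.m.castSucc) + κ • (V c.i c.l.castSucc - V c.j c.m.castSucc) := by
    simp only [Pi.add_apply, Pi.smul_apply]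
    module
  rw [cx, lk_comb, lk_comb, e1, dt_comb]
  have e2 : dt (lk (X c.i) c.l) (lk (X c.j) c.m)
      (X c.i c.l.castSucc - X c.j c.m.castSucc) = 0 := by
    rw [hd]
    exact dt_touch _ _ _ _
  have e3 : dt (lk (V c.i) c.l) (lk (X c.j) c.m) (X c.i c.l.castSucc - X c.j c.m.castSucc) +
      dt (lk (X c.i) c.l) (lk (V c.j) c.m) (X c.i c.l.castSucc - X c.j c.m.castSucc) +
      dt (lk (X c.i) c.l) (lk (X c.j) c.m) (V c.i c.l.castSucc - V c.j c.m.castSucc) =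
      af X c (V c.i) - bf X c (V c.j) := by
    rw [hd, dt_deriv, af, bf, ptOn_eq (V c.i), ptOn_eq (V c.j), nv]
  rw [e2, e3, zero_add]

theorem cont_lk {ι : Type} (i : ι) (l : Fin 3) : Continuous fun Z : ι → T3 => lk (Z i) l := by
  unfold lk
  fun_prop

theorem cont_cx {ι : Type} (c : Con ι) : Continuous fun Z : ι → T3 => cx Z c := by
  unfold cx
  exact Continuous.dt (cont_lk _ _) (cont_lk _ _) (by fun_prop)

theorem ev_pos (v q r : ℝ) (hv : v ≠ 0) :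
    ∀ᶠ κ in 𝓝[>] (0 : ℝ), 0 < v * (κ * v + κ ^ 2 * q + κ ^ 3 * r) := by
  have h1 : ContinuousAt (fun κ : ℝ => v ^ 2 + κ * (v * q) + κ ^ 2 * (v * r)) 0 := by fun_prop
  have h2 : (0 : ℝ) < v ^ 2 + 0 * (v * q) + 0 ^ 2 * (v * r) := by
    have e : v ^ 2 + 0 * (v * q) + 0 ^ 2 * (v * r) = v ^ 2 := by ring
    rw [e]
    positivity
  have h3 : ∀ᶠ κ in 𝓝 (0 : ℝ), 0 < v ^ 2 + κ * (v * q) + κ ^ 2 * (v * r) :=
    h1.eventually (lt_mem_nhds h2)
  filter_upwards [h3.filter_mono nhdsWithin_le_nhds, self_mem_nhdsWithin] with κ h4 h5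
  have h6 : (0 : ℝ) < κ := h5
  have e : v * (κ * v + κ ^ 2 * q + κ ^ 3 * r) =
      κ * (v ^ 2 + κ * (v * q) + κ ^ 2 * (v * r)) := by ring
  rw [e]
  positivity

theorem main
    (first_order : ∀ {ι S : Type} [Finite ι] [Finite S] (X : ι → T3) (s : S → Con ι) (i0 : ι)
      (_ : ∀ a, (s a).Ok X) (_ : cr (X i0 2 - X i0 1) (X i0 3 - X i0 1) ≠ 0)
      (_ : ∀ V : ι → T3, (∀ i, LP (X i) (V i)) →
        (∀ a, 0 ≤ (s a).σ * (af X (s a) (V (s a).i) - bf X (s a) (V (s a).j))) →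
        ∃ ω τ : E3, ∀ i k, V i k = cr ω (X i k) + τ),
      ∃ δ > 0, ∀ Y : ι → T3, (∀ i k, ‖Y i k - X i k‖ ≤ δ) → (∀ a, 0 < (s a).σ * cx Y (s a)) →
        Trap Y)
    {P S : Type} [Fintype P] [Fintype S] (X : P → T3) (s : S → Con P)
    (hok : ∀ a, (s a).Ok X) (w : P → T3) (yv : Fin 5 → ℝ)
    (hcl : ∀ V : P × Fin 5 → T3, (∀ x, LP (X x.1) (V x)) →
      (∀ a : S, ∀ x y : Fin 5,
        0 ≤ (yv x * af X (s a) (w (s a).i) - yv y * bf X (s a) (w (s a).j)) *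
          (af X (s a) (V ((s a).i, x)) - bf X (s a) (V ((s a).j, y)))) →
      ∃ ω τ : E3, ∀ x k, V x k = cr ω (X x.1 k) + τ) (p0 : P)
    (hdeg : cr (X p0 2 - X p0 1) (X p0 3 - X p0 1) ≠ 0) (U : Set T3) (hU : IsOpen U)
    (hX : ∀ p, X p ∈ U) :
    ∃ Y : P × Fin 5 → T3, (∀ x, Y x ∈ U) ∧ ∀ᶠ Z in 𝓝 Y, Trap Z := by
  classical
  obtain ⟨val, hval⟩ : ∃ val : S × Fin 5 × Fin 5 → ℝ, val = fun t =>
    yv t.2.1 * af X (s t.1) (w (s t.1).i) - yv t.2.2 * bf X (s t.1) (w (s t.1).j) := ⟨_, rfl⟩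
  let X' : P × Fin 5 → T3 := fun x => X x.1
  let s' : {t : S × Fin 5 × Fin 5 // val t ≠ 0} → Con (P × Fin 5) := fun t =>
    ⟨((s t.1.1).i, t.1.2.1), (s t.1.1).l, (s t.1.1).θ, ((s t.1.1).j, t.1.2.2), (s t.1.1).m,
      (s t.1.1).θ', val t.1⟩
  have hok' : ∀ t, (s' t).Ok X' := by
    intro t
    have h := hok t.1.1
    refine ⟨?_, h.h1, h.h2, h.h3, h.h4, h.touch, h.nz, t.2⟩
    intro he
    exact h.ne (Prod.ext_iff.1 he).1
  obtain ⟨δ, hδ, hfo⟩ := first_order X' s' (p0, 0) hok' hdeg (by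
    intro V hV hpos
    refine hcl V hV fun a x y => ?_
    by_cases h0 : val (a, x, y) = 0
    · have h1 : yv x * af X (s a) (w (s a).i) - yv y * bf X (s a) (w (s a).j) = 0 := by
        rw [hval] at h0
        exact h0
      rw [h1, zero_mul]
    · have h1 := hpos ⟨(a, x, y), h0⟩
      have h2 : val (a, x, y) =
          yv x * af X (s a) (w (s a).i) - yv y * bf X (s a) (w (s a).j) := by
        rw [hval]
      rw [← h2]
      exact h1)
  let V : P × Fin 5 → T3 := fun x => yv x.2 • w x.1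
  have hc : ∀ x : P × Fin 5, Continuous fun κ : ℝ => X' x + κ • V x := by
    intro x
    fun_prop
  have c1 : ∀ᶠ κ in 𝓝[>] (0 : ℝ), ∀ x : P × Fin 5, X' x + κ • V x ∈ U := by
    rw [eventually_all]
    intro x
    have h1 : X' x + (0 : ℝ) • V x ∈ U := by
      rw [zero_smul, add_zero]
      exact hX x.1
    exact ((hc x).continuousAt.eventually (hU.mem_nhds h1)).filter_mono nhdsWithin_le_nhds
  have c2 : ∀ᶠ κ in 𝓝[>] (0 : ℝ), ∀ x : P × Fin 5, ∀ k, ‖(X' x + κ • V x) k - X' x k‖ < δ := by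
    rw [eventually_all]
    intro x
    rw [eventually_all]
    intro k
    have h1 : Continuous fun κ : ℝ => ‖(X' x + κ • V x) k - X' x k‖ := by
      have := hc x
      fun_prop
    have h2 : ‖(X' x + (0 : ℝ) • V x) k - X' x k‖ < δ := by
      rw [zero_smul, add_zero, sub_self, norm_zero]
      exact hδ
    exact (h1.continuousAt.eventually (gt_mem_nhds h2)).filter_mono nhdsWithin_le_nhds
  have c3 : ∀ᶠ κ in 𝓝[>] (0 : ℝ), ∀ t, 0 < (s' t).σ * cx (fun x => X' x + κ • V x) (s' t) := by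
    rw [eventually_all]
    intro t
    obtain ⟨q, r, hqr⟩ := cx_expand X' V (s' t) (hok' t).touch
    have h1 : af X' (s' t) (V (s' t).i) - bf X' (s' t) (V (s' t).j) = val t.1 := by
      have e1 : af X' (s' t) (V (s' t).i) =
          yv t.1.2.1 * af X (s t.1.1) (w (s t.1.1).i) := by
        change inner ℝ (nv X (s t.1.1)) (ptOn (yv t.1.2.1 • w (s t.1.1).i) (s t.1.1).l
          (s t.1.1).θ) = _
        rw [ptOn_smul, inner_smul_right, af]
      have e2 : bf X' (s' t) (V (s' t).j) =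
          yv t.1.2.2 * bf X (s t.1.1) (w (s t.1.1).j) := by
        change inner ℝ (nv X (s t.1.1)) (ptOn (yv t.1.2.2 • w (s t.1.1).j) (s t.1.1).m
          (s t.1.1).θ') = _
        rw [ptOn_smul, inner_smul_right, bf]
      rw [e1, e2]
      exact (congrFun hval t.1).symm
    filter_upwards [ev_pos (val t.1) q r t.2] with κ hκ
    rw [hqr, h1]
    exact hκ
  obtain ⟨κ, hκ1, hκ2, hκ3⟩ := (c1.and (c2.and c3)).exists
  obtain ⟨Y, hY1, hY2, hY3⟩ : ∃ Y : P × Fin 5 → T3, (∀ x, Y x ∈ U) ∧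
      (∀ x : P × Fin 5, ∀ k, ‖Y x k - X' x k‖ < δ) ∧ ∀ t, 0 < (s' t).σ * cx Y (s' t) :=
    ⟨fun x => X' x + κ • V x, hκ1, hκ2, hκ3⟩
  refine ⟨Y, hY1, ?_⟩
  have d1 : ∀ᶠ Z in 𝓝 Y, ∀ x : P × Fin 5, ∀ k, ‖Z x k - X' x k‖ < δ := by
    rw [eventually_all]
    intro x
    rw [eventually_all]
    intro k
    have h0 : Continuous fun Z : P × Fin 5 → T3 => Z x := continuous_apply x
    have h0' : Continuous fun Z : P × Fin 5 → T3 => Z x k := (continuous_apply k).comp h0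
    have h1 : Continuous fun Z : P × Fin 5 → T3 => ‖Z x k - X' x k‖ :=
      (h0'.sub continuous_const).norm
    exact h1.continuousAt.eventually (gt_mem_nhds (hY2 x k))
  have d2 : ∀ᶠ Z in 𝓝 Y, ∀ t, 0 < (s' t).σ * cx Z (s' t) := by
    rw [eventually_all]
    intro t
    have h1 : Continuous fun Z : P × Fin 5 → T3 => (s' t).σ * cx Z (s' t) :=
      continuous_const.mul (cont_cx _)
    exact h1.continuousAt.eventually (lt_mem_nhds (hY3 t))
  filter_upwards [d1, d2] with Z h1 h2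
  exact hfo Z (fun i k => (h1 i k).le) h2

end PatG

end Pool.Agent.H834R6.CC
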