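import Pool.Agent.H834R6.CC.PatG0
import Pool.Agent.H834R6.CC.Cluster

/-! From patterns to gadgets, with the first order theorem as a hypothesis (helper747). -/

set_option autoImplicit false
set_option maxHeartbeats 4000000

namespace Pool.Agent.H834R6.CC

open Pool.Agent.H282R2 Set Filter Topology

theorem PatG.pat_gadget_of
    (first_order : ∀ {ι S : Type} [Finite ι] [Finite S] (X : ι → T3) (s : S → Con ι) (i0 : ι)
      (_ : ∀ a, (s a).Ok X) (_ : cr (X i0 2 - X i0 1) (X i0 3 - X i0 1) ≠ 0)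
      (_ : ∀ V : ι → T3, (∀ i, LP (X i) (V i)) →
        (∀ a, 0 ≤ (s a).σ * (af X (s a) (V (s a).i) - bf X (s a) (V (s a).j))) →
        ∃ ω τ : E3, ∀ i k, V i k = cr ω (X i k) + τ),
      ∃ δ > 0, ∀ Y : ι → T3, (∀ i k, ‖Y i k - X i k‖ ≤ δ) → (∀ a, 0 < (s a).σ * cx Y (s a)) →
        Trap Y)
    {P S : Type} [Fintype P] [Fintype S] [DecidableEq P] (X : P → T3)
    (s : S → Con P) (h : PatOk X s) (p0 : P)
    (hdeg : cr (X p0 2 - X p0 1) (X p0 3 - X p0 1) ≠ 0) (U : Set T3) (hU : IsOpen U)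
    (hX : ∀ p, X p ∈ U) :
    ∃ Y : P × Fin 5 → T3, (∀ x, Y x ∈ U) ∧ ∀ᶠ Z in 𝓝 Y, Trap Z := by
  obtain ⟨w, K, hcl⟩ := cluster X s h
  exact PatG.main first_order X s h.ok w (yv K) hcl p0 hdeg U hU hX

end Pool.Agent.H834R6.CC
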