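import Pool.Agent.H834R6.CC.Defs

/-! Statements of the parts (stubs; nothing imports this file). -/

set_option autoImplicit false
set_option maxHeartbeats 4000000

namespace Pool.Agent.H834R6.CC.Stubs

open Pool.Agent.H282R2 Pool.Agent.H834R6.CC Set Filter Topology

/-! ### chains -/

/-- UPPER -/
theorem upper (n : ℕ) (v : ℕ → E3) (hv : IsChain n v) :
    Unlockable n ((Finset.Ioo 0 n).filter Even) v := by
  sorry

/-- PLACE: general position -/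
theorem place (n : ℕ) (O : ℕ → Set E3) (hO : ∀ i, IsOpen (O i)) (hne : ∀ i, (O i).Nonempty) :
    ∃ v : ℕ → E3, (∀ i, v i ∈ O i) ∧ IsChain n v := by
  sorry

/-- TREE -/
theorem tree {𝔹 T ι J : Type} [TopologicalSpace 𝔹] [TopologicalSpace T] [Fintype ι] [Fintype J]
    [DecidableEq ι] [DecidableEq J] (π : J → 𝔹 → T) (hc : ∀ j, Continuous (π j))
    (ho : ∀ j, IsOpenMap (π j)) (Good : (ι → T) → Prop)
    (hG : ∀ U : Set T, IsOpen U → U.Nonempty → ∃ X : ι → T, (∀ i, X i ∈ U) ∧ ∀ᶠ Y in 𝓝 X, Good Y)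
    (h : ℕ) (U : Set 𝔹) (hU : IsOpen U) (hne : U.Nonempty) :
    ∃ W : (Fin h → J × ι) → Set 𝔹, (∀ w, IsOpen (W w) ∧ (W w).Nonempty ∧ W w ⊆ U) ∧
      ∀ j : J, ∀ Z : Finset (Fin h → J × ι), (Fintype.card (J × ι) - 1) ^ h < Z.card →
        ∃ w : ι → (Fin h → J × ι), Function.Injective w ∧ (∀ i, w i ∈ Z) ∧
          ∀ K : ι → 𝔹, (∀ i, K i ∈ W (w i)) → Good (fun i => π j (K i)) := by
  sorry

/-- COUNT -/
theorem count (ε : ℝ) (hε : 0 < ε) (r Q h : ℕ) (hr : 4 ≤ r) (hr' : 3 ≤ ε * r) (hQ : 1 ≤ Q)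
    (hh : ((Q : ℝ) - 1) ^ h ≤ (ε / 4) * (Q : ℝ) ^ h) :
    ∃ N : ℕ, ∀ n, N ≤ n → ∀ C : Finset ℕ, C ⊆ Finset.Ioo 0 n → (C.card : ℝ) ≤ (1 / 2 - ε) * n →
      ∃ j < r - 3, (Q - 1) ^ h < (((Finset.range ((n + 1) / r)).filter
        (fun β => r * β + j + 1 ∉ C ∧ r * β + j + 2 ∉ C)).image (fun β => β % (Q ^ h))).card := by
  sorry

/-- WINDOW -/
theorem window {ι : Type} (n : ℕ) (v : ℕ → E3) (hv : IsChain n v) (C : Finset ℕ)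
    (hU : Unlockable n C v) (a : ι → ℕ) (ha : ∀ i j, i ≠ j → a i + 4 ≤ a j ∨ a j + 4 ≤ a i)
    (hn : ∀ i, a i + 3 ≤ n) (hC : ∀ i, a i + 1 ∉ C ∧ a i + 2 ∉ C) :
    ¬ Trap (fun i => (fun k : Fin 4 => v (a i + k) : T3)) := by
  sorry

/-- LOWER: assembly of TREE, COUNT, PLACE, WINDOW. `G` is the index type of the gadget. -/
theorem lower (G : Type) [Fintype G] [DecidableEq G] [Nonempty G]
    (gadget : ∀ U : Set T3, IsOpen U → U.Nonempty →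
      ∃ X : G → T3, (∀ i, X i ∈ U) ∧ ∀ᶠ Y in 𝓝 X, Trap Y) (ε : ℝ) (hε : 0 < ε) :
    ∃ N : ℕ, ∀ n, N ≤ n → ∃ v : ℕ → E3, IsChain n v ∧ ∀ C : Finset ℕ, C ⊆ Finset.Ioo 0 n →
      (C.card : ℝ) ≤ (1 / 2 - ε) * n → ¬ Unlockable n C v := by
  sorry

/-- FINAL: assembly of UPPER and LOWER. -/
theorem final
    (upper : ∀ (n : ℕ) (v : ℕ → E3), IsChain n v → Unlockable n ((Finset.Ioo 0 n).filter Even) v)
    (lower : ∀ ε : ℝ, 0 < ε → ∃ N : ℕ, ∀ n, N ≤ n → ∃ v : ℕ → E3, IsChain n v ∧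
      ∀ C : Finset ℕ, C ⊆ Finset.Ioo 0 n → (C.card : ℝ) ≤ (1 / 2 - ε) * n → ¬ Unlockable n C v) :
    (∀ n, (CutNumbers n).Nonempty ∧ f n ≤ (n - 1) / 2) ∧
      Tendsto (fun n : ℕ => (f n : ℝ) / n) atTop (𝓝 (1 / 2)) := by
  sorry

/-! ### from first order to traps -/

/-- CONT: the continuity argument -/
theorem cont_trap {ι S : Type} [Finite ι] [Finite S] (X Y : ι → T3) (s : S → Con ι) (i0 : ι)
    (ρ ρ' c0 : ℝ) (hρ : ρ' < ρ) (hc0 : 0 < c0)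
    (hs : ∀ a, (s a).i ≠ (s a).j ∧ (s a).σ ≠ 0)
    (near : ∀ i k, ‖Y i k - X i k‖ ≤ ρ')
    (sgn : ∀ a, 0 < (s a).σ * cx Y (s a))
    (core : ∀ Z : ι → T3, (∀ i l, ‖lk (Z i) l‖ = ‖lk (Y i) l‖) → Z i0 1 = Y i0 1 →
      Z i0 2 = Y i0 2 → dt (Y i0 2 - Y i0 1) (Y i0 3 - Y i0 1) (Z i0 3 - Y i0 1) = 0 →
      (∀ i k, ‖Z i k - X i k‖ ≤ ρ) → (∀ a, 0 ≤ (s a).σ * cx Z (s a)) →
      ∀ i k, ‖Z i k - X i k‖ ≤ ρ')
    (cross : ∀ Z : ι → T3, (∀ i k, ‖Z i k - X i k‖ ≤ ρ) → ∀ a, cx Z (s a) = 0 →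
      ¬ Disjoint (sg (Z (s a).i) (s a).l) (sg (Z (s a).j) (s a).m))
    (base : ∀ Z : ι → T3, (∀ i k, ‖Z i k - X i k‖ ≤ ρ) →
      c0 ≤ ‖cr (Z i0 2 - Z i0 1) (Z i0 3 - Z i0 1)‖) : Trap Y := by
  sorry

/-- CORE -/
theorem core_near {ι S : Type} [Finite ι] [Finite S] (X : ι → T3) (s : S → Con ι) (i0 : ι)
    (hs : ∀ a, (s a).Ok X) (hdeg : cr (X i0 2 - X i0 1) (X i0 3 - X i0 1) ≠ 0)
    (rigid : ∀ V : ι → T3, (∀ i, LP (X i) (V i)) →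
      (∀ a, 0 ≤ (s a).σ * (af X (s a) (V (s a).i) - bf X (s a) (V (s a).j))) →
      ∃ ω τ : E3, ∀ i k, V i k = cr ω (X i k) + τ) :
    ∃ ρ0 > 0, ∀ ρ, 0 < ρ → ρ ≤ ρ0 → ∃ δ > 0, ∀ Y : ι → T3, (∀ i k, ‖Y i k - X i k‖ ≤ δ) →
      ∀ Z : ι → T3, (∀ i l, ‖lk (Z i) l‖ = ‖lk (Y i) l‖) → Z i0 1 = Y i0 1 → Z i0 2 = Y i0 2 →
      dt (Y i0 2 - Y i0 1) (Y i0 3 - Y i0 1) (Z i0 3 - Y i0 1) = 0 →
      (∀ i k, ‖Z i k - X i k‖ ≤ ρ) → (∀ a, 0 ≤ (s a).σ * cx Z (s a)) →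
      ∀ i k, ‖Z i k - X i k‖ ≤ ρ / 2 := by
  sorry

/-- CROSS -/
theorem cross_near {ι S : Type} [Finite ι] [Finite S] (X : ι → T3) (s : S → Con ι)
    (hs : ∀ a, (s a).Ok X) :
    ∃ ρ0 > 0, ∀ Z : ι → T3, (∀ i k, ‖Z i k - X i k‖ ≤ ρ0) → ∀ a, cx Z (s a) = 0 →
      ¬ Disjoint (sg (Z (s a).i) (s a).l) (sg (Z (s a).j) (s a).m) := by
  sorry

/-- FIRST: assembly of CONT, CORE, CROSS -/
theorem first_order {ι S : Type} [Finite ι] [Finite S] (X : ι → T3) (s : S → Con ι) (i0 : ι)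
    (hs : ∀ a, (s a).Ok X) (hdeg : cr (X i0 2 - X i0 1) (X i0 3 - X i0 1) ≠ 0)
    (rigid : ∀ V : ι → T3, (∀ i, LP (X i) (V i)) →
      (∀ a, 0 ≤ (s a).σ * (af X (s a) (V (s a).i) - bf X (s a) (V (s a).j))) →
      ∃ ω τ : E3, ∀ i k, V i k = cr ω (X i k) + τ) :
    ∃ δ > 0, ∀ Y : ι → T3, (∀ i k, ‖Y i k - X i k‖ ≤ δ) → (∀ a, 0 < (s a).σ * cx Y (s a)) →
      Trap Y := by
  sorry

/-- the five factors of a cluster -/
noncomputable def yv (K : ℝ) : Fin 5 → ℝ := ![0, 1, -1, K, -K]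

/-- CLUSTER: linear algebra -/
theorem cluster {P S : Type} [Fintype P] [Fintype S] [DecidableEq P] (X : P → T3) (s : S → Con P)
    (h : PatOk X s) :
    ∃ (w : P → T3) (K : ℝ), ∀ V : P × Fin 5 → T3, (∀ x, LP (X x.1) (V x)) →
      (∀ a : S, ∀ x y : Fin 5,
        0 ≤ (yv K x * af X (s a) (w (s a).i) - yv K y * bf X (s a) (w (s a).j)) *
          (af X (s a) (V ((s a).i, x)) - bf X (s a) (V ((s a).j, y)))) →
      ∃ ω τ : E3, ∀ x k, V x k = cr ω (X x.1 k) + τ := by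
  sorry

/-- PATG: from patterns to gadgets (uses FIRST and CLUSTER) -/
theorem pat_gadget {P S : Type} [Fintype P] [Fintype S] [DecidableEq P] (X : P → T3)
    (s : S → Con P) (h : PatOk X s) (p0 : P)
    (hdeg : cr (X p0 2 - X p0 1) (X p0 3 - X p0 1) ≠ 0) (U : Set T3) (hU : IsOpen U)
    (hX : ∀ p, X p ∈ U) :
    ∃ Y : P × Fin 5 → T3, (∀ x, Y x ∈ U) ∧ ∀ᶠ Z in 𝓝 Y, Trap Z := by
  sorry

/-! ### one chain through five hubs -/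

/-- HGEO -/
theorem hub_geo (h : Hub5 ℝ) (H : HubOk h) :
    (∀ k, 0 < hθ h k ∧ hθ h k < 1) ∧
    (∀ k, ptOn (hT h) (slotLink k) (hθ h k) = hpt h k) ∧
    (lk (hT h) 0 = ((3 / 2) * (hth h / hDC h)) • toE (hd1 h)) ∧
    (lk (hT h) 1 = (-((hDA h + hDC h) / (hDA h * hDC h))) • toE (hq h)) ∧
    (lk (hT h) 2 = ((3 / 2) * (1 - hsh h / hDA h)) • toE (hd3 h)) ∧
    dt (toE (hd1 h)) (toE (hd3 h)) (toE (hq h)) ≠ 0 := by
  sorry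

/-- HPERP -/
theorem hub_perp {R : Type} [CommRing R] (h : Hub5 R) :
    vdot (hf1 h) (hd1 h) = 0 ∧ vdot (hf3 h) (hd3 h) = 0 ∧ vdot (hpsi h) (hq h) = 0 := by
  sorry

/-- HROW -/
theorem hub_row (h : Hub5 ℝ) (H : HubOk h) (V : T3) (hV : LP (hT h) V) :
    ∑ k : Fin 5, (inner ℝ (toE (hrow h k)) (ptOn V (slotLink k) (hθ h k)) : ℝ) = 0 := by
  sorry

/-- HDET -/
theorem hub_det (h : Hub5 ℝ) (H : HubOk h) (V : T3) (hV : LP (hT h) V)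
    (h0 : ∀ k, cr (lk (hT h) (slotLink k)) (ptOn V (slotLink k) (hθ h k)) = 0) : V = 0 := by
  sorry

/-- HSURJ -/
theorem hub_surj (h : Hub5 ℝ) (H : HubOk h) (x : Fin 5 → E3) :
    ∃ V : T3, ∀ k, cr (lk (hT h) (slotLink k)) (ptOn V (slotLink k) (hθ h k) - x k) = 0 := by
  sorry

/-! ### the system of 13 hubs -/

/-- HDISP: displacements of the hubs -/
theorem hub_disp (η : Fin 13 → V3 ℝ) (hA : ∀ p k, condA η p k ≠ 0) (x : PI → Fin 5 → E3)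
    (hx : ∀ p k e, (inner ℝ (cr (toE (dirOf η p k)) (toE (dirOf η (partner p k e) k)))
      (x p k - x (partner p k e) k) : ℝ) = 0) :
    ∃ D : Fin 13 → E3, ∀ p k, cr (toE (dirOf η p k)) (x p k - D (hubIx p k)) = 0 := by
  sorry

/-- HKER: the kernel of the system -/
theorem hub_kernel (η : Fin 13 → V3 ℝ) (hdet : (hubMatS η).det ≠ 0)
    (hH : ∀ p, HubOk (hub5 η p)) (D : Fin 13 → E3)
    (hD : ∀ p : PI, ∑ k : Fin 5,
      (inner ℝ (toE (hrow (hub5 η p) k)) (D (hubIx p k)) : ℝ) = 0) :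
    ∃ ω τ : E3, ∀ x, D x = cr ω (toE (η x)) + τ := by
  sorry

/-- PATT: assembly of the pattern -/
theorem pattern_ok (η : Fin 13 → V3 ℝ) (hH : ∀ p, HubOk (hub5 η p)) (hc : ∀ c, cond η c ≠ 0) :
    ∃ s : PI × Fin 5 × Fin 2 → Con PI, PatOk (fun p => hT (hub5 η p)) s := by
  sorry

/-! ### genericity -/

/-- CMAP: naturality -/
theorem cond_map {R S : Type} [CommRing R] [CommRing S] (φ : R →+* S) (η : Fin 13 → V3 R) (c : CI) :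
    cond (fun x => ((φ (η x).1, φ (η x).2.1, φ (η x).2.2) : V3 S)) c = φ (cond η c) := by
  sorry

/-- the real version of the numerical instance -/
def etaR (x : Fin 13) : V3 ℝ := ((etaZ x).1, (etaZ x).2.1, (etaZ x).2.2)

/-- hubs moved from `η0` towards `etaR` -/
noncomputable def etaT (η0 : Fin 13 → V3 ℝ) (t : ℝ) (x : Fin 13) : V3 ℝ :=
  vadd (η0 x) (vsmul t (vsub (etaR x) (η0 x)))

/-- CGEN (uses CMAP) -/
theorem cond_generic (hZ : ∀ c, cond etaZ c ≠ 0) (η0 : Fin 13 → V3 ℝ) (δ : ℝ) (hδ : 0 < δ) :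
    ∃ t : ℝ, 0 < t ∧ t < δ ∧ ∀ c, cond (etaT η0 t) c ≠ 0 := by
  sorry

/-- NUMAB -/
theorem num_ab : (∀ p k, condA etaZ p k ≠ 0) ∧ (∀ p k e, condB etaZ p k e ≠ 0) := by
  sorry

/-- NUMDET -/
theorem num_det : (hubMatS etaZ).det ≠ 0 := by
  sorry

/-- all hubs of one type at the same point -/
def baseEta (h : Hub5 ℝ) (x : Fin 13) : V3 ℝ :=
  if (x : ℕ) < 3 then h.A else if (x : ℕ) < 6 then h.A' else if (x : ℕ) = 6 then h.B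
    else if (x : ℕ) < 10 then h.C else h.C'

/-- HBASE -/
theorem hub_base (T : T3) (hT0 : dt (T 1 - T 0) (T 2 - T 1) (T 3 - T 2) ≠ 0) :
    ∃ h : Hub5 ℝ, HubOk h ∧ hT h = T := by
  sorry

/-- HCONT -/
theorem hub_cont (h : Hub5 ℝ) (H : HubOk h) (U : Set T3) (hU : IsOpen U) (hT0 : hT h ∈ U) :
    ∃ δ > 0, ∀ t, 0 < t → t < δ → ∀ p, HubOk (hub5 (etaT (baseEta h) t) p) ∧
      hT (hub5 (etaT (baseEta h) t) p) ∈ U := by
  sorry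

/-- NDEG: nondegenerate chains are dense -/
theorem nondeg_dense (U : Set T3) (hU : IsOpen U) (hne : U.Nonempty) :
    ∃ T ∈ U, dt (T 1 - T 0) (T 2 - T 1) (T 3 - T 2) ≠ 0 := by
  sorry

/-- GADGET: assembly -/
theorem gadget (U : Set T3) (hU : IsOpen U) (hne : U.Nonempty) :
    ∃ X : PI × Fin 5 → T3, (∀ i, X i ∈ U) ∧ ∀ᶠ Y in 𝓝 X, Trap Y := by
  sorry

end Pool.Agent.H834R6.CC.Stubs
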